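import Pool.Agent.H.MP_6c077c_gt.PP.OutCut
import Pool.Agent.H.MP_6c077c_gt.Gd.RModel
import Pool.Agent.H.MP_6c077c_gt.Gd.RCap
import Pool.Agent.H.MP_6c077c_gt.Ix.Glue

/-! Parallel pairs: the induction above the level. -/

set_option autoImplicit false

namespace Pool.Schoen

open Filter Set
open scoped Topology RealInnerProductSpace ContDiff

variable {V : Type*} [NormedAddCommGroup V] [InnerProductSpace ℝ V]

/-- Both sides are connected and every map of them to the circle lifts. -/
structure PSides (f : V → ℝ) : Prop where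
  conn : IsConnected {x | f x ≤ 0}
  lift : LiftS {x | f x ≤ 0}
  out : IsConnected {x | 0 ≤ f x}
  olift : LiftS {x | 0 ≤ f x}

theorem PartLow.rfl' (f : V → ℝ) (e : V) (c : ℝ) : PartLow f f e c :=
  fun _ _ => ⟨fun h => h, fun _ => EventuallyEq.rfl⟩

theorem PartLow.trans {f g k : V → ℝ} {e : V} {c : ℝ} (h : PartLow g f e c)
    (h' : PartLow f k e c) : PartLow g k e c := by
  intro x h2
  obtain ⟨h3, h4⟩ := h x h2
  obtain ⟨h5, h6⟩ := h' x h2
  refine ⟨fun hx => h5 (h3 hx), fun hx => ?_⟩
  have h7 := h4 hx
  have h8 : f x = 0 := by rw [← h7.self_of_nhds, hx]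
  exact h7.trans (h6 h8)

variable [FiniteDimensional ℝ V]

theorem PSides.hom (hdim : 3 ≤ Module.finrank ℝ V) {f g : V → ℝ} (h : PSides f)
    (hfg : Hom f g) : PSides g :=
  ⟨hfg.nonpos_conn (by omega) h.conn, hfg.nonpos_lift hdim h.lift,
    hfg.nonneg_conn (by omega) h.out, hfg.nonneg_lift hdim h.olift⟩

/-- The induction: to show that a body of the relative class which is a union of components of the
body of `F` below the level is a ball, it is enough to consider bodies without inward points above
the level. -/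
theorem pp_ind (hdim : 3 ≤ Module.finrank ℝ V) {F : V → ℝ} {e : V} (he : ‖e‖ = 1) {c : ℝ}
    (hbase : ∀ g : V → ℝ, RClass g e c ∅ → PartLow g F e c → PSides g → IsBall g)
    {f : V → ℝ} {P : Finset V} (hf : RClass f e c P) (hp : PartLow f F e c) (hs : PSides f) :
    IsBall f := by
  have key : ∀ (n : ℕ) (P : Finset V) (f : V → ℝ), P.card = n → RClass f e c P →
      PartLow f F e c → PSides f → IsBall f := by
    intro n
    induction n using Nat.strong_induction_on with
    | _ n ih =>
      intro P f hn hf hp hs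
      rcases P.eq_empty_or_nonempty with hP | hP
      · subst hP
        exact hbase f hf hp hs
      · obtain ⟨p, hpP, htop⟩ := Finset.exists_max_image P (fun x => ⟪e, x⟫) hP
        obtain ⟨g, μ, r, hfg, hg, hgf, hmod⟩ := rmodel he hf hpP
        have hgs := hs.hom hdim hfg
        refine Hom.trans hfg ?_
        rcases hmod with ⟨B, hm⟩ | ⟨u, B, a, hm⟩
        · exact rcap hg hpP htop hm hgs.conn
        · obtain ⟨A, C, PA, PC, q, ℓ, hA, hC, hPA, hPC, hAc, hAl, hCc, hCl, hdisj, hℓ, hflatA,
            hflatC, hs', hρ, hAg, hCg, hAo, hAol, hCo, hCol⟩ :=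
            rcut_out hdim hg hpP htop hm hgs.conn hgs.lift hgs.out hgs.olift
          have hAb : IsBall A := ih _ (by omega) PA A rfl hA ((hAg.trans hgf).trans hp)
            ⟨hAc, hAl, hAo, hAol⟩
          have hCb : IsBall C := ih _ (by omega) PC C rfl hC ((hCg.trans hgf).trans hp)
            ⟨hCc, hCl, hCo, hCol⟩
          have hρ' := glue hAb hC.good hdisj hm.hu hℓ hflatA hflatC hs'
          obtain ⟨ρ, h1, h2⟩ := (hρ.and hρ').exists
          exact (h1.trans h2).trans hCb
  exact key _ P f rfl hf hp hs

end Pool.Schoen
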