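import Pool.Agent.H.MP_6c077c_gt.PP.Open

/-! Parallel pairs with connectivity: only the pairs which are in one component of the part of the
body below the upper point are forbidden. -/

set_option autoImplicit false

namespace Pool.Schoen

open Filter Set
open scoped Topology RealInnerProductSpace ContDiff

variable {V : Type*} [NormedAddCommGroup V] [InnerProductSpace ℝ V] [FiniteDimensional ℝ V]

omit [FiniteDimensional ℝ V] in
/-- The lower parts of a compact set: if they are connected for all levels slightly above `t`, the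
part below `t` is connected. -/
theorem low_preconn {A : Set V} (hA : IsCompact A) {e : V} {t c : ℝ} (htc : t < c)
    (h : ∀ s, t < s → s ≤ c → IsPreconnected {x | x ∈ A ∧ ⟪e, x⟫ ≤ s}) :
    IsPreconnected {x | x ∈ A ∧ ⟪e, x⟫ ≤ t} := by
  have hz : Continuous fun x : V => ⟪e, x⟫ := continuous_const.inner continuous_id
  rw [isPreconnected_closed_iff]
  intro T1 T2 hT1 hT2 hcov h1 h2
  by_contra hne
  rw [not_nonempty_iff_eq_empty] at hne
  have hK : IsCompact {x | x ∈ A ∧ ⟪e, x⟫ ≤ t} :=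
    hA.inter_right (isClosed_le hz continuous_const)
  have hA1 : IsCompact ({x | x ∈ A ∧ ⟪e, x⟫ ≤ t} ∩ T1) := hK.inter_right hT1
  have hA2 : IsCompact ({x | x ∈ A ∧ ⟪e, x⟫ ≤ t} ∩ T2) := hK.inter_right hT2
  have hd : Disjoint ({x | x ∈ A ∧ ⟪e, x⟫ ≤ t} ∩ T1) ({x | x ∈ A ∧ ⟪e, x⟫ ≤ t} ∩ T2) := by
    rw [Set.disjoint_left]
    rintro x ⟨hx, hx1⟩ ⟨-, hx2⟩
    have : x ∈ {x | x ∈ A ∧ ⟪e, x⟫ ≤ t} ∩ (T1 ∩ T2) := ⟨hx, hx1, hx2⟩
    rw [hne] at this
    exact this
  obtain ⟨U1, U2, hU1, hU2, hs1, hs2, hdU⟩ := SeparatedNhds.of_isCompact_isCompact hA1 hA2 hd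
  -- a level with the part below it in the union
  obtain ⟨s, hts, hsc, hsU⟩ : ∃ s, t < s ∧ s ≤ c ∧ {x | x ∈ A ∧ ⟪e, x⟫ ≤ s} ⊆ U1 ∪ U2 := by
    have hB : IsCompact (A ∩ (U1 ∪ U2)ᶜ) := hA.inter_right (hU1.union hU2).isClosed_compl
    have hBt : ∀ x ∈ A ∩ (U1 ∪ U2)ᶜ, t < ⟪e, x⟫ := by
      rintro x ⟨hxA, hxU⟩
      by_contra hcon
      push Not at hcon
      rcases hcov ⟨hxA, hcon⟩ with h3 | h3
      · exact hxU (Or.inl (hs1 ⟨⟨hxA, hcon⟩, h3⟩))
      · exact hxU (Or.inr (hs2 ⟨⟨hxA, hcon⟩, h3⟩))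
    rcases (A ∩ (U1 ∪ U2)ᶜ).eq_empty_or_nonempty with h0 | h0
    · refine ⟨c, htc, le_rfl, fun x hx => ?_⟩
      by_contra hxU
      have : x ∈ A ∩ (U1 ∪ U2)ᶜ := ⟨hx.1, hxU⟩
      rw [h0] at this
      exact this
    · obtain ⟨m, hm, hmin⟩ := hB.exists_isMinOn h0 hz.continuousOn
      have hmt := hBt m hm
      refine ⟨min c ((t + ⟪e, m⟫) / 2), lt_min htc (by linarith), min_le_left _ _,
        fun x hx => ?_⟩
      by_contra hxU
      have h3 : ⟪e, m⟫ ≤ ⟪e, x⟫ := hmin ⟨hx.1, hxU⟩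
      have h4 : ⟪e, x⟫ ≤ (t + ⟪e, m⟫) / 2 := hx.2.trans (min_le_right _ _)
      linarith
  obtain ⟨a, ha, ha1⟩ := h1
  obtain ⟨b, hb, hb2⟩ := h2
  obtain ⟨z, -, hz1, hz2⟩ := h s hts hsc U1 U2 hU1 hU2 hsU
    ⟨a, ⟨ha.1, ha.2.trans hts.le⟩, hs1 ⟨ha, ha1⟩⟩ ⟨b, ⟨hb.1, hb.2.trans hts.le⟩, hs2 ⟨hb, hb2⟩⟩
  exact (Set.disjoint_left.1 hdU) hz1 hz2

/-- The part of the body below the level of the highest inward point is connected. -/
theorem low_conn (hdim : 2 ≤ Module.finrank ℝ V) {g : V → ℝ} {e : V} (he : ‖e‖ = 1) {t c : ℝ}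
    (htc : t < c) (hR : ∀ s, t < s → s ≤ c → RClass g e s ∅) (hc : IsConnected {x | g x ≤ 0}) :
    IsPreconnected {x | g x ≤ 0 ∧ ⟪e, x⟫ ≤ t} := by
  have : ProperSpace V := FiniteDimensional.proper ℝ V
  have hRc := hR c htc le_rfl
  have hA : IsCompact {x | g x ≤ 0} :=
    Metric.isCompact_of_isClosed_isBounded (isClosed_le hRc.good.cont continuous_const) hRc.bdd
  refine low_preconn hA htc fun s hts hsc => ?_
  have h1 : RClass g e ((t + s) / 2) ∅ := hR _ (by linarith) (by linarith)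
  have h2 : Hom g (trunc g e s) := rtrunc_hom he h1 (by linarith) (by simp)
  have h3 := (h2.nonpos_conn hdim hc).isPreconnected
  have h4 : {x | trunc g e s x ≤ 0} = {x | x ∈ {x | g x ≤ 0} ∧ ⟪e, x⟫ ≤ s} := by
    ext x
    simp only [trunc, mem_ofPred_eq, max_le_iff, sub_nonpos]
  rwa [h4] at h3

/-- Lowering the level of the class. -/
theorem rclass_low {F g : V → ℝ} (hF : ContDiff ℝ ∞ F) {e : V} (he : ‖e‖ = 1)
    (hreg : ∀ x, F x = 0 → gradient F x ≠ 0) {c c' : ℝ} (hg : RClass g e c ∅)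
    (hp : PartLow g F e c) {P : Finset V}
    (hP : ∀ x ∈ P, g x = 0 ∧ Inward F e x ∧ c' < ⟪e, x⟫ ∧ ⟪e, x⟫ < c ∧ ∃ k ≤ 1, Idx F e x k)
    (hP' : ∀ x, g x = 0 → Inward F e x → c' ≤ ⟪e, x⟫ → ⟪e, x⟫ < c → x ∈ P) :
    RClass g e c' P := by
  refine ⟨hg.bdd, hg.good, fun p hp' => ?_, fun p hp' => (hP p hp').2.2.1, fun x hx hxc hxP => ?_⟩
  · obtain ⟨h0, h1, h2, h3, k, hk, hi⟩ := hP p hp'
    exact (inw_of_idx F hF e p h1 k hk hi).congr ((hp p h3.le).2 h0).symm
  · rcases le_or_gt c ⟪e, x⟫ with h | h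
    · exact hg.free x hx h (Finset.notMem_empty x)
    · have h1 : g =ᶠ[𝓝 x] F := (hp x h.le).2 hx
      have hFx : F x = 0 := by rw [← h1.self_of_nhds, hx]
      exact (free_of_not_inward F hF e he x hFx (hreg x hFx)
        fun hI => hxP (hP' x hx hI hxc h)).congr h1.symm

/-- **Parallel pairs with connectivity, nondegenerate direction.** -/
theorem pp_ballC (n : ℕ) (hn3 : 3 ≤ n) (hn : Module.finrank ℝ V = n + 1) {F : V → ℝ}
    (hF : ContDiff ℝ ∞ F) (hb : Bornology.IsBounded {x | F x ≤ 0})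
    (hreg : ∀ x, F x = 0 → gradient F x ≠ 0)
    (hMc : IsConnected {x | F x = 0}) (hMl : LiftS {x | F x = 0}) {e : V} (he : ‖e‖ = 1)
    (hnd : ∀ x, Inward F e x → ∃ k, Idx F e x k ∧ (k ≤ 1 ∨ n - 1 ≤ k))
    (hbad : ∀ x y, Inward F e x → Inward F e y → Idx F e x 1 → (∃ k, 2 ≤ k ∧ Idx F e y k) →
      ⟪e, x⟫ ≤ ⟪e, y⟫ → ∀ C : Set V, IsPreconnected C → C ⊆ {z | F z ≤ 0 ∧ ⟪e, z⟫ ≤ ⟪e, y⟫} →
        x ∈ C → y ∉ C) : IsBall F := by
  classical
  have hdim : 3 ≤ Module.finrank ℝ V := by omega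
  obtain ⟨hc1, hc2⟩ := sides_conn hF.continuous hMc
  obtain ⟨hl1, hl2⟩ := BaseN_liftS hF.continuous hMl
  have hs : PSides F := ⟨hc1, hl1, hc2, hl2⟩
  have hbz : Bornology.IsBounded {x | F x = 0} := hb.subset fun x hx => le_of_eq hx
  have hfin : {x | Inward F e x}.Finite := inward_finite hF hbz hreg he fun x hx => by
    obtain ⟨k, hk, -⟩ := hnd x hx
    exact ⟨k, hk⟩
  have hgood : Good F := by
    refine good_of_regular hF hbz fun x hx h0 => ?_
    apply hreg x hx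
    rw [gradient, h0, map_zero]
  -- the induction
  have key : ∀ (N : ℕ) (c : ℝ), (hfin.toFinset.filter fun x => ⟪e, x⟫ < c).card = N →
      (∀ x, Inward F e x → ⟪e, x⟫ ≠ c) →
      ∀ (g : V → ℝ) (P : Finset V), RClass g e c P → PartLow g F e c → PSides g → IsBall g := by
    intro N
    induction N using Nat.strong_induction_on with
    | _ N ih =>
      intro c hN hlev g₀ P₀ hR₀ hp₀ hs₀
      refine pp_ind hdim he (F := F) ?_ hR₀ hp₀ hs₀
      intro g hgR hgp hgs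
      by_cases h1 : ∃ x, g x = 0 ∧ ⟪e, x⟫ < c ∧ Inward F e x ∧ Idx F e x 1
      · -- the highest inward point of `g`
        obtain ⟨x₀, hx₀, hx₀c, hx₀I, hx₀1⟩ := h1
        obtain ⟨S, hS⟩ : ∃ S : Finset V, S = hfin.toFinset.filter fun x => g x = 0 ∧ ⟪e, x⟫ < c :=
          ⟨_, rfl⟩
        have hSm : ∀ x, x ∈ S ↔ Inward F e x ∧ g x = 0 ∧ ⟪e, x⟫ < c := fun x => by
          rw [hS, Finset.mem_filter, Set.Finite.mem_toFinset]
          rfl
        obtain ⟨m, hm, hmax⟩ := Finset.exists_max_image S (fun x => ⟪e, x⟫)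
          ⟨x₀, (hSm x₀).2 ⟨hx₀I, hx₀, hx₀c⟩⟩
        obtain ⟨hmI, hm0, hmc⟩ := (hSm m).1 hm
        have hRs : ∀ s, ⟪e, m⟫ < s → s ≤ c → RClass g e s ∅ := by
          intro s hms hsc
          refine rclass_low hF he hreg hgR hgp (fun x hx => absurd hx (Finset.notMem_empty x)) ?_
          intro x hx hxI hxs hxc
          exact absurd (hmax x ((hSm x).2 ⟨hxI, hx, hxc⟩)) (not_le.2 (hms.trans_le hxs))
        have hconn := low_conn (by omega) he hmc hRs hgs.conn
        have hsub : {x | g x ≤ 0 ∧ ⟪e, x⟫ ≤ ⟪e, m⟫} ⊆ {z | F z ≤ 0 ∧ ⟪e, z⟫ ≤ ⟪e, m⟫} :=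
          fun z hz => ⟨(hgp z (hz.2.trans hmc.le)).1 hz.1, hz.2⟩
        -- all inward points of this height have index at most one
        have hidx : ∀ y, Inward F e y → g y = 0 → ⟪e, y⟫ = ⟪e, m⟫ → ∃ k ≤ 1, Idx F e y k := by
          intro y hyI hy0 hym
          obtain ⟨k, hk, -⟩ := hnd y hyI
          refine ⟨k, ?_, hk⟩
          by_contra hk1
          push Not at hk1
          have hxm : ⟪e, x₀⟫ ≤ ⟪e, m⟫ := hmax x₀ ((hSm x₀).2 ⟨hx₀I, hx₀, hx₀c⟩)
          refine hbad x₀ y hx₀I hyI hx₀1 ⟨k, hk1, hk⟩ (by rw [hym]; exact hxm)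
            {x | g x ≤ 0 ∧ ⟪e, x⟫ ≤ ⟪e, m⟫} hconn ?_ ⟨hx₀.le, hxm⟩ ⟨hy0.le, hym.le⟩
          rw [hym]
          exact hsub
        -- a lower level
        obtain ⟨c', hc'm, hc'⟩ : ∃ c' < ⟪e, m⟫, ∀ x, Inward F e x → c' ≤ ⟪e, x⟫ →
            ⟪e, m⟫ ≤ ⟪e, x⟫ := by
          obtain ⟨T, hT⟩ : ∃ T : Finset V, T = hfin.toFinset.filter fun x => ⟪e, x⟫ < ⟪e, m⟫ :=
            ⟨_, rfl⟩
          have hTm : ∀ x, x ∈ T ↔ Inward F e x ∧ ⟪e, x⟫ < ⟪e, m⟫ := fun x => by
            rw [hT, Finset.mem_filter, Set.Finite.mem_toFinset]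
            rfl
          rcases T.eq_empty_or_nonempty with h0 | h0
          · refine ⟨⟪e, m⟫ - 1, by linarith, fun x hx _ => ?_⟩
            by_contra hcon
            push Not at hcon
            have : x ∈ T := (hTm x).2 ⟨hx, hcon⟩
            rw [h0] at this
            exact absurd this (Finset.notMem_empty x)
          · obtain ⟨q, hq, hqmax⟩ := Finset.exists_max_image T (fun x => ⟪e, x⟫) h0
            have hqm := ((hTm q).1 hq).2
            refine ⟨(⟪e, q⟫ + ⟪e, m⟫) / 2, by linarith, fun x hx hxc => ?_⟩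
            by_contra hcon
            push Not at hcon
            have h3 : ⟪e, x⟫ ≤ ⟪e, q⟫ := hqmax x ((hTm x).2 ⟨hx, hcon⟩)
            linarith
        have hc'c : c' < c := hc'm.trans hmc
        have hlev' : ∀ x, Inward F e x → ⟪e, x⟫ ≠ c' := by
          intro x hx h3
          have := hc' x hx h3.ge
          linarith
        have hcard : (hfin.toFinset.filter fun x => ⟪e, x⟫ < c').card < N := by
          rw [← hN]
          refine Finset.card_lt_card ?_
          rw [Finset.ssubset_iff_of_subset]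
          · refine ⟨m, ?_, ?_⟩
            · rw [Finset.mem_filter, Set.Finite.mem_toFinset]
              exact ⟨hmI, hmc⟩
            · rw [Finset.mem_filter]
              rintro ⟨-, h3⟩
              linarith
          · intro x hx
            rw [Finset.mem_filter] at hx ⊢
            exact ⟨hx.1, hx.2.trans hc'c⟩
        have hR' : RClass g e c' (S.filter fun x => c' < ⟪e, x⟫) := by
          refine rclass_low hF he hreg hgR hgp (fun x hx => ?_) (fun x hx hxI hxc' hxc => ?_)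
          · rw [Finset.mem_filter, hSm] at hx
            obtain ⟨⟨h3, h4, h5⟩, h6⟩ := hx
            refine ⟨h4, h3, h6, h5, hidx x h3 h4 ?_⟩
            exact le_antisymm (hmax x ((hSm x).2 ⟨h3, h4, h5⟩)) (hc' x h3 h6.le)
          · rw [Finset.mem_filter, hSm]
            exact ⟨⟨hxI, hx, hxc⟩, lt_of_le_of_ne hxc' (Ne.symm (hlev' x hxI))⟩
        exact ih _ hcard c' rfl hlev' g _ hR' (fun x hx => hgp x (hx.trans hc'c.le)) hgs
      · -- no point of index one
        push Not at h1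
        obtain ⟨G, hG, hgG, hGi⟩ := pp_baseG2 (e := e) (c := c) hF hgR.good
          (fun x h1 h2 => (hgp x h2).2 h1) (fun x h1 h2 => hgR.free x h1 h2 (Finset.notMem_empty x))
        have hGs := hgs.hom hdim hgG
        have hGb : Bornology.IsBounded {x | G x ≤ 0} := hgG.bdd hgR.bdd
        have hGreg : ∀ x, G x = 0 → gradient G x ≠ 0 := by
          intro x hx h0
          refine hgG.good_right.regular hG x hx ?_
          rwa [gradient, LinearIsometryEquiv.map_eq_zero_iff] at h0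
        refine hgG.trans (ix_T3S n hn3 hn G hG hGb hGreg hGs.conn hGs.out hGs.olift e he ?_)
        intro x hx
        obtain ⟨h2, h3, h4⟩ := hGi x hx
        have hxI : Inward F e x := hx.congr' h3
        obtain ⟨k, hk, hk'⟩ := hnd x hxI
        refine ⟨k, hk.congr' h3.symm, ?_⟩
        rcases hk' with h5 | h5
        · left
          have h6 : k ≠ 1 := by
            rintro rfl
            exact h1 x h4 h2 hxI hk
          omega
        · exact Or.inr h5
  -- the start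
  obtain ⟨R, hR⟩ := hb.exists_norm_le
  have hht : ∀ x, F x ≤ 0 → ⟪e, x⟫ < |R| + 1 := by
    intro x hx
    have h1 := real_inner_le_norm e x
    rw [he, one_mul] at h1
    have h2 := hR x hx
    have h3 := le_abs_self R
    linarith
  refine key _ (|R| + 1) rfl (fun x hx => (hht x hx.1.le).ne) F ∅ ⟨hb, hgood, ?_, ?_, ?_⟩
    (PartLow.rfl' F e _) hs
  · intro p hp
    exact absurd hp (Finset.notMem_empty p)
  · intro p hp
    exact absurd hp (Finset.notMem_empty p)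
  · intro x hx hxc _
    exact absurd (hht x hx.le) (not_lt.2 hxc)

end Pool.Schoen
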