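import Pool.Agent.H.MP_6c077c_gt.PP.Open
import Pool.Agent.H.MP_6c077c_gt.F2.CurvP

/-! Weights on the parallel pairs of saddles. -/

set_option autoImplicit false

namespace Pool.Schoen

open Filter Set Metric MeasureTheory
open scoped Topology RealInnerProductSpace ContDiff ENNReal

variable {V : Type*} [NormedAddCommGroup V] [InnerProductSpace ℝ V] [FiniteDimensional ℝ V]
  [MeasurableSpace V] [BorelSpace V]

omit [MeasurableSpace V] [BorelSpace V] in
/-- A point of nonzero curvature as an inward critical point. -/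
theorem PPC_inward {F : V → ℝ} {x : V} (hx : F x = 0) (hg : gradient F x ≠ 0) :
    ‖-nrm F x‖ = 1 ∧ Inward F (-nrm F x) x := by
  refine ⟨by rw [norm_neg, norm_nrm F x hg], hx, ‖gradient F x‖, norm_pos_iff.2 hg, ?_⟩
  rw [smul_neg, neg_neg, nrm, smul_smul, mul_inv_cancel₀ (norm_ne_zero_iff.2 hg), one_smul]

omit [MeasurableSpace V] [BorelSpace V] in
theorem nneg_one_of_nsC (hdim : Module.finrank ℝ V = 4) {F : V → ℝ} (hF : ContDiff ℝ ∞ F)
    (hreg : ∀ x, F x = 0 → gradient F x ≠ 0) {x : V}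
    (hx : x ∈ nsC (fun y => -F y) ∩ nsP (fun y => -F y)) (hK0 : gaussK F x ≠ 0) :
    nneg F x = 1 := by
  have hgr : gradient (fun y => -F y) x = -gradient F x := by
    unfold gradient
    rw [fderiv_fun_neg, map_neg]
  have hx0 : F x = 0 := neg_eq_zero.1 hx.1.1
  have hregG : gradient (fun y => -F y) x ≠ 0 := by
    rw [hgr, neg_ne_zero]
    exact hreg x hx0
  have hKG : gaussK (fun y => -F y) x ≠ 0 := by
    intro h0
    apply hK0
    rw [← abs_eq_zero, ← gaussK_neg 3 hdim F hF x, h0, abs_zero]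
  have h1 := two_le_nneg_of_nsC 3 hdim _ hF.neg hx.1 hregG hKG
  have h2 := nneg_lt_of_nsP 3 hdim _ hF.neg hx.2 hregG hKG
  have h3 := nneg_neg 3 hdim F hF x (hreg x hx0) hK0
  omega

omit [MeasurableSpace V] [BorelSpace V] in
theorem m21_neg_of_nneg (hdim : Module.finrank ℝ V = 4) {F : V → ℝ} (hF : ContDiff ℝ ∞ F)
    (hreg : ∀ x, F x = 0 → gradient F x ≠ 0) {x : V} (hx : F x = 0) (hK : gaussK F x ≠ 0)
    (h : nneg F x = 1) : x ∈ M21 fun y => -F y := by
  obtain ⟨he, hI⟩ := PPC_inward hx (hreg x hx)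
  have h1 := idx_of_gaussK 3 hdim F hF _ he x hI hK
  rw [h] at h1
  exact m21_neg_of_idx hdim he ((crit_iff he hreg x).2 (Or.inl hI)) h1

omit [MeasurableSpace V] [BorelSpace V] in
theorem m2_of_nneg (hdim : Module.finrank ℝ V = 4) {F : V → ℝ} (hF : ContDiff ℝ ∞ F)
    (hreg : ∀ x, F x = 0 → gradient F x ≠ 0) {x : V} (hx : F x = 0) (hK : gaussK F x ≠ 0)
    (h : 2 ≤ nneg F x) : x ∈ M2 F := by
  obtain ⟨he, hI⟩ := PPC_inward hx (hreg x hx)
  exact m2_of_idx ((crit_iff he hreg x).2 (Or.inl hI)) h (idx_of_gaussK 3 hdim F hF _ he x hI hK)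

/-- Weights on the parallel pairs: a direction without reversed parallel pair. -/
theorem noPar_of_weight (hdim : Module.finrank ℝ V = 4) (F : V → ℝ) (hF : ContDiff ℝ ∞ F)
    (hreg : ∀ x, F x = 0 → gradient F x ≠ 0) (hK : IsCompact {x | F x = 0})
    (w : V → ℝ≥0∞) (hw : Measurable w)
    (hpair : ∀ x y, F x = 0 → F y = 0 → gaussK F x ≠ 0 → gaussK F y ≠ 0 → nneg F x = 1 →
      2 ≤ nneg F y → nrm F x = nrm F y → ⟪nrm F x, y⟫ ≤ ⟪nrm F x, x⟫ → 1 ≤ w x + w y)
    (hint : ∫⁻ x in {x | F x = 0 ∧ 1 ≤ nneg F x},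
      w x * ENNReal.ofReal |gaussK F x| ∂μH[3] < μH[3] (sphere (0 : V) 1)) :
    ∃ e : V, ‖e‖ = 1 ∧ NoPar F e := by
  have hset : {x | -F x = 0} = {x | F x = 0} := by
    ext x
    exact neg_eq_zero
  have hCc : IsClosed (nsC (fun y => -F y) ∩ nsP (fun y => -F y)) :=
    (nsC_closed _ hF.neg (by rw [hset]; exact hK)).inter
      (nsP_closed _ hF.neg (by rw [hset]; exact hK))
  have hDc : IsClosed (nsC F) := nsC_closed F hF hK
  have hC1 : ∀ x ∈ nsC (fun y => -F y) ∩ nsP (fun y => -F y), gaussK F x ≠ 0 →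
      nneg F x = 1 := fun x hx hK0 => nneg_one_of_nsC hdim hF hreg hx hK0
  have hD2 : ∀ x ∈ nsC F, gaussK F x ≠ 0 → 2 ≤ nneg F x := fun x hx hK0 =>
    two_le_nneg_of_nsC 3 hdim F hF hx (hreg x hx.1) hK0
  have hCM : nsC (fun y => -F y) ∩ nsP (fun y => -F y) ⊆ {x | F x = 0} :=
    fun x hx => neg_eq_zero.1 hx.1.1
  have hDM : nsC F ⊆ {x | F x = 0} := fun x hx => hx.1
  have hgc : ContinuousOn (gaussK F) {x | F x = 0} := fun x hx =>
    (gaussK_continuousAt F (hF.of_le (by norm_cast)) x (hreg x hx)).continuousWithinAt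
  have hmeas : MeasurableSet {x | x ∈ nsC F ∧ gaussK F x ≠ 0} := by
    have h1 : IsClosed (nsC F ∩ gaussK F ⁻¹' {0}) :=
      (hgc.mono hDM).preimage_isClosed_of_isClosed hDc isClosed_singleton
    have h2 : {x | x ∈ nsC F ∧ gaussK F x ≠ 0} = nsC F \ (nsC F ∩ gaussK F ⁻¹' {0}) := by
      ext x
      constructor
      · rintro ⟨h3, h4⟩
        exact ⟨h3, fun h5 => h4 h5.2⟩
      · rintro ⟨h3, h4⟩
        exact ⟨h3, fun h5 => h4 ⟨h3, h5⟩⟩
    rw [h2]
    exact hDc.measurableSet.diff h1.measurableSet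
  have hdisj : Disjoint {x | x ∈ nsC (fun y => -F y) ∩ nsP (fun y => -F y) ∧ gaussK F x ≠ 0}
      {x | x ∈ nsC F ∧ gaussK F x ≠ 0} := by
    rw [Set.disjoint_left]
    rintro x ⟨h1, h2⟩ ⟨h3, -⟩
    have h4 := hC1 x h1 h2
    have h5 := hD2 x h3 h2
    omega
  obtain ⟨e, U, he, -, heU, h⟩ := nsw_par_exists 3 hdim F hF hreg hK
    (nsC (fun y => -F y) ∩ nsP (fun y => -F y)) (nsC F) hCc hDc hCM hDM w hw
    (fun x hx y hy hKx hKy hxy hle => hpair x y (hCM hx) (hDM hy) hKx hKy (hC1 x hx hKx)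
      (hD2 y hy hKy) hxy hle) (by
      refine lt_of_le_of_lt ?_ hint
      rw [Nat.cast_ofNat, ← lintegral_union hmeas hdisj]
      refine lintegral_mono_set ?_
      rintro x (⟨h1, h2⟩ | ⟨h1, h2⟩)
      · exact ⟨hCM h1, (hC1 x h1 h2).ge⟩
      · exact ⟨hDM h1, one_le_two.trans (hD2 x h1 h2)⟩)
  have hcl : closure (M21 fun y => -F y) ⊆ nsC (fun y => -F y) ∩ nsP (fun y => -F y) :=
    closure_minimal (M21_subset _) hCc
  have hcl2 : closure (M2 F) ⊆ nsC F := closure_minimal (M2_subset_nsC F) hDc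
  exact ⟨e, he, fun x hx y hy hnx hny => h e heU x (hcl hx) y (hcl2 hy) hnx hny⟩

/-- A threshold for the support function on the two kinds of points. -/
theorem noPar_of_threshold (hdim : Module.finrank ℝ V = 4) (F : V → ℝ) (hF : ContDiff ℝ ∞ F)
    (hreg : ∀ x, F x = 0 → gradient F x ≠ 0) (hK : IsCompact {x | F x = 0}) (o : V) (c : ℝ)
    (hint : ∫⁻ x in {x | F x = 0 ∧ ((nneg F x = 1 ∧ c ≤ ⟪x - o, nrm F x⟫) ∨
      (2 ≤ nneg F x ∧ ⟪x - o, nrm F x⟫ < c))}, ENNReal.ofReal |gaussK F x| ∂μH[3] <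
        μH[3] (sphere (0 : V) 1)) :
    ∃ e : V, ‖e‖ = 1 ∧ NoPar F e := by
  have hset : {x | -F x = 0} = {x | F x = 0} := by
    ext x
    exact neg_eq_zero
  have hg : Measurable (gradient F) :=
    ((InnerProductSpace.toDual ℝ V).symm.continuous.comp
      (hF.continuous_fderiv (by simp))).measurable
  have hn : Measurable (nrm F) := hg.norm.inv.smul hg
  have hh : Measurable fun x : V => ⟪x - o, nrm F x⟫ := (measurable_id.sub_const o).inner hn
  have hCc : IsClosed (nsC (fun y => -F y) ∩ nsP (fun y => -F y)) :=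
    (nsC_closed _ hF.neg (by rw [hset]; exact hK)).inter
      (nsP_closed _ hF.neg (by rw [hset]; exact hK))
  have hDc : IsClosed (nsC F) := nsC_closed F hF hK
  have hCM : nsC (fun y => -F y) ∩ nsP (fun y => -F y) ⊆ {x | F x = 0} :=
    fun x hx => neg_eq_zero.1 hx.1.1
  have hDM : nsC F ⊆ {x | F x = 0} := fun x hx => hx.1
  have hgc : ContinuousOn (gaussK F) {x | F x = 0} := fun x hx =>
    (gaussK_continuousAt F (hF.of_le (by norm_cast)) x (hreg x hx)).continuousWithinAt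
  have hZ : IsClosed ({x | F x = 0} ∩ gaussK F ⁻¹' {0}) :=
    hgc.preimage_isClosed_of_isClosed hK.isClosed isClosed_singleton
  obtain ⟨T, hT⟩ : ∃ T : Set V, T = (((nsC (fun y => -F y) ∩ nsP (fun y => -F y)) ∩
      {x | c ≤ ⟪x - o, nrm F x⟫}) ∪ (nsC F ∩ {x | ⟪x - o, nrm F x⟫ < c})) \
      ({x | F x = 0} ∩ gaussK F ⁻¹' {0}) := ⟨_, rfl⟩
  have hTm : MeasurableSet T := by
    rw [hT]
    exact ((hCc.measurableSet.inter (measurableSet_le measurable_const hh)).union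
      (hDc.measurableSet.inter (measurableSet_lt hh measurable_const))).diff hZ.measurableSet
  refine noPar_of_weight hdim F hF hreg hK (T.indicator fun _ => 1)
    (measurable_const.indicator hTm) ?_ ?_
  · intro x y hx hy hKx hKy h1 h2 hxy hle
    have h3 : ⟪y - o, nrm F y⟫ ≤ ⟪x - o, nrm F x⟫ := by
      rw [← hxy, inner_sub_left, inner_sub_left, real_inner_comm, real_inner_comm (nrm F x) x]
      linarith
    by_cases h4 : c ≤ ⟪x - o, nrm F x⟫
    · have hxT : x ∈ T := by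
        rw [hT]
        exact ⟨Or.inl ⟨M21_subset _ (m21_neg_of_nneg hdim hF hreg hx hKx h1), h4⟩,
          fun h5 => hKx h5.2⟩
      rw [indicator_of_mem hxT]
      exact le_self_add
    · have hyT : y ∈ T := by
        rw [hT]
        refine ⟨Or.inr ⟨M2_subset_nsC F (m2_of_nneg hdim hF hreg hy hKy h2), ?_⟩,
          fun h5 => hKy h5.2⟩
        show ⟪y - o, nrm F y⟫ < c
        linarith
      rw [indicator_of_mem hyT]
      exact le_add_self
  · refine lt_of_le_of_lt ?_ hint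
    have e1 : (fun x => T.indicator (fun _ => (1 : ℝ≥0∞)) x * ENNReal.ofReal |gaussK F x|) =
        T.indicator fun x => ENNReal.ofReal |gaussK F x| := by
      funext x
      by_cases hx : x ∈ T
      · rw [indicator_of_mem hx, indicator_of_mem hx, one_mul]
      · rw [indicator_of_notMem hx, indicator_of_notMem hx, zero_mul]
    rw [e1, lintegral_indicator hTm, Measure.restrict_restrict hTm]
    refine lintegral_mono_set ?_
    rintro x ⟨hxT, hx, -⟩
    rw [hT] at hxT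
    obtain ⟨h1, h2⟩ := hxT
    have hK0 : gaussK F x ≠ 0 := fun h => h2 ⟨hx, h⟩
    rcases h1 with ⟨h3, h4⟩ | ⟨h3, h4⟩
    · exact ⟨hx, Or.inl ⟨nneg_one_of_nsC hdim hF hreg h3 hK0, h4⟩⟩
    · exact ⟨hx, Or.inr ⟨two_le_nneg_of_nsC 3 hdim F hF h3 (hreg x hx) hK0, h4⟩⟩

end Pool.Schoen
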