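import Pool.Agent.H.MP_6c077c_gt.Ix.MollD
import Pool.Agent.H.MP_6c077c_gt.Ix.Class
import Pool.Agent.H.MP_6c077c_gt.CG.Local

/-! Parallel pairs: smoothing of a good function relative to its smooth part. -/

set_option autoImplicit false

namespace Pool.Schoen

open Filter Set
open scoped Topology RealInnerProductSpace ContDiff

variable {V : Type*} [NormedAddCommGroup V] [InnerProductSpace ℝ V]

/-- Uniform descent directions near the zeros in a compact set. -/
theorem cover_dir {g : V → ℝ} (hg : Continuous g) {K : Set V} (hK : IsCompact K) (D : V → Prop)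
    (h : ∀ x ∈ K, g x = 0 → ∃ v, D v ∧ Desc1 g x v) :
    ∃ e c B : ℝ, 0 < e ∧ 0 < c ∧ 0 ≤ B ∧ ∀ x ∈ K, |g x| ≤ e → ∃ v, D v ∧ ‖v‖ ≤ B ∧
      Desc1 g x v ∧ ∀ y, ‖y - x‖ < e → ∀ s, 0 < s → s < e → g (y + s • v) ≤ g y - c * s := by
  refine hK.induction_on (p := fun S => ∃ e c B : ℝ, 0 < e ∧ 0 < c ∧ 0 ≤ B ∧ ∀ x ∈ S,
    |g x| ≤ e → ∃ v, D v ∧ ‖v‖ ≤ B ∧ Desc1 g x v ∧ ∀ y, ‖y - x‖ < e → ∀ s, 0 < s → s < e →
      g (y + s • v) ≤ g y - c * s) ?_ ?_ ?_ ?_
  · exact ⟨1, 1, 0, one_pos, one_pos, le_rfl, fun x hx => absurd hx (by simp)⟩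
  · rintro S S' hSS ⟨e, c, B, he, hc, hB, h⟩
    exact ⟨e, c, B, he, hc, hB, fun x hx => h x (hSS hx)⟩
  · rintro S S' ⟨e, c, B, he, hc, hB, h⟩ ⟨e', c', B', he', hc', hB', h'⟩
    refine ⟨min e e', min c c', max B B', lt_min he he', lt_min hc hc', le_max_of_le_left hB, ?_⟩
    rintro x (hx | hx) hxe
    · obtain ⟨v, hv, hvB, hd, h1⟩ := h x hx (hxe.trans (min_le_left _ _))
      refine ⟨v, hv, hvB.trans (le_max_left _ _), hd, fun y hy s hs hse => ?_⟩
      have h2 := h1 y (hy.trans_le (min_le_left _ _)) s hs (hse.trans_le (min_le_left _ _))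
      have h3 : min c c' * s ≤ c * s := mul_le_mul_of_nonneg_right (min_le_left _ _) hs.le
      linarith
    · obtain ⟨v, hv, hvB, hd, h1⟩ := h' x hx (hxe.trans (min_le_right _ _))
      refine ⟨v, hv, hvB.trans (le_max_right _ _), hd, fun y hy s hs hse => ?_⟩
      have h2 := h1 y (hy.trans_le (min_le_right _ _)) s hs (hse.trans_le (min_le_right _ _))
      have h3 : min c c' * s ≤ c' * s := mul_le_mul_of_nonneg_right (min_le_right _ _) hs.le
      linarith
  · intro x hxK
    by_cases hx : g x = 0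
    · obtain ⟨v, hDv, hv⟩ := h x hxK hx
      obtain ⟨c, hc, d, hd, h1⟩ := hv.unif
      obtain ⟨d', hd', h2⟩ := Metric.eventually_nhds_iff.1 (Desc.near hv)
      refine ⟨Metric.ball x (min (d / 2) d'),
        mem_nhdsWithin_of_mem_nhds (Metric.ball_mem_nhds x (by positivity)), d / 2, c, ‖v‖,
        by positivity, hc, norm_nonneg v, ?_⟩
      intro z hz _
      have hz' : dist z x < min (d / 2) d' := hz
      refine ⟨v, hDv, le_rfl, h2 (hz'.trans_le (min_le_right _ _)), fun y hy s hs hse => ?_⟩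
      refine h1 y ?_ v (by simpa using hd) s hs (by linarith)
      have a1 : ‖z - x‖ < d / 2 := by
        rw [← dist_eq_norm]
        exact hz'.trans_le (min_le_left _ _)
      calc ‖y - x‖ = ‖(y - z) + (z - x)‖ := by congr 1; abel
        _ ≤ ‖y - z‖ + ‖z - x‖ := norm_add_le _ _
        _ < d := by linarith
    · have hpos : 0 < |g x| := abs_pos.2 hx
      refine ⟨{y | |g x| / 2 < |g y|}, mem_nhdsWithin_of_mem_nhds ?_, |g x| / 2, 1, 0,
        by linarith, one_pos, le_rfl, ?_⟩
      · exact (isOpen_lt continuous_const hg.abs).mem_nhds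
          (show |g x| / 2 < |g x| by linarith)
      · intro y hy hy'
        exact absurd hy (not_lt.2 hy')

/-- A smooth function which drops in the direction `v`. -/
theorem fderiv_le_of_drop {F : V → ℝ} {x v : V} {c e : ℝ} (hF : DifferentiableAt ℝ F x)
    (he : 0 < e) (h : ∀ s, 0 < s → s < e → F (x + s • v) ≤ F x - c * s) :
    fderiv ℝ F x v ≤ -c := by
  have hd1 : HasFDerivAt F (fderiv ℝ F x) (x + (0 : ℝ) • v) := by
    rw [zero_smul, add_zero]
    exact hF.hasFDerivAt
  have hd2 : HasDerivAt (fun s : ℝ => x + s • v) v 0 := by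
    have := ((hasDerivAt_id (0 : ℝ)).smul_const v).const_add x
    simpa using this
  have hd3 : HasDerivAt (fun s : ℝ => F (x + s • v)) (fderiv ℝ F x v) 0 :=
    hd1.comp_hasDerivAt 0 hd2
  have hd4 := hd3.tendsto_slope_zero_right
  refine le_of_tendsto hd4 ?_
  filter_upwards [Ioo_mem_nhdsGT he] with s hs
  have h1 := h s hs.1 hs.2
  simp only [zero_add, zero_smul, add_zero, smul_eq_mul]
  have h2 : F (x + s • v) - F x ≤ -c * s := by linarith
  calc s⁻¹ * (F (x + s • v) - F x) ≤ s⁻¹ * (-c * s) :=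
        mul_le_mul_of_nonneg_left h2 (inv_nonneg.2 hs.1.le)
    _ = -c := by
        have : s ≠ 0 := hs.1.ne'
        field_simp

variable [FiniteDimensional ℝ V]

/-- The mean has the sign of a function without zeros near the point. -/
theorem moll_sign {g M : V → ℝ} (hc : Continuous g) {ε : ℝ} (hM : IsMoll g ε M) (hε : ε ≤ 1 / 2)
    (x : V) (hne : ∀ y, ‖y - x‖ < 1 → g y ≠ 0) : 0 < M x * g x := by
  have : ProperSpace V := FiniteDimensional.proper ℝ V
  have key : ∀ f : V → ℝ, Continuous f → (∀ y, ‖y - x‖ < 1 → f y ≠ 0) → 0 < f x →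
      ∃ a, 0 < a ∧ ∀ y, ‖y - x‖ < 1 / 2 → a ≤ f y := by
    intro f hf hne hpos
    have hall : ∀ y, ‖y - x‖ < 1 → 0 < f y := by
      intro y hy
      by_contra hcon
      push Not at hcon
      have hpre : IsPreconnected (Metric.ball x 1) := (convex_ball x 1).isPreconnected
      have hiv := hpre.intermediate_value (f := f)
        (show y ∈ Metric.ball x 1 by simpa [dist_eq_norm] using hy)
        (show x ∈ Metric.ball x 1 by simp) hf.continuousOn
      obtain ⟨p, hp, hp0⟩ := hiv (show (0 : ℝ) ∈ Icc (f y) (f x) from ⟨hcon, hpos.le⟩)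
      exact hne p (by rw [← dist_eq_norm]; exact hp) hp0
    have hK : IsCompact (Metric.closedBall x (1 / 2)) := isCompact_closedBall _ _
    obtain ⟨a, ha, h⟩ := hK.exists_forall_le' hf.continuousOn (a := 0) (fun y hy =>
      hall y (by
        have : dist y x ≤ 1 / 2 := hy
        rw [← dist_eq_norm]
        linarith))
    refine ⟨a, ha, fun y hy => h y ?_⟩
    show dist y x ≤ 1 / 2
    rw [dist_eq_norm]
    exact hy.le
  have hx0 : g x ≠ 0 := hne x (by simp)
  rcases lt_or_gt_of_ne hx0 with hneg | hpos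
  · obtain ⟨a, ha, h⟩ := key (fun y => -g y) hc.neg (fun y hy => neg_ne_zero.2 (hne y hy))
      (by simpa using hneg)
    have h1 : M x ≤ -a := hM.le x _ (fun y hy => by
      have := h y (hy.trans_le hε)
      linarith)
    exact mul_pos_of_neg_of_neg (by linarith) hneg
  · obtain ⟨a, ha, h⟩ := key g hc hne hpos
    have h1 : a ≤ M x := hM.ge x _ (fun y hy => h y (hy.trans_le hε))
    exact mul_pos (by linarith) hpos

/-- The mean is close to the function. -/
theorem moll_close {g : V → ℝ} (hc : Continuous g) (R : ℝ) {η : ℝ} (hη : 0 < η) :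
    ∃ ε : ℝ, 0 < ε ∧ ∀ M, ∀ ε' ≤ ε, IsMoll g ε' M → ∀ x, ‖x‖ ≤ R → |M x - g x| ≤ η := by
  have : ProperSpace V := FiniteDimensional.proper ℝ V
  have huc : UniformContinuousOn g (Metric.closedBall (0 : V) (R + 1)) :=
    (isCompact_closedBall _ _).uniformContinuousOn_of_continuous hc.continuousOn
  obtain ⟨ε1, hε1, huc⟩ := Metric.uniformContinuousOn_iff.1 huc η hη
  refine ⟨min ε1 1, lt_min hε1 one_pos, fun M ε' hε' hM x hx => ?_⟩
  have hnear : ∀ y, ‖y - x‖ < ε' → |g y - g x| < η := by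
    intro y hy
    have hy1 : ‖y‖ ≤ R + 1 := by
      have h1 : ‖y - x‖ < 1 := hy.trans_le (hε'.trans (min_le_right _ _))
      calc ‖y‖ = ‖(y - x) + x‖ := by congr 1; abel
        _ ≤ ‖y - x‖ + ‖x‖ := norm_add_le _ _
        _ ≤ R + 1 := by linarith
    have := huc y (by simpa using hy1) x (by simpa using (by linarith : ‖x‖ ≤ R + 1)) (by
          rw [dist_eq_norm]; exact hy.trans_le (hε'.trans (min_le_left _ _)))
    rwa [Real.dist_eq] at this
  have h1 : g x - η ≤ M x := hM.ge x _ (fun y hy => by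
    have := abs_lt.1 (hnear y hy)
    linarith)
  have h2 : M x ≤ g x + η := hM.le x _ (fun y hy => by
    have := abs_lt.1 (hnear y hy)
    linarith)
  rw [abs_le]
  constructor <;> linarith

/-- **Relative smoothing.** A good function which is the germ of a smooth function `F` at its zeros
of height at most `c` and free at its zeros of height at least `c` is homotopic to a smooth function
whose points with normal `-e` are below the level `c`, with the germ of `F`. -/
theorem pp_baseG2 {F g : V → ℝ} {e : V} {c : ℝ} (hF : ContDiff ℝ ∞ F) (hg : Good g)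
    (hlow : ∀ x, g x = 0 → ⟪e, x⟫ ≤ c → g =ᶠ[𝓝 x] F)
    (hfree : ∀ x, g x = 0 → c ≤ ⟪e, x⟫ → FreeAt g e x) :
    ∃ G : V → ℝ, ContDiff ℝ ∞ G ∧ Hom g G ∧
      ∀ x, Inward G e x → ⟪e, x⟫ < c ∧ G =ᶠ[𝓝 x] F ∧ g x = 0 := by
  classical
  have hprop : ProperSpace V := FiniteDimensional.proper ℝ V
  have hgc := hg.cont
  have hz : Continuous fun x : V => ⟪e, x⟫ := continuous_const.inner continuous_id
  obtain ⟨R0, hR0⟩ := hg.bdd.exists_norm_le
  obtain ⟨R, hR⟩ : ∃ R : ℝ, R = |R0| + 2 := ⟨_, rfl⟩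
  have hfar : ∀ y, R - 1 < ‖y‖ → g y ≠ 0 := by
    intro y hy h0
    have h1 := hR0 y h0
    have h2 := le_abs_self R0
    linarith
  -- the zeros below the level
  obtain ⟨Zc, hZc⟩ : ∃ Zc : Set V, Zc = {x | g x = 0 ∧ ⟪e, x⟫ ≤ c} := ⟨_, rfl⟩
  have hZcc : IsCompact Zc := by
    rw [hZc]
    refine Metric.isCompact_of_isClosed_isBounded ?_ (hg.bdd.subset fun x hx => hx.1)
    exact (isClosed_eq hgc continuous_const).inter (isClosed_le hz continuous_const)
  obtain ⟨U, hU⟩ : ∃ U : Set V, U = interior {x | g x = F x} := ⟨_, rfl⟩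
  have hUo : IsOpen U := by rw [hU]; exact isOpen_interior
  have hUg : ∀ x ∈ U, g =ᶠ[𝓝 x] F := by
    intro x hx
    rw [hU] at hx
    exact mem_interior_iff_mem_nhds.1 hx
  have hZU : Zc ⊆ U := by
    intro x hx
    rw [hZc] at hx
    rw [hU]
    exact mem_interior_iff_mem_nhds.2 (hlow x hx.1 hx.2)
  obtain ⟨L, hLc, hZL, hLU⟩ := exists_compact_between hZcc hUo hZU
  obtain ⟨χ, hχ, h1, h2, h3⟩ : ∃ χ : V → ℝ, ContDiff ℝ ∞ χ ∧ (∀ᶠ x in 𝓝ˢ Zc, χ x = 1) ∧
      (∀ x ∉ L, χ x = 0) ∧ ∀ x, χ x ∈ Icc (0 : ℝ) 1 := by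
    obtain ⟨χ, h1, h2, h3⟩ :=
      exists_contMDiffMap_one_nhds_of_subset_interior (modelWithCornersSelf ℝ V) (n := (⊤ : ℕ∞))
        hZcc.isClosed (t := L) hZL
    exact ⟨χ, χ.contMDiff.contDiff, h1, h2, h3⟩
  obtain ⟨W1, hW1⟩ : ∃ W1 : Set V, W1 = interior {x | χ x = 1} := ⟨_, rfl⟩
  have hW1o : IsOpen W1 := by rw [hW1]; exact isOpen_interior
  have hZW : Zc ⊆ W1 := by
    intro x hx
    rw [hW1]
    exact mem_interior_iff_mem_nhds.2 (h1.filter_mono (nhds_le_nhdsSet hx))
  have hW1χ : ∀ x ∈ W1, ∀ᶠ y in 𝓝 x, χ y = 1 := by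
    intro x hx
    rw [hW1] at hx
    exact mem_interior_iff_mem_nhds.1 hx
  have hW1L : ∀ x ∈ W1, x ∈ L := by
    intro x hx
    by_contra hxL
    have h4 := (hW1χ x hx).self_of_nhds
    rw [h2 x hxL] at h4
    exact zero_ne_one h4
  have hLcl : IsClosed L := hLc.isClosed
  have hsupp : ∀ x, x ∉ L → ∀ᶠ y in 𝓝 x, χ y = 0 := by
    intro x hx
    filter_upwards [hLcl.isOpen_compl.mem_nhds hx] with y hy
    exact h2 y hy
  -- derivative bound of the cutoff
  obtain ⟨D, hD⟩ : ∃ D : ℝ, ∀ x ∈ Metric.closedBall (0 : V) R, ‖fderiv ℝ χ x‖ ≤ D :=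
    (isCompact_closedBall _ _).exists_bound_of_continuousOn
      (hχ.continuous_fderiv (by simp)).continuousOn
  -- descent directions
  obtain ⟨e0, c0, B0, he0, hc0, hB0, hcov0⟩ := cover_dir hgc
    (isCompact_closedBall (0 : V) R) (fun _ => True) (fun x _ hx => by
      obtain ⟨v, hv⟩ := hg.desc x hx
      exact ⟨v, trivial, hv⟩)
  obtain ⟨e1, c1, B1, he1, hc1, hB1, hcov1⟩ := cover_dir hgc
    ((isCompact_closedBall (0 : V) R).inter_right hW1o.isClosed_compl) (fun v => ⟪e, v⟫ < 0)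
    (fun x hx hx0 => by
      have h4 : c < ⟪e, x⟫ := by
        by_contra h5
        push Not at h5
        refine hx.2 (hZW ?_)
        rw [hZc]
        exact ⟨hx0, h5⟩
      obtain ⟨v, hv, hv'⟩ := hfree x hx0 h4.le
      exact ⟨v, hv', hv⟩)
  -- the mollification
  obtain ⟨η, hη, hη0, hη1, hη2⟩ : ∃ η : ℝ, 0 < η ∧ η ≤ e0 ∧ η ≤ e1 ∧
      (|D| + 1) * (B1 + 1) * η < c1 := by
    refine ⟨min e0 (min e1 (c1 / (2 * ((|D| + 1) * (B1 + 1))))), by positivity,
      min_le_left _ _, (min_le_right _ _).trans (min_le_left _ _), ?_⟩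
    have h4 : min e0 (min e1 (c1 / (2 * ((|D| + 1) * (B1 + 1))))) ≤
        c1 / (2 * ((|D| + 1) * (B1 + 1))) := (min_le_right _ _).trans (min_le_right _ _)
    have h5 : 0 < (|D| + 1) * (B1 + 1) := by positivity
    calc (|D| + 1) * (B1 + 1) * min e0 (min e1 (c1 / (2 * ((|D| + 1) * (B1 + 1)))))
        ≤ (|D| + 1) * (B1 + 1) * (c1 / (2 * ((|D| + 1) * (B1 + 1)))) :=
          mul_le_mul_of_nonneg_left h4 h5.le
      _ = c1 / 2 := by field_simp
      _ < c1 := by linarith
  obtain ⟨ε2, hε2, hclose⟩ := moll_close hgc R hη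
  obtain ⟨ε, hε, hεa, hεb, hεc⟩ : ∃ ε : ℝ, 0 < ε ∧ ε ≤ ε2 ∧ ε ≤ e1 ∧ ε ≤ 1 / 2 :=
    ⟨min ε2 (min e1 (1 / 2)), by positivity, min_le_left _ _,
      (min_le_right _ _).trans (min_le_left _ _), (min_le_right _ _).trans (min_le_right _ _)⟩
  obtain ⟨M, hM⟩ := moll_exists g hgc ε hε
  have hMg : ∀ x, ‖x‖ ≤ R → |M x - g x| ≤ η := hclose M ε hεa hM
  have hMs : ∀ x, R ≤ ‖x‖ → 0 < M x * g x := by
    intro x hx
    refine moll_sign hgc hM hεc x fun y hy => hfar y ?_
    have h4 : ‖x‖ ≤ ‖x - y‖ + ‖y‖ := by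
      calc ‖x‖ = ‖(x - y) + y‖ := by congr 1; abel
        _ ≤ ‖x - y‖ + ‖y‖ := norm_add_le _ _
    rw [norm_sub_rev] at h4
    linarith
  -- the function
  obtain ⟨G, hG⟩ : ∃ G : V → ℝ, G = fun x => χ x * F x + (1 - χ x) * M x := ⟨_, rfl⟩
  have hGs : ContDiff ℝ ∞ G := by
    rw [hG]
    exact (hχ.mul hF).add ((contDiff_const.sub hχ).mul hM.smooth)
  have hGx : ∀ x, G x = χ x * g x + (1 - χ x) * M x := by
    intro x
    rw [hG]
    by_cases hx : x ∈ L
    · have := (hUg x (hLU hx)).self_of_nhds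
      show χ x * F x + (1 - χ x) * M x = _
      rw [this]
    · show χ x * F x + (1 - χ x) * M x = _
      rw [h2 x hx, zero_mul, zero_mul]
  have hGW : ∀ x ∈ W1, G =ᶠ[𝓝 x] F := by
    intro x hx
    filter_upwards [hW1χ x hx] with y hy
    rw [hG]
    show χ y * F y + (1 - χ y) * M y = F y
    rw [hy]
    ring
  have hGg : ∀ x, ‖x‖ ≤ R → |G x - g x| ≤ η := by
    intro x hx
    have h4 : G x - g x = (1 - χ x) * (M x - g x) := by
      rw [hGx]
      ring
    rw [h4, abs_mul, abs_of_nonneg (by linarith [(h3 x).2])]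
    have h5 := hMg x hx
    have h6 := (h3 x).1
    have h7 := (h3 x).2
    have h8 : (1 - χ x) * |M x - g x| ≤ 1 * |M x - g x| :=
      mul_le_mul_of_nonneg_right (by linarith) (abs_nonneg _)
    linarith
  have hGsgn : ∀ x, R ≤ ‖x‖ → 0 < G x * g x := by
    intro x hx
    have h4 := hMs x hx
    have h5 : 0 < g x * g x := by
      exact mul_self_pos.2 (hfar x (by linarith))
    have h6 : G x * g x = χ x * (g x * g x) + (1 - χ x) * (M x * g x) := by
      rw [hGx]
      ring
    rw [h6]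
    have h7 := (h3 x).1
    have h8 := (h3 x).2
    rcases h7.lt_or_eq with h9 | h9
    · have := mul_pos h9 h5
      have := mul_nonneg (sub_nonneg.2 h8) h4.le
      linarith
    · rw [← h9]
      linarith
  -- descent of `G` outside of `W1`
  have hGdir : ∀ x, ‖x‖ ≤ R → x ∉ W1 → |g x| ≤ η → ∃ v, ⟪e, v⟫ < 0 ∧ Desc1 g x v ∧
      fderiv ℝ G x v < 0 := by
    intro x hx hxW hgx
    obtain ⟨v, hv, hvB, hvd, hdrop⟩ := hcov1 x ⟨by simpa using hx, hxW⟩ (hgx.trans hη1)
    refine ⟨v, hv, hvd, ?_⟩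
    have hMd : fderiv ℝ M x v ≤ -c1 := by
      refine fderiv_le_of_drop (hM.smooth.differentiable (by simp) x) he1 fun s hs hse => ?_
      exact hM.drop x _ _ fun y hy => hdrop y (hy.trans_le hεb) s hs hse
    have hGd : fderiv ℝ G x v = χ x * fderiv ℝ F x v + (1 - χ x) * fderiv ℝ M x v +
        fderiv ℝ χ x v * (F x - M x) := by
      have a1 : HasFDerivAt χ (fderiv ℝ χ x) x := (hχ.differentiable (by simp) x).hasFDerivAt
      have a2 : HasFDerivAt F (fderiv ℝ F x) x := (hF.differentiable (by simp) x).hasFDerivAt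
      have a3 : HasFDerivAt M (fderiv ℝ M x) x :=
        (hM.smooth.differentiable (by simp) x).hasFDerivAt
      have a4 := (a1.mul a2).add (((hasFDerivAt_const (1 : ℝ) x).sub a1).mul a3)
      have a5 : G = (χ * F + ((fun _ => (1 : ℝ)) - χ) * M) := by
        rw [hG]
        rfl
      rw [← a5] at a4
      rw [a4.fderiv]
      simp
      ring
    rw [hGd]
    by_cases hxL : x ∈ L
    · have hFx := (hUg x (hLU hxL))
      have hFd : fderiv ℝ F x v ≤ -c1 := by
        have h4 : ∀ᶠ s in 𝓝 (0 : ℝ), g (x + s • v) = F (x + s • v) := by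
          have h5 : Tendsto (fun s : ℝ => x + s • v) (𝓝 0) (𝓝 x) := by
            have : Continuous fun s : ℝ => x + s • v := by fun_prop
            simpa using this.tendsto 0
          exact h5.eventually hFx
        obtain ⟨d, hd, h5⟩ := Metric.eventually_nhds_iff.1 h4
        refine fderiv_le_of_drop (hF.differentiable (by simp) x) (lt_min he1 hd)
          fun s hs hse => ?_
        have h6 := hdrop x (by simpa using he1) s hs (hse.trans_le (min_le_left _ _))
        have h7 := h5 (y := s) (by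
          rw [dist_zero_right, Real.norm_eq_abs, abs_of_pos hs]
          exact hse.trans_le (min_le_right _ _))
        rw [← h7, ← hFx.self_of_nhds]
        exact h6
      have h4 : |fderiv ℝ χ x v * (F x - M x)| ≤ (|D| + 1) * (B1 + 1) * η := by
        rw [abs_mul]
        have h5 : |fderiv ℝ χ x v| ≤ (|D| + 1) * (B1 + 1) := by
          have h6 := (fderiv ℝ χ x).le_opNorm v
          rw [Real.norm_eq_abs] at h6
          have h7 : ‖fderiv ℝ χ x‖ ≤ |D| + 1 :=
            (hD x (by simpa using hx)).trans ((le_abs_self D).trans (by linarith))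
          calc |fderiv ℝ χ x v| ≤ ‖fderiv ℝ χ x‖ * ‖v‖ := h6
            _ ≤ (|D| + 1) * (B1 + 1) :=
              mul_le_mul h7 (by linarith) (norm_nonneg _) (by positivity)
        have h8 : |F x - M x| ≤ η := by
          rw [← hFx.self_of_nhds, abs_sub_comm]
          exact hMg x hx
        exact mul_le_mul h5 h8 (abs_nonneg _) (by positivity)
      have h5 := (abs_le.1 h4).2
      have h6 := (h3 x).1
      have h7 := (h3 x).2
      have h8 : χ x * fderiv ℝ F x v ≤ χ x * -c1 := mul_le_mul_of_nonneg_left hFd h6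
      have h9 : (1 - χ x) * fderiv ℝ M x v ≤ (1 - χ x) * -c1 :=
        mul_le_mul_of_nonneg_left hMd (by linarith)
      linarith
    · have h4 : fderiv ℝ χ x = 0 := by
        have h5 : (fun y => χ y) =ᶠ[𝓝 x] fun _ => (0 : ℝ) := hsupp x hxL
        have h6 := h5.fderiv_eq (𝕜 := ℝ)
        rw [fderiv_fun_const] at h6
        simpa using h6
      rw [h4, h2 x hxL]
      simp only [zero_mul, sub_zero, one_mul, zero_add, zero_apply, add_zero]
      linarith
  refine ⟨G, hGs, ?_, ?_⟩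
  · refine Hom.lerp hgc hGs.continuous ⟨R, fun t ht x hx => ?_⟩ fun t ht x hx => ?_
    · by_contra hcon
      push Not at hcon
      have h4 := hGsgn x hcon.le
      have h5 : 0 < g x * g x := by
        exact mul_self_pos.2 (hfar x (by linarith))
      have h6 : ((1 - t) * g x + t * G x) * g x = (1 - t) * (g x * g x) + t * (G x * g x) := by
        ring
      rw [hx, zero_mul] at h6
      rcases ht.1.lt_or_eq with h7 | h7
      · have := mul_pos h7 h4
        have := mul_nonneg (sub_nonneg.2 ht.2) h5.le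
        linarith
      · rw [← h7] at h6
        linarith
    · have hxR : ‖x‖ ≤ R := by
        by_contra hcon
        push Not at hcon
        have h4 := hGsgn x hcon.le
        have h5 : 0 < g x * g x := by
          exact mul_self_pos.2 (hfar x (by linarith))
        have h6 : ((1 - t) * g x + t * G x) * g x = (1 - t) * (g x * g x) + t * (G x * g x) := by
          ring
        rw [hx, zero_mul] at h6
        rcases ht.1.lt_or_eq with h7 | h7
        · have := mul_pos h7 h4
          have := mul_nonneg (sub_nonneg.2 ht.2) h5.le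
          linarith
        · rw [← h7] at h6
          linarith
      have hgx : |g x| ≤ η := by
        have h4 : g x = -(t * (G x - g x)) := by linarith
        rw [h4, abs_neg, abs_mul, abs_of_nonneg ht.1]
        have h5 := hGg x hxR
        have h6 : t * |G x - g x| ≤ 1 * |G x - g x| :=
          mul_le_mul_of_nonneg_right ht.2 (abs_nonneg _)
        linarith
      by_cases hxW : x ∈ W1
      · obtain ⟨v, -, -, hvd, -⟩ := hcov0 x (by simpa using hxR) (hgx.trans hη0)
        refine ⟨v, hvd, hvd.congr ?_⟩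
        filter_upwards [hGW x hxW, hUg x (hLU (hW1L x hxW))] with y hy hy'
        rw [hy, hy']
      · obtain ⟨v, -, hvd, hvG⟩ := hGdir x hxR hxW hgx
        exact ⟨v, hvd, desc1_smooth (hGs.contDiffAt.of_le (by simp)) hvG⟩
  · intro x hx
    have hx0 : G x = 0 := hx.1
    have hxR : ‖x‖ ≤ R := by
      by_contra hcon
      push Not at hcon
      have h4 := hGsgn x hcon.le
      rw [hx0, zero_mul] at h4
      exact lt_irrefl _ h4
    have hinw : ∀ v, ⟪e, v⟫ < 0 → fderiv ℝ G x v < 0 → False := by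
      intro v hv hGv
      obtain ⟨-, l, hl, hgr⟩ := hx
      rw [cgLocal_grad hgr, real_inner_comm] at hGv
      nlinarith
    by_cases hxW : x ∈ W1
    · have hgF := hUg x (hLU (hW1L x hxW))
      have hgG : g =ᶠ[𝓝 x] G := by
        filter_upwards [hGW x hxW, hgF] with y hy hy'
        rw [hy, hy']
      have hgx : g x = 0 := by rw [hgG.self_of_nhds, hx0]
      refine ⟨?_, hGW x hxW, hgx⟩
      by_contra hcon
      push Not at hcon
      obtain ⟨v, hv, hv'⟩ := hfree x hgx hcon
      exact hinw v hv' (fderiv_neg_of_desc1 (hGs.differentiable (by simp) x) (hv.congr hgG))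
    · exfalso
      have hgx : |g x| ≤ η := by
        have h4 := hGg x hxR
        rwa [hx0, zero_sub, abs_neg] at h4
      obtain ⟨v, hv, -, hvG⟩ := hGdir x hxR hxW hgx
      exact hinw v hv hvG

/-- Relative smoothing, without the zeros of `g`. -/
theorem pp_baseG {F g : V → ℝ} {e : V} {c : ℝ} (hF : ContDiff ℝ ∞ F) (hg : Good g)
    (hlow : ∀ x, g x = 0 → ⟪e, x⟫ ≤ c → g =ᶠ[𝓝 x] F)
    (hfree : ∀ x, g x = 0 → c ≤ ⟪e, x⟫ → FreeAt g e x) :
    ∃ G : V → ℝ, ContDiff ℝ ∞ G ∧ Hom g G ∧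
      ∀ x, Inward G e x → ⟪e, x⟫ < c ∧ G =ᶠ[𝓝 x] F := by
  obtain ⟨G, h1, h2, h3⟩ := pp_baseG2 hF hg hlow hfree
  exact ⟨G, h1, h2, fun x hx => ⟨(h3 x hx).1, (h3 x hx).2.1⟩⟩

end Pool.Schoen
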