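import Mathlib
import Pool.Agent.H.MP_6c077c_gt.IxC.T3
import Pool.Agent.H.MP_6c077c_gt.Al.Rd1

/-! Parallel pairs: the second half of the index theorem from the topology of the two sides. -/

set_option autoImplicit false

namespace Pool.Schoen

open Filter Set Metric
open scoped Topology ContDiff RealInnerProductSpace

variable {V : Type*} [NormedAddCommGroup V] [InnerProductSpace ℝ V] [FiniteDimensional ℝ V]

/-- The part of the hypersurface above the bowl is connected; its boundary has the lifting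
property. -/
theorem upper_conn (hdim : 4 ≤ Module.finrank ℝ V) {F : V → ℝ} {e : V} {c h₀ δ a₀ : ℝ}
    (hB : Bot F e c h₀ δ a₀) (hMc : IsConnected {x | F x = 0}) :
    IsPreconnected {x | F x = 0 ∧ c + δ * qd e x ≤ ⟪e, x⟫} ∧
      LiftS {x : V | F x = 0 ∧ ⟪e, x⟫ = c + δ * qd e x} := by
  obtain ⟨Φ⟩ := sigma_homeo hB
  have hFc : Continuous F := hB.smooth.continuous
  have hlc : Continuous (lf e (-1) δ c) := lf_continuous (-1) δ c
  have hl : ∀ x, lf e (-1) δ c x = -⟪e, x⟫ + δ * qd e x + c := by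
    intro x
    unfold lf
    ring
  have he0 : e ≠ 0 := by
    intro h
    have := hB.unit
    rw [h, norm_zero] at this
    exact zero_ne_one this
  have hfin : 3 ≤ Module.finrank ℝ (ℝ ∙ e)ᗮ := by
    have h1 := Submodule.finrank_add_finrank_orthogonal (ℝ ∙ e)
    rw [finrank_span_singleton he0] at h1
    omega
  have hrank : 1 < Module.rank ℝ (ℝ ∙ e)ᗮ := by
    have h1 : (1 : ℕ) < Module.finrank ℝ (ℝ ∙ e)ᗮ := by omega
    have h2 := (Module.lt_rank_of_lt_finrank h1)
    exact_mod_cast h2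
  have hsc : IsConnected (sphere (0 : (ℝ ∙ e)ᗮ) 1) := isConnected_sphere hrank 0 zero_le_one
  have hcs : ConnectedSpace (sphere (0 : (ℝ ∙ e)ᗮ) 1) := isConnected_iff_connectedSpace.1 hsc
  have hS : {x : V | F x = 0 ∧ ⟪e, x⟫ = c + δ * qd e x} =
      range fun y : sphere (0 : (ℝ ∙ e)ᗮ) 1 => (Φ.symm y : V) := by
    ext x
    constructor
    · intro hx
      exact ⟨Φ ⟨x, hx⟩, by simp⟩
    · rintro ⟨y, rfl⟩
      exact (Φ.symm y).2
  have hSc : IsPreconnected {x : V | F x = 0 ∧ ⟪e, x⟫ = c + δ * qd e x} := by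
    rw [hS]
    exact (isConnected_range (continuous_subtype_val.comp Φ.symm.continuous)).isPreconnected
  have hSl : LiftS {x : V | F x = 0 ∧ ⟪e, x⟫ = c + δ * qd e x} :=
    LiftS.homeo (A := sphere (0 : (ℝ ∙ e)ᗮ) 1)
      (B := {x : V | F x = 0 ∧ ⟪e, x⟫ = c + δ * qd e x}) Φ.symm (liftS_sphere hfin)
  have hM1 : {x | F x = 0 ∧ c + δ * qd e x ≤ ⟪e, x⟫} =
      {x | F x = 0} ∩ {x | lf e (-1) δ c x ≤ 0} := by
    ext x
    constructor
    · rintro ⟨h1, h2⟩
      refine ⟨h1, ?_⟩
      change lf e (-1) δ c x ≤ 0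
      rw [hl]
      linarith
    · rintro ⟨h1, h2⟩
      have h2' : lf e (-1) δ c x ≤ 0 := h2
      rw [hl] at h2'
      exact ⟨h1, by linarith⟩
  have hM1c : IsClosed ({x | F x = 0} ∩ {x | lf e (-1) δ c x ≤ 0}) :=
    (isClosed_eq hFc continuous_const).inter (isClosed_le hlc continuous_const)
  have hM2c : IsClosed ({x | F x = 0} ∩ {x | 0 ≤ lf e (-1) δ c x}) :=
    (isClosed_eq hFc continuous_const).inter (isClosed_le continuous_const hlc)
  refine ⟨?_, hSl⟩
  rw [hM1]
  refine cgConn_aux (B := {x | F x = 0}) (M := {x : V | F x = 0 ∧ ⟪e, x⟫ = c + δ * qd e x})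
    (C := {x | F x = 0} ∩ {x | 0 ≤ lf e (-1) δ c x}) hMc.isPreconnected inter_subset_left
    hM1c ?_ hSc hM2c ?_ ?_
  · rintro x ⟨h1, h2⟩
    refine ⟨h1, ?_⟩
    change lf e (-1) δ c x ≤ 0
    rw [hl]
    linarith
  · intro x h1 h2
    refine ⟨h1, ?_⟩
    change 0 ≤ lf e (-1) δ c x
    by_contra h3
    exact h2 ⟨h1, (not_le.1 h3).le⟩
  · rintro x ⟨h1, h2⟩ ⟨-, h3⟩
    have h2' : 0 ≤ lf e (-1) δ c x := h2
    have h3' : lf e (-1) δ c x ≤ 0 := h3
    rw [hl] at h2' h3'
    exact ⟨h1, by linarith⟩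

/-- The frontier of a bounded convex set with interior points has the lifting property. -/
theorem liftS_frontier (hdim : 3 ≤ Module.finrank ℝ V) {K : Set V} (hc : Convex ℝ K)
    (hne : (interior K).Nonempty) (hb : Bornology.IsBounded K) : LiftS (frontier K) := by
  obtain ⟨h, -, -, h3⟩ := exists_homeomorph_image_interior_closure_frontier_eq_unitBall hc hne hb
  refine LiftS.homeo (A := sphere (0 : V) 1) ?_ (liftS_sphere hdim)
  rw [← h3]
  exact (h.image (frontier K)).symm

/-- The complement of `{F < 0}` in the bowl is connected and has the lifting property. -/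
theorem cap_top_sides (hdim : 4 ≤ Module.finrank ℝ V) {F : V → ℝ} {e : V} {c h₀ δ a₀ : ℝ}
    (hB : Bot F e c h₀ δ a₀) (hMc : IsConnected {x | F x = 0})
    (hMl : LiftS {x | 0 ≤ F x}) (a : ℝ) (ha : a₀ < a) :
    IsConnected {x | capF F e c δ a x ≤ 0} ∧ LiftS {x | capF F e c δ a x ≤ 0} := by
  obtain ⟨hUc, hSl⟩ := upper_conn hdim hB hMc
  have hFc : Continuous F := hB.smooth.continuous
  have hl1 : Continuous (lf e (-1) δ c) := lf_continuous (-1) δ c
  have hl2 : Continuous (lf e 1 1 (-a)) := lf_continuous 1 1 (-a)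
  have hlv1 : ∀ x, lf e (-1) δ c x = -⟪e, x⟫ + δ * qd e x + c := by
    intro x
    unfold lf
    ring
  have hlv2 : ∀ x, lf e 1 1 (-a) x = ⟪e, x⟫ + qd e x - a := by
    intro x
    unfold lf
    ring
  obtain ⟨K, hK⟩ : ∃ K : Set V, K = {x | lf e (-1) δ c x ≤ 0} ∩ {x | lf e 1 1 (-a) x ≤ 0} :=
    ⟨_, rfl⟩
  have hKm : ∀ x, x ∈ K ↔ lf e (-1) δ c x ≤ 0 ∧ lf e 1 1 (-a) x ≤ 0 := by
    intro x
    rw [hK]
    exact Iff.rfl
  have hKc : IsClosed K := by
    rw [hK]
    exact (isClosed_le hl1 continuous_const).inter (isClosed_le hl2 continuous_const)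
  have hKv : Convex ℝ K := by
    rw [hK]
    refine Convex.inter ?_ ?_
    · have h := (lf_convex (e := e) (-1) c hB.δ_pos.le).convex_le 0
      have h2 : {x | x ∈ (univ : Set V) ∧ lf e (-1) δ c x ≤ 0} = {x | lf e (-1) δ c x ≤ 0} := by
        ext x
        exact ⟨fun h => h.2, fun h => ⟨mem_univ _, h⟩⟩
      rwa [h2] at h
    · have h := (lf_convex (e := e) 1 (-a) (zero_le_one (α := ℝ))).convex_le 0
      have h2 : {x | x ∈ (univ : Set V) ∧ lf e 1 1 (-a) x ≤ 0} = {x | lf e 1 1 (-a) x ≤ 0} := by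
        ext x
        exact ⟨fun h => h.2, fun h => ⟨mem_univ _, h⟩⟩
      rwa [h2] at h
  have hKb : Bornology.IsBounded K := by
    refine (isBounded_closedBall (x := (0 : V)) (r := |a| + 1)).subset fun x hx => ?_
    obtain ⟨h1, h2⟩ := (hKm x).1 hx
    rw [hlv1] at h1
    rw [hlv2] at h2
    have hq := qd_nonneg e x
    have hδq : 0 ≤ δ * qd e x := mul_nonneg hB.δ_pos.le hq
    have hn := norm_sq_qd hB.unit x
    have h3 : 0 < ⟪e, x⟫ := by linarith [hB.c_pos]
    have ha0 : 0 < a := by linarith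
    have h4 : ⟪e, x⟫ ≤ a := by linarith
    have h5 : qd e x ≤ a := by linarith
    rw [mem_closedBall_zero_iff, abs_of_pos ha0]
    refine (sq_le_sq₀ (norm_nonneg _) (by linarith)).1 ?_
    rw [hn]
    nlinarith
  have hv1 : lf e (-1) δ c (a₀ • e) < 0 := by
    rw [lf_smul_unit hB.unit]
    have h1 := hB.c_lt
    have h2 := hB.h_lt
    linarith
  have hv2 : lf e 1 1 (-a) (a₀ • e) < 0 := by
    rw [lf_smul_unit hB.unit]
    linarith
  have hKint : ∀ x, lf e (-1) δ c x < 0 → lf e 1 1 (-a) x < 0 → x ∈ interior K := by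
    intro z hz1 hz2
    refine mem_interior.2 ⟨{x | lf e (-1) δ c x < 0} ∩ {x | lf e 1 1 (-a) x < 0}, ?_,
      (isOpen_lt hl1 continuous_const).inter (isOpen_lt hl2 continuous_const), hz1, hz2⟩
    rintro x ⟨h1, h2⟩
    rw [hKm]
    exact ⟨le_of_lt h1, le_of_lt h2⟩
  have hKi : (interior K).Nonempty := ⟨a₀ • e, hKint _ hv1 hv2⟩
  have hcap : {x | capF F e c δ a x ≤ 0} = {x | 0 ≤ F x} ∩ K := by
    ext x
    have h1 : capF F e c δ a x ≤ 0 ↔
        -F x ≤ 0 ∧ lf e (-1) δ c x ≤ 0 ∧ lf e 1 1 (-a) x ≤ 0 := by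
      unfold capF
      rw [max_le_iff, max_le_iff]
    constructor
    · intro h
      obtain ⟨h2, h3⟩ := h1.1 h
      exact ⟨neg_nonpos.1 h2, (hKm x).2 h3⟩
    · rintro ⟨h2, h3⟩
      exact h1.2 ⟨neg_nonpos.2 h2, (hKm x).1 h3⟩
  have hHc : IsClosed ({x | 0 ≤ F x} ∩ K) := (isClosed_le continuous_const hFc).inter hKc
  have hDc : IsClosed ({x | F x ≤ 0} ∩ K) := (isClosed_le hFc continuous_const).inter hKc
  have hUp : ∀ x, x ∈ {x | F x = 0 ∧ c + δ * qd e x ≤ ⟪e, x⟫} ↔ F x = 0 ∧ x ∈ K := by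
    intro x
    constructor
    · rintro ⟨h1, h2⟩
      refine ⟨h1, (hKm x).2 ⟨?_, ?_⟩⟩
      · rw [hlv1]
        linarith
      · rw [hlv2]
        have h3 := hB.top x h1.le
        linarith
    · rintro ⟨h1, h2⟩
      have h3 := ((hKm x).1 h2).1
      rw [hlv1] at h3
      exact ⟨h1, by linarith⟩
  rw [hcap]
  refine ⟨⟨⟨a₀ • e, ?_, ?_⟩, ?_⟩, ?_⟩
  · change 0 ≤ F (a₀ • e)
    by_contra h
    have h1 := hB.top (a₀ • e) (not_le.1 h).le
    rw [inner_smul_unit hB.unit, qd_smul_unit hB.unit] at h1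
    linarith
  · exact (hKm _).2 ⟨hv1.le, hv2.le⟩
  · refine cgConn_aux (B := K) (M := {x | F x = 0 ∧ c + δ * qd e x ≤ ⟪e, x⟫})
      (C := {x | F x ≤ 0} ∩ K) hKv.isPreconnected inter_subset_right hHc ?_ hUc hDc ?_ ?_
    · intro x hx
      obtain ⟨h1, h2⟩ := (hUp x).1 hx
      exact ⟨h1.ge, h2⟩
    · intro x h1 h2
      refine ⟨?_, h1⟩
      change F x ≤ 0
      by_contra h3
      exact h2 ⟨(not_le.1 h3).le, h1⟩
    · rintro x ⟨h1, h2⟩ ⟨h3, -⟩
      exact (hUp x).2 ⟨le_antisymm h1 h3, h2⟩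
  · -- the outer side inside and outside of `K`
    have hfr : frontier K = K ∩ closure Kᶜ := by
      rw [frontier_eq_closure_inter_closure, hKc.closure_eq]
    have hfc : IsClosed (frontier K) := isClosed_frontier
    have hcov : ∀ x : V, x ∈ K ∨ x ∈ closure Kᶜ := by
      intro x
      by_cases h : x ∈ K
      · exact Or.inl h
      · exact Or.inr (subset_closure h)
    have hS : ({x | 0 ≤ F x} ∩ frontier K) ∩ ({x | F x ≤ 0} ∩ frontier K) =
        {x : V | F x = 0 ∧ ⟪e, x⟫ = c + δ * qd e x} := by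
      ext x
      constructor
      · rintro ⟨⟨h1, h2⟩, h3, -⟩
        have h0 : F x = 0 := le_antisymm h3 h1
        refine ⟨h0, ?_⟩
        have h4 : x ∈ K := by
          rw [hfr] at h2
          exact h2.1
        have h5 := ((hKm x).1 h4).1
        have h6 : lf e 1 1 (-a) x < 0 := by
          rw [hlv2]
          have := hB.top x h3
          linarith
        rcases h5.lt_or_eq with h7 | h7
        · exact absurd (hKint x h7 h6) h2.2
        · rw [hlv1] at h7
          linarith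
      · rintro ⟨h1, h2⟩
        have h3 : x ∈ K := ((hUp x).1 ⟨h1, h2.ge⟩).2
        have h4 : x ∈ closure Kᶜ := by
          have hlim : Tendsto (fun t : ℝ => x + (-t) • e) (𝓝[>] 0) (𝓝 x) := by
            have h5 : Continuous fun t : ℝ => x + (-t) • e := by fun_prop
            have h6 := h5.tendsto 0
            simp only [neg_zero, zero_smul, add_zero] at h6
            exact h6.mono_left nhdsWithin_le_nhds
          refine mem_closure_of_tendsto hlim ?_
          filter_upwards [self_mem_nhdsWithin] with t ht hKt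
          have h5 := ((hKm _).1 hKt).1
          have h6 : ⟪e, x + (-t) • e⟫ = ⟪e, x⟫ - t := by
            rw [inner_add_right, real_inner_smul_right, real_inner_self_eq_norm_sq, hB.unit]
            ring
          have h7 : qd e (x + (-t) • e) = qd e x := by
            have h8 := norm_sq_qd hB.unit (x + (-t) • e)
            have h9 := norm_sq_qd hB.unit x
            have h10 : ‖x + (-t) • e‖ ^ 2 = ‖x‖ ^ 2 - 2 * t * ⟪e, x⟫ + t ^ 2 := by
              rw [norm_add_sq_real, real_inner_smul_right, norm_smul, hB.unit,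
                real_inner_comm x e]
              rw [mul_one, norm_neg, Real.norm_eq_abs, sq_abs]
              ring
            rw [h6] at h8
            nlinarith
          rw [hlv1, h6, h7, h2] at h5
          have ht' : 0 < t := ht
          linarith
        have h5 : x ∈ frontier K := by
          rw [hfr]
          exact ⟨h3, h4⟩
        exact ⟨⟨h1.ge, h5⟩, h1.le, h5⟩
    have hfl : LiftS (frontier K) := liftS_frontier (by omega) hKv hKi hKb
    have hAl : LiftS ({x | 0 ≤ F x} ∩ frontier K) := by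
      refine LiftS.of_union (B := {x | F x ≤ 0} ∩ frontier K)
        ((isClosed_le continuous_const hFc).inter hfc)
        ((isClosed_le hFc continuous_const).inter hfc) ?_ ?_
      · have hU : ({x | 0 ≤ F x} ∩ frontier K) ∪ ({x | F x ≤ 0} ∩ frontier K) =
            frontier K := by
          ext x
          constructor
          · rintro (h | h)
            · exact h.2
            · exact h.2
          · intro h
            rcases le_total (F x) 0 with h1 | h1
            · exact Or.inr ⟨h1, h⟩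
            · exact Or.inl ⟨h1, h⟩
        rw [hU]
        exact hfl
      · rw [hS]
        exact hSl
    refine LiftS.of_union (B := {x | 0 ≤ F x} ∩ closure Kᶜ) hHc
      ((isClosed_le continuous_const hFc).inter isClosed_closure) ?_ ?_
    · have hU : ({x | 0 ≤ F x} ∩ K) ∪ ({x | 0 ≤ F x} ∩ closure Kᶜ) = {x | 0 ≤ F x} := by
        ext x
        constructor
        · rintro (h | h)
          · exact h.1
          · exact h.1
        · intro h
          rcases hcov x with h1 | h1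
          · exact Or.inl ⟨h, h1⟩
          · exact Or.inr ⟨h, h1⟩
      rw [hU]
      exact hMl
    · have hI : ({x | 0 ≤ F x} ∩ K) ∩ ({x | 0 ≤ F x} ∩ closure Kᶜ) =
          {x | 0 ≤ F x} ∩ frontier K := by
        rw [hfr]
        ext x
        constructor
        · rintro ⟨⟨h1, h2⟩, -, h3⟩
          exact ⟨h1, h2, h3⟩
        · rintro ⟨h1, h2, h3⟩
          exact ⟨⟨h1, h2⟩, h1, h3⟩
      rw [hI]
      exact hAl

/-- The theorem for adapted constants, from the outer side. -/
theorem ix_T3S_bot (n : ℕ) (hn3 : 3 ≤ n) (hn : Module.finrank ℝ V = n + 1) {F : V → ℝ} {e : V}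
    {c h₀ δ a₀ : ℝ} (hB : Bot F e c h₀ δ a₀)
    (hMc : IsConnected {x | F x = 0}) (hMl : LiftS {x | 0 ≤ F x})
    (P₀ : Finset V) (hP₀ : ∀ x, x ∈ P₀ ↔ Inward F e x ∧ x ≠ 0)
    (hidx : ∀ x ∈ P₀, ∃ k, Idx F e x k ∧ n - 1 ≤ k) : IsBall F := by
  have h1 : a₀ < a₀ + 1 := by linarith
  obtain ⟨P, hP⟩ := cap_class n hn hB P₀ hP₀ hidx (a₀ + 1) h1
  obtain ⟨hc, hl⟩ := cap_top_sides (by omega) hB hMc hMl (a₀ + 1) h1
  have hcap := t1star (-e) (by rw [norm_neg, hB.unit]) P _ hP hc hl
  have hflat : IsBall (flatF F e c δ (a₀ + 1)) := flat_ball hB h1 h1 hcap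
  have ha0 : 0 < a₀ := hB.c_pos.trans (hB.c_lt.trans hB.h_lt)
  have hδ := hB.δ_pos
  -- the final radius
  obtain ⟨r₁, hr₁, hr₁2⟩ : ∃ r₁ : ℝ, 0 < r₁ ∧ δ * r₁ ^ 2 = a₀ + 1 := by
    refine ⟨Real.sqrt ((a₀ + 1) / δ), Real.sqrt_pos.2 (by positivity), ?_⟩
    rw [Real.sq_sqrt (by positivity)]
    field_simp
  obtain ⟨ρ, hρ, hρη, hball⟩ := tun_ball hB h1 (by linarith : a₀ + 1 < a₀ + 2) hflat
    (min 1 r₁) (by positivity)
  have hρ1 : ρ < 1 := hρη.trans_le (min_le_left _ _)
  have hρr : ρ ≤ r₁ := (hρη.trans_le (min_le_right _ _)).le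
  have hc0 := hB.c_pos
  have hw : Hom (tunF F e c δ (a₀ + 1) (a₀ + 1 - ρ) (a₀ + 2 + ρ) ρ (a₀ + 2))
      (tunF F e c δ (a₀ + 1) (a₀ + 1 - ρ) (a₀ + 2 + ρ) r₁ (a₀ + 2)) :=
    tun_widen hB (by linarith) (by linarith) (by linarith) (by linarith) hρ hρr
      (by rw [hr₁2]; linarith)
  have hlo : Hom (tunF F e c δ (a₀ + 1) (a₀ + 1 - ρ) (a₀ + 2 + ρ) r₁ (a₀ + 2))
      (tunF F e c δ (a₀ + 1) (a₀ + 1 - ρ) (a₀ + 2 + ρ) r₁ (a₀ + 1 - ρ)) :=
    tun_lower hB (by linarith) (by linarith) (by linarith) (by linarith) hr₁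
      (by rw [hr₁2]; linarith) (by rw [hr₁2]; linarith)
  have hws := wall_start (a := a₀ + 1) (a₁ := a₀ + 1 - ρ) (b₁ := a₀ + 2 + ρ) (r := r₁) hB
    (by linarith) (by linarith) hlo.good_right
  have hwl : Hom (wallF F e c δ (a₀ + 1 - ρ)) (wallF F e c δ c) :=
    wall_lower hB (by linarith)
  rw [wall_end hδ] at hwl
  have hall := hw.trans (hlo.trans (hws.trans (hwl.trans (plate_remove hB))))
  exact hall.symm.trans hball

omit [FiniteDimensional ℝ V] in
/-- Translation of a subset. -/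
private theorem T3S_translate (m : V) (p : V → Prop) :
    Nonempty ({x : V | p x} ≃ₜ {x : V | p (x + m)}) := by
  have h1 : ∀ x : {x : V | p x}, x.1 - m ∈ {x : V | p (x + m)} := by
    intro x
    show p (x.1 - m + m)
    rw [sub_add_cancel]
    exact x.2
  have h2 : ∀ x : {x : V | p (x + m)}, x.1 + m ∈ {x : V | p x} := fun x => x.2
  exact ⟨
    { toFun := fun x => ⟨x.1 - m, h1 x⟩
      invFun := fun x => ⟨x.1 + m, h2 x⟩
      left_inv := fun x => Subtype.ext (sub_add_cancel x.1 m)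
      right_inv := fun x => Subtype.ext (add_sub_cancel_right x.1 m)
      continuous_toFun := (continuous_subtype_val.sub continuous_const).subtype_mk _
      continuous_invFun := (continuous_subtype_val.add continuous_const).subtype_mk _ }⟩

/-- Second half of the index theorem, with the topology of the two sides. -/
theorem ix_T3S (n : ℕ) (hn3 : 3 ≤ n) (hn : Module.finrank ℝ V = n + 1) (F : V → ℝ)
    (hF : ContDiff ℝ ∞ F) (hb : Bornology.IsBounded {x | F x ≤ 0})
    (hreg : ∀ x, F x = 0 → gradient F x ≠ 0)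
    (hc : IsConnected {x | F x ≤ 0}) (hc' : IsConnected {x | 0 ≤ F x})
    (hl' : LiftS {x | 0 ≤ F x}) (e : V) (he : ‖e‖ = 1)
    (hidx : ∀ x, Inward F e x → ∃ k, Idx F e x k ∧ (k = 0 ∨ n - 1 ≤ k)) : IsBall F := by
  classical
  have hMc : IsConnected {x | F x = 0} := TopE.zero ⟨hc, hc', Or.inr hl'⟩ hF.continuous
  obtain ⟨m, hmI, hmP, hmin, hother⟩ := ix_one_min n hn3 hn F hF hb hreg hMc e he hidx
  obtain ⟨hg, hI, hPo, hId⟩ := translate_facts F e m
  have hfin := ix_finite F hF hb hreg e he (fun x hx => by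
    obtain ⟨k, hk, _⟩ := hidx x hx
    exact ⟨k, hk⟩)
  have hF' : ContDiff ℝ ∞ fun x => F (x + m) := hF.comp (contDiff_id.add contDiff_const)
  have hb' : Bornology.IsBounded {x | F (x + m) ≤ 0} := by
    obtain ⟨R, hR⟩ := hb.subset_closedBall (0 : V)
    refine (isBounded_closedBall (x := (0 : V)) (r := R + ‖m‖)).subset fun x hx => ?_
    have h1 : x + m ∈ closedBall (0 : V) R := hR hx
    rw [mem_closedBall_zero_iff] at h1 ⊢
    calc ‖x‖ = ‖(x + m) - m‖ := by rw [add_sub_cancel_right]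
      _ ≤ ‖x + m‖ + ‖m‖ := norm_sub_le _ _
      _ ≤ R + ‖m‖ := by linarith
  have hreg' : ∀ x, F (x + m) = 0 → gradient (fun y => F (y + m)) x ≠ 0 := by
    intro x hx
    rw [hg x]
    exact hreg _ hx
  obtain ⟨c, h₀, δ, a₀, hB⟩ := bot_exists (fun x => F (x + m)) hF' hb' hreg' e he
    ((hI 0).2 (by rw [zero_add]; exact hmI)) ((hPo 0).2 (by rw [zero_add]; exact hmP)) (by
      intro x hx hx0
      have h1 := hmin (x + m) hx (by simpa using hx0)
      rw [inner_add_left] at h1
      rw [real_inner_comm]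
      linarith)
  have himg : {x | F (x + m) = 0} = (fun x => x - m) '' {x | F x = 0} := by
    ext x
    constructor
    · intro hx
      exact ⟨x + m, hx, add_sub_cancel_right x m⟩
    · rintro ⟨y, hy, rfl⟩
      show F (y - m + m) = 0
      rw [sub_add_cancel]
      exact hy
  have hMc' : IsConnected {x | F (x + m) = 0} := by
    rw [himg]
    exact hMc.image _ (by fun_prop)
  have hMl' : LiftS {x | 0 ≤ F (x + m)} := by
    obtain ⟨Φ⟩ := T3S_translate m fun x => 0 ≤ F x
    exact LiftS.homeo (A := {x | 0 ≤ F x}) Φ hl'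
  have hball : IsBall fun x => F (x + m) := by
    refine ix_T3S_bot n hn3 hn hB hMc' hMl'
      ((hfin.toFinset.image fun x => x - m).erase 0) ?_ ?_
    · intro x
      rw [Finset.mem_erase, Finset.mem_image, hI x]
      constructor
      · rintro ⟨h0, y, hy, rfl⟩
        have hy' : Inward F e y := by simpa using hy
        exact ⟨by simpa using hy', h0⟩
      · rintro ⟨h1, h2⟩
        exact ⟨h2, x + m, by simpa using h1, by simp⟩
    · intro x hx
      rw [Finset.mem_erase, Finset.mem_image] at hx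
      obtain ⟨h0, y, hy, rfl⟩ := hx
      have hy' : Inward F e y := by simpa using hy
      obtain ⟨k, hk, hk'⟩ := hother y hy' (fun h => h0 (by rw [h, sub_self]))
      exact ⟨k, (hId _ _).2 (by simpa using hk), hk'⟩
  exact (hom_translate F hF hb hreg m).trans hball

end Pool.Schoen
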