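import Pool.Agent.H.MP_6c077c_gt.PP.Ind
import Pool.Agent.H.MP_6c077c_gt.PP.BaseG
import Pool.Agent.H.MP_6c077c_gt.PP.T3S
import Pool.Agent.H.MP_6c077c_gt.F2.BaseN
import Pool.Agent.H.MP_6c077c_gt.F2.StartK
import Pool.Agent.H.MP_6c077c_gt.Al.SCutC

/-! Parallel pairs: the level form. -/

set_option autoImplicit false

namespace Pool.Schoen

open Filter Set
open scoped Topology RealInnerProductSpace ContDiff

variable {V : Type*} [NormedAddCommGroup V] [InnerProductSpace ℝ V] [FiniteDimensional ℝ V]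

/-- **Parallel pairs, level form.** If above a level which is not the height of a point with normal
`-e` all points with normal `-e` have index at most one, and below it index zero or at least
`n - 1`, then the body is a ball. -/
theorem pp_ball (n : ℕ) (hn3 : 3 ≤ n) (hn : Module.finrank ℝ V = n + 1) {F : V → ℝ}
    (hF : ContDiff ℝ ∞ F) (hb : Bornology.IsBounded {x | F x ≤ 0})
    (hreg : ∀ x, F x = 0 → gradient F x ≠ 0)
    (hMc : IsConnected {x | F x = 0}) (hMl : LiftS {x | F x = 0}) {e : V} (he : ‖e‖ = 1) {c : ℝ}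
    (hlev : ∀ x, Inward F e x → ⟪e, x⟫ ≠ c)
    (hup : ∀ x, Inward F e x → c < ⟪e, x⟫ → ∃ k ≤ 1, Idx F e x k)
    (hdn : ∀ x, Inward F e x → ⟪e, x⟫ < c → ∃ k, Idx F e x k ∧ (k = 0 ∨ n - 1 ≤ k)) :
    IsBall F := by
  classical
  have hdim : 3 ≤ Module.finrank ℝ V := by omega
  obtain ⟨hc1, hc2⟩ := sides_conn hF.continuous hMc
  obtain ⟨hl1, hl2⟩ := BaseN_liftS hF.continuous hMl
  have hs : PSides F := ⟨hc1, hl1, hc2, hl2⟩
  have hbz : Bornology.IsBounded {x | F x = 0} := hb.subset fun x hx => le_of_eq hx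
  have hnd : ∀ x, Inward F e x → ∃ k, Idx F e x k := by
    intro x hx
    rcases lt_or_gt_of_ne (hlev x hx) with h | h
    · obtain ⟨k, hk, -⟩ := hdn x hx h
      exact ⟨k, hk⟩
    · obtain ⟨k, -, hk⟩ := hup x hx h
      exact ⟨k, hk⟩
  have hfin : {x | Inward F e x}.Finite := inward_finite hF hbz hreg he hnd
  have hgood : Good F := by
    refine good_of_regular hF hbz fun x hx h0 => ?_
    apply hreg x hx
    rw [gradient, h0, map_zero]
  have hR : RClass F e c (hfin.toFinset.filter fun x => c < ⟪e, x⟫) := by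
    refine ⟨hb, hgood, fun p hp => ?_, fun p hp => (Finset.mem_filter.1 hp).2,
      fun x hx hxc hxP => ?_⟩
    · rw [Finset.mem_filter, Set.Finite.mem_toFinset] at hp
      obtain ⟨k, hk, hi⟩ := hup p hp.1 hp.2
      exact inw_of_idx F hF e p hp.1 k hk hi
    · refine free_of_not_inward F hF e he x hx (hreg x hx) fun hI => hxP ?_
      rw [Finset.mem_filter, Set.Finite.mem_toFinset]
      exact ⟨hI, lt_of_le_of_ne hxc (Ne.symm (hlev x hI))⟩
  refine pp_ind hdim he (F := F) ?_ hR (PartLow.rfl' F e c) hs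
  intro g hgR hgp hgs
  obtain ⟨G, hG, hgG, hGi⟩ := pp_baseG (e := e) (c := c) hF hgR.good
    (fun x h1 h2 => (hgp x h2).2 h1) (fun x h1 h2 => hgR.free x h1 h2 (Finset.notMem_empty x))
  have hGs := hgs.hom hdim hgG
  have hGb : Bornology.IsBounded {x | G x ≤ 0} := hgG.bdd hgR.bdd
  have hGreg : ∀ x, G x = 0 → gradient G x ≠ 0 := by
    intro x hx h0
    refine hgG.good_right.regular hG x hx ?_
    rwa [gradient, LinearIsometryEquiv.map_eq_zero_iff] at h0
  refine hgG.trans (ix_T3S n hn3 hn G hG hGb hGreg hGs.conn hGs.out hGs.olift e he ?_)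
  intro x hx
  obtain ⟨h1, h2⟩ := hGi x hx
  obtain ⟨k, hk, hk'⟩ := hdn x (hx.congr' h2) h1
  exact ⟨k, hk.congr' h2.symm, hk'⟩

end Pool.Schoen
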