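import Pool.Agent.H.MP_6c077c_gt.F2.Defs

/-! Parallel pairs: definition. -/

set_option autoImplicit false

namespace Pool.Schoen

open Filter Set
open scoped Topology RealInnerProductSpace ContDiff

variable {V : Type*} [NormedAddCommGroup V] [InnerProductSpace ℝ V] [FiniteDimensional ℝ V]

/-- There is no reversed parallel pair in the direction `e`: of two points with outer normal `e`, a
limit point of the set of points with exactly one negative (and two positive) principal curvatures
is strictly lower, in the direction `e`, than a limit point of the set of points with at least two
negative principal curvatures. -/
def NoPar (F : V → ℝ) (e : V) : Prop :=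
  ∀ x ∈ closure (M21 fun z => -F z), ∀ y ∈ closure (M2 F),
    nrm F x = e → nrm F y = e → ⟪e, x⟫ < ⟪e, y⟫

end Pool.Schoen
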