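import Pool.Agent.H.MP_6c077c_gt.PP.Ball
import Pool.Agent.H.MP_6c077c_gt.F2.Face21
import Pool.Agent.H.MP_6c077c_gt.PP.Defs

/-! Parallel pairs: from the level form to the form with an open set of directions. -/

set_option autoImplicit false

namespace Pool.Schoen

open Filter Set
open scoped Topology RealInnerProductSpace ContDiff

variable {V : Type*} [NormedAddCommGroup V] [InnerProductSpace ℝ V] [FiniteDimensional ℝ V]

/-- **Parallel pairs, one direction.** All points with normal `-e` are nondegenerate, and those of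
index one are above those of index at least two. -/
theorem pp_dir (hV : Module.finrank ℝ V = 4) {F : V → ℝ} (hF : ContDiff ℝ ∞ F)
    (hb : Bornology.IsBounded {x | F x ≤ 0}) (hreg : ∀ x, F x = 0 → gradient F x ≠ 0)
    (hMc : IsConnected {x | F x = 0}) (hMl : LiftS {x | F x = 0}) {e : V} (he : ‖e‖ = 1)
    (hnd : ∀ x, Inward F e x → ∃ k, Idx F e x k)
    (h : ∀ x y, Inward F e x → Inward F e y → Idx F e x 1 → ∀ k, 2 ≤ k → Idx F e y k →
      ⟪e, y⟫ < ⟪e, x⟫) : IsBall F := by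
  have hbz : Bornology.IsBounded {x | F x = 0} := hb.subset fun x hx => le_of_eq hx
  have hf1 : {x | Inward F e x}.Finite := inward_finite hF hbz hreg he hnd
  set hgt : V → ℝ := fun x => ⟪e, x⟫ with hhgt
  obtain ⟨a, b, c, h1, h2, hAa, hBb, hSab⟩ := facing_level
    (A := hgt '' {x | Inward F e x ∧ ∃ k, 2 ≤ k ∧ Idx F e x k})
    (B := hgt '' {x | Inward F e x ∧ Idx F e x 1})
    (S := hgt '' {x | Inward F e x})
    ((hf1.subset fun x hx => hx.1).image _) ((hf1.subset fun x hx => hx.1).image _)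
    (hf1.image _) (by
      rintro _ ⟨y, ⟨hy, k, hk, hyk⟩, rfl⟩ _ ⟨x, ⟨hx, hx1⟩, rfl⟩
      exact h x y hx hy hx1 k hk hyk)
  refine pp_ball 3 le_rfl hV hF hb hreg hMc hMl he (c := c) (fun x hx hxc => ?_)
    (fun x hx hxc => ?_) (fun x hx hxc => ?_)
  · refine hSab (hgt x) ⟨x, hx, rfl⟩ ?_
    simp only [hhgt]
    rw [hxc]
    exact ⟨h1.le, h2.le⟩
  · obtain ⟨k, hk⟩ := hnd x hx
    refine ⟨k, ?_, hk⟩
    by_contra hk1
    push Not at hk1
    have h3 : hgt x < a := hAa (hgt x) ⟨x, ⟨hx, k, hk1, hk⟩, rfl⟩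
    have h4 : c < hgt x := hxc
    linarith
  · obtain ⟨k, hk⟩ := hnd x hx
    refine ⟨k, hk, ?_⟩
    by_contra hk1
    push Not at hk1
    have h5 : k = 1 := by omega
    subst h5
    have h3 : b < hgt x := hBb (hgt x) ⟨x, ⟨hx, hk⟩, rfl⟩
    have h4 : hgt x < c := hxc
    linarith

/-- A horizontal point of index one in dimension four is in `M21 (-F)`. -/
theorem m21_neg_of_idx (hV : Module.finrank ℝ V = 4) {F : V → ℝ} {e : V} (he : ‖e‖ = 1) {x : V}
    (hx : Crit F e x) (h : Idx F e x 1) : x ∈ M21 fun z => -F z := by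
  obtain ⟨N, P, hS, hN⟩ := h
  have hP : Module.finrank ℝ P = 2 := by
    have := hS.finrank he
    omega
  have h1 : ∀ y, fderiv ℝ (fun z => -F z) y = -fderiv ℝ F y := fun y => fderiv_fun_neg
  have h2 : fderiv ℝ (fderiv ℝ fun z => -F z) x = -fderiv ℝ (fderiv ℝ F) x := by
    have : (fderiv ℝ fun z => -F z) = fun y => -fderiv ℝ F y := funext h1
    rw [this, fderiv_fun_neg]
  have hF0 : -F x = 0 := by rw [hx.1, neg_zero]
  refine ⟨hF0, ⟨P, hP, fun u hu hu0 => ?_⟩, ?_⟩
  · rw [h1, h2]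
    have h3 := hx.2 u (hS.hP u hu)
    have h4 := hS.pos u hu hu0
    refine ⟨?_, ?_⟩
    · rw [neg_apply, h3, neg_zero]
    · rw [neg_apply, neg_apply]
      linarith
  · have hne : N ≠ ⊥ := by
      rintro rfl
      rw [finrank_bot] at hN
      exact zero_ne_one hN
    obtain ⟨b, hb, hb0⟩ := N.exists_mem_ne_zero_of_ne_bot hne
    refine ⟨b, hb0, ?_, ?_⟩
    · rw [h1, neg_apply, hx.2 b (hS.hN b hb), neg_zero]
    · rw [h2, neg_apply, neg_apply]
      have := hS.neg b hb hb0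
      linarith

omit [FiniteDimensional ℝ V] in
/-- A horizontal point of index at least two is in `M2`. -/
theorem m2_of_idx {F : V → ℝ} {e : V} {x : V} (hx : Crit F e x) {k : ℕ} (hk : 2 ≤ k)
    (h : Idx F e x k) : x ∈ M2 F := by
  obtain ⟨N, P, hS, hN⟩ := h
  have h1 : 2 ≤ Module.finrank ℝ N := by omega
  obtain ⟨f, hf⟩ := exists_linearIndependent_of_le_finrank h1
  have h2 : LinearIndependent ℝ fun i => (f i : V) := hf.map' N.subtype (Submodule.ker_subtype N)
  refine ⟨hx.1, Submodule.span ℝ (range fun i => (f i : V)), ?_, fun u hu hu0 => ?_⟩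
  · rw [finrank_span_eq_card h2, Fintype.card_fin]
  have huN : u ∈ N := by
    have h3 : Submodule.span ℝ (range fun i => (f i : V)) ≤ N := by
      rw [Submodule.span_le]
      rintro _ ⟨i, rfl⟩
      exact (f i).2
    exact h3 hu
  exact ⟨hx.2 u (hS.hN u huN), hS.neg u huN hu0⟩

/-- The condition `NoPar` holds for all pairs with a common normal near `e`. -/
theorem noPar_near (F : V → ℝ) (hF : ContDiff ℝ ∞ F) (hb : Bornology.IsBounded {x | F x = 0})
    (hreg : ∀ x, F x = 0 → gradient F x ≠ 0) {e : V} (h : NoPar F e) :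
    ∃ η : ℝ, 0 < η ∧ ∀ e' : V, ‖e' - e‖ < η → ∀ x ∈ M21 (fun z => -F z), ∀ y ∈ M2 F,
      nrm F x = e' → nrm F y = e' → ⟪e', x⟫ < ⟪e', y⟫ := by
  have : ProperSpace V := FiniteDimensional.proper ℝ V
  have hZ : IsClosed {x | F x = 0} := isClosed_eq hF.continuous continuous_const
  have hs1 : closure (M21 fun z => -F z) ⊆ {x | F x = 0} :=
    closure_minimal (fun x hx => neg_eq_zero.1 hx.1) hZ
  have hs2 : closure (M2 F) ⊆ {x | F x = 0} := closure_minimal (fun x hx => hx.1) hZ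
  have hK1 : IsCompact (closure (M21 fun z => -F z)) :=
    Metric.isCompact_of_isClosed_isBounded isClosed_closure (hb.subset hs1)
  have hK2 : IsCompact (closure (M2 F)) :=
    Metric.isCompact_of_isClosed_isBounded isClosed_closure (hb.subset hs2)
  have hn := nrm_continuousOn hF hreg
  set K : Set (V × V) := closure (M21 fun z => -F z) ×ˢ closure (M2 F) with hK
  have hKc : IsCompact K := hK1.prod hK2
  have hn1 : ContinuousOn (fun p : V × V => nrm F p.1) K :=
    hn.comp continuousOn_fst fun p hp => hs1 hp.1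
  have hn2 : ContinuousOn (fun p : V × V => nrm F p.2) K :=
    hn.comp continuousOn_snd fun p hp => hs2 hp.2
  have hB : IsCompact (K ∩ (fun p : V × V => ⟪nrm F p.1, p.1⟫ - ⟪nrm F p.1, p.2⟫) ⁻¹' Ici 0) := by
    refine IsCompact.of_isClosed_subset hKc ?_ inter_subset_left
    refine ContinuousOn.preimage_isClosed_of_isClosed ?_ hKc.isClosed isClosed_Ici
    exact (hn1.inner continuousOn_fst).sub (hn1.inner continuousOn_snd)
  have hφ : ContinuousOn (fun p : V × V => max ‖nrm F p.1 - e‖ ‖nrm F p.2 - e‖)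
      (K ∩ (fun p : V × V => ⟪nrm F p.1, p.1⟫ - ⟪nrm F p.1, p.2⟫) ⁻¹' Ici 0) :=
    (((hn1.sub continuousOn_const).norm).sup ((hn2.sub continuousOn_const).norm)).mono
      inter_subset_left
  rcases (K ∩ (fun p : V × V => ⟪nrm F p.1, p.1⟫ - ⟪nrm F p.1, p.2⟫) ⁻¹' Ici 0).eq_empty_or_nonempty
    with h0 | h0
  · refine ⟨1, one_pos, fun e' _ x hx y hy h1 h2 => ?_⟩
    by_contra hlt
    push Not at hlt
    have : (x, y) ∈ K ∩ (fun p : V × V => ⟪nrm F p.1, p.1⟫ - ⟪nrm F p.1, p.2⟫) ⁻¹' Ici 0 := by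
      refine ⟨⟨subset_closure hx, subset_closure hy⟩, ?_⟩
      show 0 ≤ ⟪nrm F x, x⟫ - ⟪nrm F x, y⟫
      rw [h1]
      linarith
    rw [h0] at this
    exact notMem_empty _ this
  · obtain ⟨p, hp, hmin⟩ := hB.exists_isMinOn h0 hφ
    refine ⟨max ‖nrm F p.1 - e‖ ‖nrm F p.2 - e‖, ?_, fun e' he' x hx y hy h1 h2 => ?_⟩
    · rw [lt_max_iff]
      by_contra hcon
      push Not at hcon
      obtain ⟨h1, h2⟩ := hcon
      have e1 : nrm F p.1 = e := sub_eq_zero.1 (norm_le_zero_iff.1 h1)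
      have e2 : nrm F p.2 = e := sub_eq_zero.1 (norm_le_zero_iff.1 h2)
      have h3 := h p.1 hp.1.1 p.2 hp.1.2 e1 e2
      have h4 : 0 ≤ ⟪nrm F p.1, p.1⟫ - ⟪nrm F p.1, p.2⟫ := hp.2
      rw [e1] at h4
      linarith
    · by_contra hlt
      push Not at hlt
      have h3 : (x, y) ∈ K ∩ (fun p : V × V => ⟪nrm F p.1, p.1⟫ - ⟪nrm F p.1, p.2⟫) ⁻¹' Ici 0 := by
        refine ⟨⟨subset_closure hx, subset_closure hy⟩, ?_⟩
        show 0 ≤ ⟪nrm F x, x⟫ - ⟪nrm F x, y⟫
        rw [h1]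
        linarith
      have h4 : max ‖nrm F p.1 - e‖ ‖nrm F p.2 - e‖ ≤ max ‖nrm F x - e‖ ‖nrm F y - e‖ := hmin h3
      rw [h1, h2, max_self] at h4
      exact absurd he' (not_lt.2 h4)

end Pool.Schoen
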