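import Pool.Agent.H.MP_6c077c_gt.PP.DefsK
import Pool.Agent.H.MP_6c077c_gt.PP.Open

/-! Parallel pairs with connectivity: from the closure form to nearby directions. -/

set_option autoImplicit false

namespace Pool.Schoen

open Filter Set Metric
open scoped Topology RealInnerProductSpace ContDiff

/-- Two points of a compact set which are not in a common connected subset are separated. -/
theorem exists_sep_of_comp {X : Type*} [TopologicalSpace X] [T2Space X] {K : Set X}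
    (hK : IsCompact K) {x y : X} (hx : x ∈ K) (hy : y ∈ K)
    (h : ∀ C, IsPreconnected C → C ⊆ K → x ∈ C → y ∉ C) :
    ∃ U U' : Set X, IsOpen U ∧ IsOpen U' ∧ Disjoint U U' ∧ K ⊆ U ∪ U' ∧ x ∈ U ∧ y ∈ U' := by
  have hKc : CompactSpace K := isCompact_iff_compactSpace.1 hK
  have h1 : (⟨y, hy⟩ : K) ∉ connectedComponent (⟨x, hx⟩ : K) := by
    intro hc
    refine h (Subtype.val '' connectedComponent (⟨x, hx⟩ : K)) ?_ ?_
      ⟨_, mem_connectedComponent, rfl⟩ ⟨_, hc, rfl⟩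
    · exact isPreconnected_connectedComponent.image _ continuous_subtype_val.continuousOn
    · rintro _ ⟨z, -, rfl⟩
      exact z.2
  rw [connectedComponent_eq_iInter_isClopen] at h1
  simp only [mem_iInter, not_forall] at h1
  obtain ⟨⟨s, hs, hxs⟩, hys⟩ := h1
  have hA : IsCompact (Subtype.val '' s : Set X) :=
    hs.isClosed.isCompact.image continuous_subtype_val
  have hB : IsCompact (Subtype.val '' sᶜ : Set X) :=
    hs.compl.isClosed.isCompact.image continuous_subtype_val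
  have hd : Disjoint (Subtype.val '' s : Set X) (Subtype.val '' sᶜ) :=
    (disjoint_image_iff Subtype.val_injective).2 disjoint_compl_right
  obtain ⟨U, U', hU, hU', h1, h2, h3⟩ := SeparatedNhds.of_isCompact_isCompact hA hB hd
  refine ⟨U, U', hU, hU', h3, fun z hz => ?_, h1 ⟨_, hxs, rfl⟩, h2 ⟨_, hys, rfl⟩⟩
  by_cases hzs : (⟨z, hz⟩ : K) ∈ s
  · exact Or.inl (h1 ⟨_, hzs, rfl⟩)
  · exact Or.inr (h2 ⟨_, hzs, rfl⟩)

variable {V : Type*} [NormedAddCommGroup V] [InnerProductSpace ℝ V] [FiniteDimensional ℝ V]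

omit [FiniteDimensional ℝ V] in
/-- The part of a compact set above a level is, for nearby directions and levels, covered by a given
open cover. -/
theorem upper_cover {A : Set V} (hA : IsCompact A) {e : V} {t : ℝ} {O : Set V} (hO : IsOpen O)
    (hAO : ∀ z ∈ A, t ≤ ⟪e, z⟫ → z ∈ O) {ν : ℕ → V} {τ : ℕ → ℝ} (hν : Tendsto ν atTop (𝓝 e))
    (hτ : Tendsto τ atTop (𝓝 t)) :
    ∀ᶠ m in atTop, ∀ z ∈ A, τ m ≤ ⟪ν m, z⟫ → z ∈ O := by
  obtain ⟨R, hR⟩ := hA.isBounded.exists_norm_le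
  have hZ : IsCompact (A ∩ Oᶜ) := hA.inter_right hO.isClosed_compl
  rcases (A ∩ Oᶜ).eq_empty_or_nonempty with h0 | h0
  · refine Eventually.of_forall fun m z hz _ => ?_
    by_contra hzO
    have : z ∈ A ∩ Oᶜ := ⟨hz, hzO⟩
    rw [h0] at this
    exact this
  · obtain ⟨p, hp, hmax⟩ := hZ.exists_isMaxOn h0
      (f := fun z : V => ⟪e, z⟫) (by fun_prop)
    have hpt : ⟪e, p⟫ < t := by
      by_contra hcon
      push Not at hcon
      exact hp.2 (hAO p hp.1 hcon)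
    have h1 : Tendsto (fun m => τ m - ‖ν m - e‖ * (|R| + 1)) atTop (𝓝 t) := by
      have h2 : Tendsto (fun m => ‖ν m - e‖) atTop (𝓝 0) := tendsto_iff_norm_sub_tendsto_zero.1 hν
      have h3 := hτ.sub (h2.mul_const (|R| + 1))
      rwa [zero_mul, sub_zero] at h3
    filter_upwards [h1.eventually (lt_mem_nhds hpt)] with m hm z hz hzt
    by_contra hzO
    have h4 : ⟪e, z⟫ ≤ ⟪e, p⟫ := hmax ⟨hz, hzO⟩
    have h5 : ⟪ν m, z⟫ - ⟪e, z⟫ ≤ ‖ν m - e‖ * (|R| + 1) := by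
      rw [← inner_sub_left]
      refine (real_inner_le_norm _ _).trans (mul_le_mul_of_nonneg_left ?_ (norm_nonneg _))
      have := hR z hz
      have := le_abs_self R
      linarith
    linarith

/-- The condition `NoParK` holds for all pairs with a common normal near `e`. -/
theorem noParK_near (F : V → ℝ) (hF : ContDiff ℝ ∞ F) (hb : Bornology.IsBounded {x | F x ≤ 0})
    (hreg : ∀ x, F x = 0 → gradient F x ≠ 0) {e : V} (h : NoParK F e) :
    ∃ η : ℝ, 0 < η ∧ ∀ e' : V, ‖e' - e‖ < η → ∀ x ∈ M21 (fun z => -F z), ∀ y ∈ M2 F,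
      nrm F x = e' → nrm F y = e' → ⟪e', y⟫ ≤ ⟪e', x⟫ → ∀ C : Set V, IsPreconnected C →
      C ⊆ {z | F z ≤ 0 ∧ ⟪e', y⟫ ≤ ⟪e', z⟫} → x ∈ C → y ∉ C := by
  have : ProperSpace V := FiniteDimensional.proper ℝ V
  by_contra hcon
  push Not at hcon
  have hcon' : ∀ m : ℕ, ∃ e' : V, ‖e' - e‖ < 1 / ((m : ℝ) + 1) ∧ ∃ x ∈ M21 (fun z => -F z),
      ∃ y ∈ M2 F, nrm F x = e' ∧ nrm F y = e' ∧ ⟪e', y⟫ ≤ ⟪e', x⟫ ∧ ∃ C : Set V,
      IsPreconnected C ∧ C ⊆ {z | F z ≤ 0 ∧ ⟪e', y⟫ ≤ ⟪e', z⟫} ∧ x ∈ C ∧ y ∈ C :=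
    fun m => hcon _ Nat.one_div_pos_of_nat
  choose ν hν x hx y hy hnx hny hxy C hC hCs hxC hyC using hcon'
  have hZ : IsClosed {x | F x = 0} := isClosed_eq hF.continuous continuous_const
  have hs1 : closure (M21 fun z => -F z) ⊆ {x | F x = 0} :=
    closure_minimal (fun x hx => neg_eq_zero.1 hx.1) hZ
  have hs2 : closure (M2 F) ⊆ {x | F x = 0} := closure_minimal (fun x hx => hx.1) hZ
  have hbz : Bornology.IsBounded {x | F x = 0} := hb.subset fun x hx => le_of_eq hx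
  have hK1 : IsCompact (closure (M21 fun z => -F z)) :=
    isCompact_of_isClosed_isBounded isClosed_closure (hbz.subset hs1)
  have hK2 : IsCompact (closure (M2 F)) :=
    isCompact_of_isClosed_isBounded isClosed_closure (hbz.subset hs2)
  obtain ⟨⟨a, b⟩, ⟨ha, hb'⟩, φ, hφ, hlim⟩ := (hK1.prod hK2).tendsto_subseq
    (x := fun m => (x m, y m)) fun m => ⟨subset_closure (hx m), subset_closure (hy m)⟩
  have hxa : Tendsto (fun m => x (φ m)) atTop (𝓝 a) := (continuous_fst.tendsto _).comp hlim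
  have hyb : Tendsto (fun m => y (φ m)) atTop (𝓝 b) := (continuous_snd.tendsto _).comp hlim
  have hνe : Tendsto ν atTop (𝓝 e) := by
    rw [tendsto_iff_norm_sub_tendsto_zero]
    exact squeeze_zero (fun m => norm_nonneg _) (fun m => (hν m).le)
      tendsto_one_div_add_atTop_nhds_zero_nat
  have hνφ : Tendsto (fun m => ν (φ m)) atTop (𝓝 e) := hνe.comp hφ.tendsto_atTop
  have hn := nrm_continuousOn hF hreg
  have hna : nrm F a = e := by
    have h1 : Tendsto (fun m => nrm F (x (φ m))) atTop (𝓝 (nrm F a)) :=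
      (hn a (hs1 ha)).tendsto.comp (tendsto_nhdsWithin_iff.2
        ⟨hxa, Eventually.of_forall fun m => neg_eq_zero.1 (hx (φ m)).1⟩)
    refine tendsto_nhds_unique h1 ?_
    simpa only [hnx] using hνφ
  have hnb : nrm F b = e := by
    have h1 : Tendsto (fun m => nrm F (y (φ m))) atTop (𝓝 (nrm F b)) :=
      (hn b (hs2 hb')).tendsto.comp (tendsto_nhdsWithin_iff.2
        ⟨hyb, Eventually.of_forall fun m => (hy (φ m)).1⟩)
    refine tendsto_nhds_unique h1 ?_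
    simpa only [hny] using hνφ
  have hta : Tendsto (fun m => ⟪ν (φ m), x (φ m)⟫) atTop (𝓝 ⟪e, a⟫) := hνφ.inner hxa
  have htb : Tendsto (fun m => ⟪ν (φ m), y (φ m)⟫) atTop (𝓝 ⟪e, b⟫) := hνφ.inner hyb
  have hab : ⟪e, b⟫ ≤ ⟪e, a⟫ := le_of_tendsto_of_tendsto' htb hta fun m => hxy (φ m)
  have hA : IsCompact {z | F z ≤ 0} :=
    isCompact_of_isClosed_isBounded (isClosed_le hF.continuous continuous_const) hb
  have hcl : IsClosed {z : V | ⟪e, b⟫ ≤ ⟪e, z⟫} :=
    isClosed_le continuous_const (continuous_const.inner continuous_id)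
  have hK : IsCompact {z | F z ≤ 0 ∧ ⟪e, b⟫ ≤ ⟪e, z⟫} := hA.inter_right hcl
  obtain ⟨U, U', hU, hU', hd, hcov, haU, hbU⟩ := exists_sep_of_comp hK
    (x := a) (y := b) ⟨(hs1 ha).le, hab⟩ ⟨(hs2 hb').le, le_rfl⟩ (h a ha b hb' hna hnb hab)
  have h1 := upper_cover hA (hU.union hU') (fun z hz hzt => hcov ⟨hz, hzt⟩) hνφ htb
  have h2 : ∀ᶠ m in atTop, x (φ m) ∈ U := hxa.eventually (hU.mem_nhds haU)
  have h3 : ∀ᶠ m in atTop, y (φ m) ∈ U' := hyb.eventually (hU'.mem_nhds hbU)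
  obtain ⟨m, hm1, hm2, hm3⟩ := (h1.and (h2.and h3)).exists
  obtain ⟨z, -, hzU, hzU'⟩ := hC (φ m) U U' hU hU'
    (fun z hz => hm1 z (hCs (φ m) hz).1 (hCs (φ m) hz).2) ⟨_, hxC (φ m), hm2⟩
    ⟨_, hyC (φ m), hm3⟩
  exact Set.disjoint_left.1 hd hzU hzU'

/-- The direction for `pp_ballC` from the closure form with connectivity. -/
theorem pp_levelK (hV : Module.finrank ℝ V = 4) {F : V → ℝ} (hF : ContDiff ℝ ∞ F)
    (hb : Bornology.IsBounded {x | F x ≤ 0}) (hreg : ∀ x, F x = 0 → gradient F x ≠ 0) {e : V}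
    (he : ‖e‖ = 1) (h : NoParK F e) :
    ∃ E : V, ‖E‖ = 1 ∧ (∀ x, Inward F E x → ∃ k, Idx F E x k) ∧
      ∀ x y, Inward F E x → Inward F E y → Idx F E x 1 → (∃ k, 2 ≤ k ∧ Idx F E y k) →
        ⟪E, x⟫ ≤ ⟪E, y⟫ → ∀ C : Set V, IsPreconnected C →
        C ⊆ {z | F z ≤ 0 ∧ ⟪E, z⟫ ≤ ⟪E, y⟫} → x ∈ C → y ∉ C := by
  have hbz : Bornology.IsBounded {x | F x = 0} := hb.subset fun x hx => le_of_eq hx
  obtain ⟨η, hη, hη'⟩ := noParK_near F hF hb hreg h
  have : ProperSpace V := FiniteDimensional.proper ℝ V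
  have hK : IsCompact {x | F x = 0} :=
    isCompact_of_isClosed_isBounded (isClosed_eq hF.continuous continuous_const) hbz
  obtain ⟨v, hv, hve, hvK⟩ := exists_regular_near 3 hV F hF hreg hK e he η hη
  have hne : ‖-v‖ = 1 := by rwa [norm_neg]
  have hnv : ∀ x, Inward F (-v) x → nrm F x = v := by
    intro x hx
    rw [plane_nrm_of_inward hne hx, neg_neg]
  have hcr := crit_iff hne hreg
  refine ⟨-v, hne, fun x hx => ?_, ?_⟩
  · exact ⟨_, idx_of_gaussK 3 hV F hF (-v) hne x hx (hvK x hx.1 (hnv x hx))⟩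
  · rintro x y hx hy hx1 ⟨k, hk, hyk⟩ hxy C hC hCs
    refine hη' v hve x (m21_neg_of_idx hV hne ((hcr x).2 (Or.inl hx)) hx1) y
      (m2_of_idx ((hcr y).2 (Or.inl hy)) hk hyk) (hnv x hx) (hnv y hy) ?_ C hC fun z hz => ?_
    · rw [inner_neg_left, inner_neg_left] at hxy
      linarith
    · obtain ⟨h1, h2⟩ := hCs hz
      rw [inner_neg_left, inner_neg_left] at h2
      exact ⟨h1, by linarith⟩

end Pool.Schoen
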