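import Pool.Agent.H.MP_6c077c_gt.PP.Main
import Pool.Agent.H.MP_6c077c_gt.F2.Conf3

/-! Parallel pairs, conformal form: the hyperplanes orthogonal to a unit vector are replaced by the
spheres which are tangent at a point `w` to the hyperplane orthogonal to the unit vector `a`. -/

set_option autoImplicit false

namespace Pool.Schoen

open Filter Set
open scoped Topology RealInnerProductSpace ContDiff

variable {V : Type*} [NormedAddCommGroup V] [InnerProductSpace ℝ V] [FiniteDimensional ℝ V]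

/-- The points with at least two principal curvatures less than the curvature of the sphere through
`w` which is tangent to `{F = 0}`. -/
def C2 (F : V → ℝ) (w : V) : Set V := {x | F x = 0 ∧ TwoLess F w x}

/-- There is no reversed parallel pair for the pencil of spheres tangent at `w` to the hyperplane
orthogonal to `a`. -/
def NoParC (F : V → ℝ) (w a : V) : Prop :=
  ∀ x ∈ closure (C21 (fun z => -F z) w), ∀ y ∈ closure (C2 F w), cNrm F w x = a →
    cNrm F w y = a → cHt w a x < cHt w a y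

/-- The function on the other side of the inversion, with its sign. -/
theorem conf_exists_sign {F : V → ℝ} (hF : ContDiff ℝ ∞ F)
    (hb : Bornology.IsBounded {x | F x ≤ 0}) {w : V} (hw : F w ≠ 0) :
    ∃ G : V → ℝ, ContDiff ℝ ∞ G ∧ (0 < F w → Bornology.IsBounded {x | G x ≤ 0}) ∧
      (F w < 0 → Bornology.IsBounded {x | -G x ≤ 0}) ∧
      {y | G y = 0} = inv1 w '' {x | F x = 0} ∧
      (∀ y, G y = 0 → y ≠ w ∧ F (inv1 w y) = 0 ∧ G =ᶠ[𝓝 y] fun z => F (inv1 w z)) ∧
      G w ≠ 0 ∧ ∀ y, y ≠ w → (G y ≤ 0 → F (inv1 w y) ≤ 0) ∧ (-G y ≤ 0 → -F (inv1 w y) ≤ 0) := by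
  classical
  obtain ⟨R, hR⟩ := hb.exists_norm_le
  obtain ⟨F1, hF1, hF1a, -, hF1z, hF1s, hF1g⟩ := exists_cut F hF (max R 0) (le_max_right _ _)
    (fun x hx => (hR x hx).trans (le_max_left _ _))
  have hz1 : ∀ x, F1 x = 0 ↔ F x = 0 := fun x => by
    have := congrArg (fun S : Set V => x ∈ S) hF1z
    simpa using this
  have hs1 : ∀ x, F1 x ≤ 0 ↔ F x ≤ 0 := fun x => by
    have := congrArg (fun S : Set V => x ∈ S) hF1s
    simpa using this
  have hgerm : ∀ x, F x = 0 → F1 =ᶠ[𝓝 x] F := fun x hx =>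
    hF1g x ((hR x hx.le).trans (le_max_left _ _))
  obtain ⟨G, hGdef⟩ : ∃ G : V → ℝ, G = fun y => if y = w then 1 else F1 (inv1 w y) := ⟨_, rfl⟩
  have hGne : ∀ y, y ≠ w → G y = F1 (inv1 w y) := fun y hy => by
    rw [hGdef]
    exact if_neg hy
  have hGw : G w = 1 := by
    rw [hGdef]
    exact if_pos rfl
  have hGnear : ∀ y, y ≠ w → G =ᶠ[𝓝 y] fun z => F1 (inv1 w z) := fun y hy => by
    filter_upwards [isOpen_ne.mem_nhds hy] with z hz
    exact hGne z hz
  have hGz : ∀ y, G y = 0 ↔ F (inv1 w y) = 0 := by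
    intro y
    by_cases hy : y = w
    · subst hy
      rw [hGw, inv1_self]
      exact iff_of_false one_ne_zero hw
    · rw [hGne y hy, hz1]
  have hzw : ∀ y, G y = 0 → y ≠ w := by
    rintro y hy rfl
    rw [hGw] at hy
    exact one_ne_zero hy
  -- the bound
  have hbd : ∀ c : ℝ, 0 < c → ∀ y, y ≠ w → (inv1 w y ∉ Metric.ball w c) → ‖y‖ ≤ ‖w‖ + c⁻¹ := by
    intro c hc y hyw hy
    have hu : 0 < ‖y - w‖ := norm_pos_iff.2 (sub_ne_zero.2 hyw)
    have h2 : c ≤ ‖inv1 w y - w‖ := by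
      rw [Metric.mem_ball, dist_eq_norm, not_lt] at hy
      exact hy
    have h3 : ‖inv1 w y - w‖ = ‖y - w‖⁻¹ := by
      rw [inv1_sub, norm_smul, norm_inv, norm_pow, norm_norm]
      field_simp
    rw [h3, le_inv_comm₀ hc hu] at h2
    have h4 := norm_add_le (y - w) w
    rw [sub_add_cancel] at h4
    linarith
  refine ⟨G, ?_, ?_, ?_, ?_, ?_, by rw [hGw]; exact one_ne_zero, ?_⟩
  · rw [contDiff_iff_contDiffAt]
    intro y
    by_cases hy : y = w
    · subst hy
      have h1 : G =ᶠ[𝓝 y] fun _ => (1 : ℝ) := by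
        have hpos : 0 < (max R 0 + 2 + ‖y‖)⁻¹ := by
          have : 0 ≤ max R 0 := le_max_right _ _
          positivity
        filter_upwards [Metric.ball_mem_nhds y hpos] with z hz
        by_cases hzy : z = y
        · rw [hzy, hGw]
        · rw [hGne z hzy]
          refine hF1a _ ?_
          rw [Metric.mem_ball, dist_eq_norm] at hz
          have hu : 0 < ‖z - y‖ := norm_pos_iff.2 (sub_ne_zero.2 hzy)
          have h2 : ‖inv1 y z - y‖ = ‖z - y‖⁻¹ := by
            rw [inv1_sub, norm_smul, norm_inv, norm_pow, norm_norm]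
            field_simp
          have h3 : max R 0 + 2 + ‖y‖ < ‖z - y‖⁻¹ := by
            have h0 : 0 ≤ max R 0 := le_max_right _ _
            rw [lt_inv_comm₀ (by positivity) hu]
            exact hz
          have h4 := norm_sub_le (inv1 y z) y
          linarith
      exact contDiffAt_const.congr_of_eventuallyEq h1
    · exact (ContDiffAt.comp (g := F1) y hF1.contDiffAt (inv1_contDiffAt hy)).congr_of_eventuallyEq
        (hGnear y hy)
  · intro hpos
    have h1 : 0 < F1 w := by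
      by_contra h
      exact absurd ((hs1 w).1 (not_lt.1 h)) (not_le.2 hpos)
    obtain ⟨c, hc, hball⟩ := Metric.isOpen_iff.1 (isOpen_lt continuous_const hF1.continuous) w h1
    refine isBounded_iff_forall_norm_le.2 ⟨‖w‖ + c⁻¹, fun y hy => ?_⟩
    have hy : G y ≤ 0 := hy
    have hyw : y ≠ w := by
      rintro rfl
      rw [hGw] at hy
      linarith
    refine hbd c hc y hyw fun h4 => ?_
    have h5 : 0 < F1 (inv1 w y) := hball h4
    rw [← hGne y hyw] at h5
    linarith
  · intro hneg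
    have h1 : F1 w < 0 := lt_of_le_of_ne ((hs1 w).2 hneg.le) fun h => hneg.ne ((hz1 w).1 h)
    obtain ⟨c, hc, hball⟩ := Metric.isOpen_iff.1 (isOpen_lt hF1.continuous continuous_const) w h1
    refine isBounded_iff_forall_norm_le.2 ⟨‖w‖ + c⁻¹, fun y hy => ?_⟩
    have hy : -G y ≤ 0 := hy
    by_cases hyw : y = w
    · rw [hyw]
      have : 0 < c⁻¹ := inv_pos.2 hc
      linarith
    refine hbd c hc y hyw fun h4 => ?_
    have h5 : F1 (inv1 w y) < 0 := hball h4
    rw [← hGne y hyw] at h5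
    linarith
  · ext y
    constructor
    · intro hy
      exact ⟨inv1 w y, (hGz y).1 hy, inv1_inv1 w y⟩
    · rintro ⟨x, hx, rfl⟩
      show G (inv1 w x) = 0
      rw [hGz, inv1_inv1]
      exact hx
  · intro y hy
    refine ⟨hzw y hy, (hGz y).1 hy, ?_⟩
    have h1 : ContinuousAt (inv1 w) y := (inv1_contDiffAt (hzw y hy)).continuousAt
    have h2 := h1.eventually (hgerm _ ((hGz y).1 hy))
    filter_upwards [hGnear y (hzw y hy), h2] with z hz1 hz2
    rw [hz1]
    exact hz2
  · intro y hy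
    rw [hGne y hy]
    refine ⟨(hs1 _).1, fun h => ?_⟩
    by_contra hcon
    push Not at hcon
    have h3 : F (inv1 w y) < 0 := by linarith
    have h4 : F1 (inv1 w y) ≤ 0 := (hs1 _).2 h3.le
    have h5 : F1 (inv1 w y) = 0 := by linarith
    exact h3.ne ((hz1 _).1 h5)

/-- The condition for the pencil of spheres becomes the one for parallel hyperplanes. -/
theorem noPar_of_conf {F G : V → ℝ} (hF : ContDiff ℝ ∞ F) (hG : ContDiff ℝ ∞ G) {w : V}
    (hz : ∀ y, G y = 0 → y ≠ w ∧ F (inv1 w y) = 0 ∧ G =ᶠ[𝓝 y] fun z => F (inv1 w z)) {a : V}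
    (h : NoParC F w a) : NoPar G a := by
  have hcl1 : ∀ y ∈ closure (M21 fun z => -G z), G y = 0 := fun y hy =>
    closure_minimal (fun x hx => neg_eq_zero.1 hx.1) (isClosed_eq hG.continuous continuous_const) hy
  have hcl2 : ∀ y ∈ closure (M2 G), G y = 0 := fun y hy =>
    closure_minimal (fun x hx => hx.1) (isClosed_eq hG.continuous continuous_const) hy
  have hmem1 : ∀ y ∈ closure (M21 fun z => -G z), inv1 w y ∈ closure (C21 (fun z => -F z) w) := by
    intro y hy
    have h1 := (hz y (hcl1 y hy)).1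
    have h2 : ContinuousWithinAt (inv1 w) (M21 fun z => -G z) y :=
      (inv1_contDiffAt h1).continuousAt.continuousWithinAt
    refine closure_mono ?_ (h2.mem_closure_image hy)
    rintro _ ⟨z, ⟨hz1, hz2, hz3⟩, rfl⟩
    obtain ⟨e1, e2, e3⟩ := hz z (neg_eq_zero.1 hz1)
    have e4 : (fun z => -G z) =ᶠ[𝓝 z] fun y => (fun x => -F x) (inv1 w y) := by
      filter_upwards [e3] with u hu
      rw [hu]
    exact ⟨neg_eq_zero.2 e2, twoLess_of_twoNeg hF.neg hG.neg e1 e4 hz2,
      oneMore_of_onePos hF.neg hG.neg e1 e4 hz3⟩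
  have hmem2 : ∀ y ∈ closure (M2 G), inv1 w y ∈ closure (C2 F w) := by
    intro y hy
    have h1 := (hz y (hcl2 y hy)).1
    have h2 : ContinuousWithinAt (inv1 w) (M2 G) y :=
      (inv1_contDiffAt h1).continuousAt.continuousWithinAt
    refine closure_mono ?_ (h2.mem_closure_image hy)
    rintro _ ⟨z, ⟨hz1, hz2⟩, rfl⟩
    obtain ⟨e1, e2, e3⟩ := hz z hz1
    exact ⟨e2, twoLess_of_twoNeg hF hG e1 e3 hz2⟩
  have hht : ∀ y, y ≠ w → ⟪a, y⟫ = ⟪a, w⟫ + cHt w a (inv1 w y) := by
    intro y hy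
    have h0 : y - w ≠ 0 := sub_ne_zero.2 hy
    have h1 : ‖y - w‖ ^ 2 ≠ 0 := pow_ne_zero 2 (norm_ne_zero_iff.2 h0)
    have h2 : ⟪a, y⟫ = ⟪a, w⟫ + ⟪a, y - w⟫ := by
      rw [inner_sub_right]
      ring
    rw [h2, cHt, inv1_norm, inv1_sub, real_inner_smul_right]
    field_simp
  intro x hx y hy hnx hny
  obtain ⟨e1, e2, e3⟩ := hz x (hcl1 x hx)
  obtain ⟨f1, f2, f3⟩ := hz y (hcl2 y hy)
  rw [hht x e1, hht y f1]
  have := h _ (hmem1 x hx) _ (hmem2 y hy) (by rw [← conf_nrm hF hG e1 e3, hnx])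
    (by rw [← conf_nrm hF hG f1 f3, hny])
  linarith

/-- **Parallel pairs, conformal form**: the body is a ball. -/
theorem pp_conf_isBall (hV : Module.finrank ℝ V = 4) (F : V → ℝ) (hF : ContDiff ℝ ∞ F)
    (hb : Bornology.IsBounded {x | F x ≤ 0}) (hreg : ∀ x, F x = 0 → gradient F x ≠ 0)
    (hMc : IsConnected {x | F x = 0}) (hMl : LiftS {x | F x = 0}) (w a : V) (ha : ‖a‖ = 1)
    (h : (0 < F w ∧ NoParC F w a) ∨ (F w < 0 ∧ NoParC (fun x => -F x) w a)) : IsBall F := by
  have hw : F w ≠ 0 := by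
    rcases h with h | h
    · exact h.1.ne'
    · exact h.1.ne
  obtain ⟨G, hG, hGb1, hGb2, hGim, hGz, -, -⟩ := conf_exists_sign hF hb hw
  have ha0 : a ≠ 0 := by
    intro h0
    rw [h0, norm_zero] at ha
    exact zero_ne_one ha
  have hGreg : ∀ y, G y = 0 → gradient G y ≠ 0 := by
    intro y hy
    obtain ⟨h1, h2, h3⟩ := hGz y hy
    rw [conf_gradient hF hG h1 h3]
    exact invD_ne (sub_ne_zero.2 h1) (hreg _ h2)
  have hinv : ∀ x, F x = 0 → ContinuousWithinAt (inv1 w) {x | F x = 0} x := by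
    intro x hx
    refine (inv1_contDiffAt ?_).continuousAt.continuousWithinAt
    rintro rfl
    exact hw hx
  have hinvG : ∀ y, G y = 0 → ContinuousWithinAt (inv1 w) {y | G y = 0} y := fun y hy =>
    (inv1_contDiffAt (hGz y hy).1).continuousAt.continuousWithinAt
  have hGc : IsConnected {y | G y = 0} := by
    rw [hGim]
    exact hMc.image _ fun x hx => hinv x hx
  have hGl : LiftS {y | G y = 0} := by
    intro u hu hu1
    have hmaps : ∀ x ∈ {x | F x = 0}, inv1 w x ∈ {y | G y = 0} := fun x hx => by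
      rw [hGim]
      exact mem_image_of_mem _ hx
    obtain ⟨v, hv, hv1⟩ := hMl (fun x => u (inv1 w x))
      (hu.comp (fun x hx => hinv x hx) hmaps) (fun x hx => hu1 _ (hmaps x hx))
    refine ⟨fun y => v (inv1 w y), hv.comp (fun y hy => hinvG y hy)
      (fun y hy => (hGz y hy).2.1), fun y hy => ?_⟩
    have := hv1 _ (hGz y hy).2.1
    rwa [inv1_inv1] at this
  have hset : {x | -G x = 0} = {x | G x = 0} := by
    ext x
    exact neg_eq_zero (a := G x)
  have hRd : Carries {y | G y = 0} (Metric.sphere (0 : V) 1) := by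
    rcases h with ⟨hpos, h⟩ | ⟨hneg, h⟩
    · exact pp_carries hV G hG (hGb1 hpos) hGreg hGc hGl a ha (noPar_of_conf hF hG hGz h)
    · have h1 : NoPar (fun x => -G x) a := by
        refine noPar_of_conf hF.neg hG.neg (fun y hy => ?_) h
        obtain ⟨e1, e2, e3⟩ := hGz y (neg_eq_zero.1 hy)
        refine ⟨e1, neg_eq_zero.2 e2, ?_⟩
        filter_upwards [e3] with z hz
        rw [hz]
      have h2 := pp_carries hV (fun x => -G x) hG.neg (hGb2 hneg) (fun x hx h0 => by
        refine hGreg x (neg_eq_zero.1 hx) ?_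
        rw [gradient_neg_fun, neg_eq_zero] at h0
        exact h0) (by rw [hset]; exact hGc) (by rw [hset]; exact hGl) a ha h1
      rwa [hset] at h2
  rw [hGim] at hRd
  exact isBall_of_inv1 hF hb hreg ⟨a, ha0⟩ hw hRd

/-- **Parallel pairs, conformal form.** -/
theorem pp_conf_carries (hV : Module.finrank ℝ V = 4) (F : V → ℝ) (hF : ContDiff ℝ ∞ F)
    (hb : Bornology.IsBounded {x | F x ≤ 0}) (hreg : ∀ x, F x = 0 → gradient F x ≠ 0)
    (hMc : IsConnected {x | F x = 0}) (hMl : LiftS {x | F x = 0}) (w a : V) (ha : ‖a‖ = 1)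
    (h : (0 < F w ∧ NoParC F w a) ∨ (F w < 0 ∧ NoParC (fun x => -F x) w a)) :
    Carries {x : V | F x = 0} (Metric.sphere (0 : V) 1) :=
  carries_of_isBall F hF (pp_conf_isBall hV F hF hb hreg hMc hMl w a ha h)

end Pool.Schoen
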