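import Pool.Agent.H.MP_6c077c_gt.PP.ComLim
import Pool.Agent.H.MP_6c077c_gt.PP.BallC
import Pool.Agent.H.MP_6c077c_gt.F2.FinalC

/-! Parallel pairs with connectivity: the theorem. -/

set_option autoImplicit false

namespace Pool.Schoen

open Filter Set
open scoped Topology RealInnerProductSpace ContDiff

variable {V : Type*} [NormedAddCommGroup V] [InnerProductSpace ℝ V] [FiniteDimensional ℝ V]

/-- Parallel pairs with connectivity: the body is a ball. -/
theorem ppK_isBall (hV : Module.finrank ℝ V = 4) {F : V → ℝ} (hF : ContDiff ℝ ∞ F)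
    (hb : Bornology.IsBounded {x | F x ≤ 0}) (hreg : ∀ x, F x = 0 → gradient F x ≠ 0)
    (hMc : IsConnected {x | F x = 0}) (hMl : LiftS {x | F x = 0}) {e : V} (he : ‖e‖ = 1)
    (h : NoParK F e) : IsBall F := by
  obtain ⟨E, hE, hnd, hbad⟩ := pp_levelK hV hF hb hreg he h
  refine pp_ballC 3 le_rfl hV hF hb hreg hMc hMl hE (fun x hx => ?_) hbad
  obtain ⟨k, hk⟩ := hnd x hx
  exact ⟨k, hk, by omega⟩

/-- **Parallel pairs with connectivity.** -/
theorem ppK_carries (hV : Module.finrank ℝ V = 4) (F : V → ℝ) (hF : ContDiff ℝ ∞ F)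
    (hb : Bornology.IsBounded {x | F x ≤ 0}) (hreg : ∀ x, F x = 0 → gradient F x ≠ 0)
    (hMc : IsConnected {x | F x = 0}) (hMl : LiftS {x | F x = 0}) (e : V) (he : ‖e‖ = 1)
    (h : NoParK F e) : Carries {x : V | F x = 0} (Metric.sphere (0 : V) 1) := by
  have hnt : Nontrivial V := Module.nontrivial_of_finrank_pos (R := ℝ) (by omega)
  exact carries_of_isBall F hF (ppK_isBall hV hF hb hreg hMc hMl he h)

end Pool.Schoen
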