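import Pool.Agent.H.MP_6c077c_gt.PP.Conf
import Pool.Agent.H.MP_6c077c_gt.PP.MainK

/-! Parallel pairs with connectivity, conformal form. -/

set_option autoImplicit false

namespace Pool.Schoen

open Filter Set
open scoped Topology RealInnerProductSpace ContDiff

variable {V : Type*} [NormedAddCommGroup V] [InnerProductSpace ℝ V] [FiniteDimensional ℝ V]

/-- There is no reversed parallel pair, in one component, for the pencil of spheres tangent at `w`
to the hyperplane orthogonal to `a`. -/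
def NoParKC (F : V → ℝ) (w a : V) : Prop :=
  ∀ x ∈ closure (C21 (fun z => -F z) w), ∀ y ∈ closure (C2 F w), cNrm F w x = a →
    cNrm F w y = a → cHt w a y ≤ cHt w a x → ∀ C : Set V, IsPreconnected C →
      C ⊆ {z | F z ≤ 0 ∧ cHt w a y ≤ cHt w a z} → x ∈ C → y ∉ C

omit [InnerProductSpace ℝ V] [FiniteDimensional ℝ V] in
/-- Removing a point from a connected set, after adding a neighbourhood of it. -/
theorem glue_preconn {C N : Set V} {p : V} (hC : IsPreconnected C) (hp : p ∈ C)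
    (hN : IsPreconnected (N \ {p})) {U : Set V} (hU : IsOpen U) (hpU : p ∈ U)
    (hCU : C ∩ U ⊆ N) : IsPreconnected ((C ∪ N) \ {p}) := by
  rw [isPreconnected_iff_subset_of_disjoint]
  have key : ∀ U1 U2 : Set V, IsOpen U1 → IsOpen U2 → (C ∪ N) \ {p} ⊆ U1 ∪ U2 →
      (C ∪ N) \ {p} ∩ (U1 ∩ U2) = ∅ → N \ {p} ⊆ U1 → (C ∪ N) \ {p} ⊆ U1 := by
    intro U1 U2 hU1 hU2 hcov hd hN1
    have h1 := isPreconnected_iff_subset_of_disjoint.1 hC (U1 ∪ U) (U2 \ {p}) (hU1.union hU)
      (hU2.sdiff isClosed_singleton) (by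
        intro x hx
        by_cases hxp : x = p
        · rw [hxp]
          exact Or.inl (Or.inr hpU)
        · rcases hcov ⟨Or.inl hx, hxp⟩ with h | h
          · exact Or.inl (Or.inl h)
          · exact Or.inr ⟨h, hxp⟩) (by
        rw [eq_empty_iff_forall_notMem]
        rintro x ⟨hx, hx1, hx2, hxp⟩
        have hx3 : x ∈ U1 := by
          rcases hx1 with h | h
          · exact h
          · exact hN1 ⟨hCU ⟨hx, h⟩, hxp⟩
        have : x ∈ (C ∪ N) \ {p} ∩ (U1 ∩ U2) := ⟨⟨Or.inl hx, hxp⟩, hx3, hx2⟩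
        rw [hd] at this
        exact this)
    rcases h1 with h1 | h1
    · rintro x ⟨hx, hxp⟩
      rcases hx with hx | hx
      · rcases h1 hx with h | h
        · exact h
        · exact hN1 ⟨hCU ⟨hx, h⟩, hxp⟩
      · exact hN1 ⟨hx, hxp⟩
    · exact absurd rfl (h1 hp).2
  intro U1 U2 hU1 hU2 hcov hd
  have h1 := isPreconnected_iff_subset_of_disjoint.1 hN U1 U2 hU1 hU2
    (fun x hx => hcov ⟨Or.inr hx.1, hx.2⟩) (by
      rw [eq_empty_iff_forall_notMem]
      rintro x ⟨hx, hx2⟩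
      have : x ∈ (C ∪ N) \ {p} ∩ (U1 ∩ U2) := ⟨⟨Or.inr hx.1, hx.2⟩, hx2⟩
      rw [hd] at this
      exact this)
  rcases h1 with h1 | h1
  · exact Or.inl (key U1 U2 hU1 hU2 hcov hd h1)
  · refine Or.inr (key U2 U1 hU2 hU1 (by rw [union_comm U2 U1]; exact hcov) ?_ h1)
    rw [inter_comm U2 U1]
    exact hd

omit [FiniteDimensional ℝ V] in
/-- A ball without its center. -/
theorem ball_diff_preconn (hrank : 1 < Module.rank ℝ V) (w : V) {r : ℝ} (hr : 0 < r) :
    IsPreconnected (Metric.ball w r \ {w}) := by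
  have h1 : Metric.ball w r \ {w} = (fun u : V => w + (r / (1 + ‖u‖)) • u) '' {(0 : V)}ᶜ := by
    ext z
    constructor
    · rintro ⟨hz, hzw⟩
      rw [Metric.mem_ball, dist_eq_norm] at hz
      have h2 : 0 < r - ‖z - w‖ := by linarith
      have h3 : z - w ≠ 0 := sub_ne_zero.2 hzw
      refine ⟨(r - ‖z - w‖)⁻¹ • (z - w), ?_, ?_⟩
      · simp only [mem_compl_iff, mem_singleton_iff, smul_eq_zero, inv_eq_zero, not_or]
        exact ⟨h2.ne', h3⟩
      · show w + (r / (1 + ‖(r - ‖z - w‖)⁻¹ • (z - w)‖)) • (r - ‖z - w‖)⁻¹ • (z - w) = z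
        rw [norm_smul, norm_inv, Real.norm_of_nonneg h2.le, smul_smul]
        have h4 : r / (1 + (r - ‖z - w‖)⁻¹ * ‖z - w‖) * (r - ‖z - w‖)⁻¹ = 1 := by
          have h5 : 1 + (r - ‖z - w‖)⁻¹ * ‖z - w‖ = r * (r - ‖z - w‖)⁻¹ := by
            field_simp
            ring
          rw [h5]
          field_simp
        rw [h4, one_smul]
        abel
    · rintro ⟨u, hu, rfl⟩
      have hu0 : 0 < ‖u‖ := norm_pos_iff.2 hu
      refine ⟨?_, ?_⟩
      · rw [Metric.mem_ball, dist_eq_norm, add_sub_cancel_left, norm_smul,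
          Real.norm_of_nonneg (by positivity), div_mul_eq_mul_div, div_lt_iff₀ (by positivity)]
        nlinarith
      · intro h
        have h2 : (r / (1 + ‖u‖)) • u = 0 := by
          have h3 : w + (r / (1 + ‖u‖)) • u = w := h
          simpa using h3
        rw [smul_eq_zero] at h2
        rcases h2 with h2 | h2
        · have : 0 < r / (1 + ‖u‖) := by positivity
          exact this.ne' h2
        · exact hu h2
  rw [h1]
  refine (isConnected_compl_singleton_of_one_lt_rank hrank (0 : V)).isPreconnected.image _ ?_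
  refine Continuous.continuousOn ?_
  refine continuous_const.add ((continuous_const.div (continuous_const.add continuous_norm)
    fun u => ?_).smul continuous_id)
  show 1 + ‖u‖ ≠ 0
  positivity

omit [FiniteDimensional ℝ V] in
/-- A half ball without its center. -/
theorem half_ball_preconn (a w : V) (ha : a ≠ 0) (r : ℝ) :
    IsPreconnected ((Metric.ball w r ∩ {z | ⟪a, w⟫ ≤ ⟪a, z⟫}) \ {w}) := by
  have h1 : Convex ℝ (Metric.ball w r ∩ {z | ⟪a, w⟫ < ⟪a, z⟫}) := by
    refine (convex_ball w r).inter ?_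
    have h2 : {z : V | ⟪a, w⟫ < ⟪a, z⟫} = (innerSL ℝ a) ⁻¹' Ioi ⟪a, w⟫ := by
      ext z
      simp
    rw [h2]
    exact (convex_Ioi _).linear_preimage (innerSL ℝ a).toLinearMap
  refine h1.isPreconnected.subset_closure ?_ ?_
  · rintro z ⟨hz1, hz2⟩
    have hz2' : ⟪a, w⟫ < ⟪a, z⟫ := hz2
    refine ⟨⟨hz1, hz2'.le⟩, ?_⟩
    rintro rfl
    exact lt_irrefl _ hz2'
  · rintro z ⟨⟨hz1, hz2⟩, -⟩
    have hz2' : ⟪a, w⟫ ≤ ⟪a, z⟫ := hz2
    have ha2 : 0 < ⟪a, a⟫ := real_inner_self_pos.2 ha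
    have hlim : Tendsto (fun t : ℝ => z + t • a) (𝓝[>] 0) (𝓝 z) := by
      have h3 : Continuous fun t : ℝ => z + t • a := by fun_prop
      have h4 := h3.tendsto 0
      rw [zero_smul, add_zero] at h4
      exact h4.mono_left nhdsWithin_le_nhds
    refine mem_closure_of_tendsto hlim ?_
    filter_upwards [hlim.eventually (Metric.isOpen_ball.mem_nhds hz1), self_mem_nhdsWithin]
      with t ht1 ht2
    refine ⟨ht1, ?_⟩
    show ⟪a, w⟫ < ⟪a, z + t • a⟫
    rw [inner_add_right, inner_smul_right]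
    have : 0 < t * ⟪a, a⟫ := mul_pos ht2 ha2
    linarith

omit [FiniteDimensional ℝ V] in
theorem cHt_inv1 {w a y : V} (hy : y ≠ w) : ⟪a, y⟫ = ⟪a, w⟫ + cHt w a (inv1 w y) := by
  have h0 : y - w ≠ 0 := sub_ne_zero.2 hy
  have h1 : ‖y - w‖ ^ 2 ≠ 0 := pow_ne_zero 2 (norm_ne_zero_iff.2 h0)
  have h2 : ⟪a, y⟫ = ⟪a, w⟫ + ⟪a, y - w⟫ := by
    rw [inner_sub_right]
    ring
  rw [h2, cHt, inv1_norm, inv1_sub, real_inner_smul_right]
  field_simp

/-- The condition with connectivity for the pencil of spheres becomes the one for parallel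
hyperplanes. -/
theorem noParK_of_conf (hdim : 2 ≤ Module.finrank ℝ V) {F G : V → ℝ} (hF : ContDiff ℝ ∞ F)
    (hG : ContDiff ℝ ∞ G) {w : V}
    (hz : ∀ y, G y = 0 → y ≠ w ∧ F (inv1 w y) = 0 ∧ G =ᶠ[𝓝 y] fun z => F (inv1 w z))
    (hGw : G w ≠ 0) (hs : ∀ y, y ≠ w → G y ≤ 0 → F (inv1 w y) ≤ 0) {a : V} (ha : ‖a‖ = 1)
    (h : NoParKC F w a) : NoParK G a := by
  have hrank : 1 < Module.rank ℝ V := by
    have h1 := Module.lt_rank_of_lt_finrank (R := ℝ) (M := V) (n := 1) (by omega)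
    exact_mod_cast h1
  have ha0 : a ≠ 0 := by
    intro h0
    rw [h0, norm_zero] at ha
    exact zero_ne_one ha
  have hcl1 : ∀ y ∈ closure (M21 fun z => -G z), G y = 0 := fun y hy =>
    closure_minimal (fun x hx => neg_eq_zero.1 hx.1) (isClosed_eq hG.continuous continuous_const) hy
  have hcl2 : ∀ y ∈ closure (M2 G), G y = 0 := fun y hy =>
    closure_minimal (fun x hx => hx.1) (isClosed_eq hG.continuous continuous_const) hy
  have hmem1 : ∀ y ∈ closure (M21 fun z => -G z), inv1 w y ∈ closure (C21 (fun z => -F z) w) := by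
    intro y hy
    have h1 := (hz y (hcl1 y hy)).1
    have h2 : ContinuousWithinAt (inv1 w) (M21 fun z => -G z) y :=
      (inv1_contDiffAt h1).continuousAt.continuousWithinAt
    refine closure_mono ?_ (h2.mem_closure_image hy)
    rintro _ ⟨z, ⟨hz1, hz2, hz3⟩, rfl⟩
    obtain ⟨e1, e2, e3⟩ := hz z (neg_eq_zero.1 hz1)
    have e4 : (fun z => -G z) =ᶠ[𝓝 z] fun y => (fun x => -F x) (inv1 w y) := by
      filter_upwards [e3] with u hu
      rw [hu]
    exact ⟨neg_eq_zero.2 e2, twoLess_of_twoNeg hF.neg hG.neg e1 e4 hz2,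
      oneMore_of_onePos hF.neg hG.neg e1 e4 hz3⟩
  have hmem2 : ∀ y ∈ closure (M2 G), inv1 w y ∈ closure (C2 F w) := by
    intro y hy
    have h1 := (hz y (hcl2 y hy)).1
    have h2 : ContinuousWithinAt (inv1 w) (M2 G) y :=
      (inv1_contDiffAt h1).continuousAt.continuousWithinAt
    refine closure_mono ?_ (h2.mem_closure_image hy)
    rintro _ ⟨z, ⟨hz1, hz2⟩, rfl⟩
    obtain ⟨e1, e2, e3⟩ := hz z hz1
    exact ⟨e2, twoLess_of_twoNeg hF hG e1 e3 hz2⟩
  intro x hx y hy hnx hny hxy C hC hCs hxC hyC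
  obtain ⟨e1, e2, e3⟩ := hz x (hcl1 x hx)
  obtain ⟨f1, f2, f3⟩ := hz y (hcl2 y hy)
  -- a connected set which avoids `w`
  obtain ⟨D, hD, hDs, hxD, hyD, hDw⟩ : ∃ D : Set V, IsPreconnected D ∧
      D ⊆ {z | G z ≤ 0 ∧ ⟪a, y⟫ ≤ ⟪a, z⟫} ∧ x ∈ D ∧ y ∈ D ∧ w ∉ D := by
    by_cases hwC : w ∈ C
    · obtain ⟨hw1, hw2⟩ := hCs hwC
      have hw3 : G w < 0 := lt_of_le_of_ne hw1 hGw
      obtain ⟨r0, hr0, hball⟩ := Metric.isOpen_iff.1 (isOpen_lt hG.continuous continuous_const) w hw3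
      obtain ⟨r, hr, hrN, hrP⟩ : ∃ r : ℝ, 0 < r ∧ r ≤ r0 ∧
          IsPreconnected ((Metric.ball w r ∩ {z | ⟪a, y⟫ ≤ ⟪a, z⟫}) \ {w}) := by
        rcases hw2.lt_or_eq with h1 | h1
        · refine ⟨min r0 (⟪a, w⟫ - ⟪a, y⟫), lt_min hr0 (by linarith), min_le_left _ _, ?_⟩
          have h2 : Metric.ball w (min r0 (⟪a, w⟫ - ⟪a, y⟫)) ∩ {z | ⟪a, y⟫ ≤ ⟪a, z⟫} =
              Metric.ball w (min r0 (⟪a, w⟫ - ⟪a, y⟫)) := by
            refine inter_eq_left.2 fun z hz => ?_
            rw [Metric.mem_ball, dist_eq_norm] at hz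
            have h3 := abs_real_inner_le_norm a (z - w)
            rw [ha, one_mul, inner_sub_right] at h3
            have h4 := (abs_le.1 h3).1
            have h5 := hz.trans_le (min_le_right _ _)
            show ⟪a, y⟫ ≤ ⟪a, z⟫
            linarith
          rw [h2]
          exact ball_diff_preconn hrank w (lt_min hr0 (by linarith))
        · refine ⟨r0, hr0, le_rfl, ?_⟩
          rw [h1]
          exact half_ball_preconn a w ha0 r0
      refine ⟨(C ∪ (Metric.ball w r ∩ {z | ⟪a, y⟫ ≤ ⟪a, z⟫})) \ {w},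
        glue_preconn hC hwC hrP Metric.isOpen_ball (Metric.mem_ball_self hr)
          (fun z hz => ⟨hz.2, (hCs hz.1).2⟩), ?_, ⟨Or.inl hxC, e1⟩, ⟨Or.inl hyC, f1⟩,
        fun h => h.2 rfl⟩
      rintro z ⟨hz | hz, -⟩
      · exact hCs hz
      · have h1 : G z < 0 := hball (Metric.ball_subset_ball hrN hz.1)
        exact ⟨h1.le, hz.2⟩
    · exact ⟨C, hC, hCs, hxC, hyC, hwC⟩
  have hDw' : ∀ z ∈ D, z ≠ w := fun z hz h0 => hDw (h0 ▸ hz)
  rw [cHt_inv1 e1, cHt_inv1 f1] at hxy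
  refine h _ (hmem1 x hx) _ (hmem2 y hy) (by rw [← conf_nrm hF hG e1 e3, hnx])
    (by rw [← conf_nrm hF hG f1 f3, hny]) (by linarith) (inv1 w '' D)
    (hD.image _ fun z hz => (inv1_contDiffAt (hDw' z hz)).continuousAt.continuousWithinAt) ?_
    (mem_image_of_mem _ hxD) (mem_image_of_mem _ hyD)
  rintro _ ⟨z, hz', rfl⟩
  obtain ⟨h1, h2⟩ := hDs hz'
  refine ⟨hs z (hDw' z hz') h1, ?_⟩
  rw [cHt_inv1 f1, cHt_inv1 (hDw' z hz')] at h2
  linarith

/-- Transport of the planar theorem to pencils of spheres. -/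
theorem pp_confK_of (hV : Module.finrank ℝ V = 4)
    (planar : ∀ (G : V → ℝ) (e : V), ContDiff ℝ ∞ G → Bornology.IsBounded {x | G x ≤ 0} →
      (∀ x, G x = 0 → gradient G x ≠ 0) → IsConnected {x | G x = 0} → LiftS {x | G x = 0} →
      ‖e‖ = 1 → NoParK G e → Carries {x : V | G x = 0} (Metric.sphere (0 : V) 1))
    (F : V → ℝ) (hF : ContDiff ℝ ∞ F)
    (hb : Bornology.IsBounded {x | F x ≤ 0}) (hreg : ∀ x, F x = 0 → gradient F x ≠ 0)
    (hMc : IsConnected {x | F x = 0}) (hMl : LiftS {x | F x = 0}) (w a : V) (ha : ‖a‖ = 1)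
    (h : (0 < F w ∧ NoParKC F w a) ∨ (F w < 0 ∧ NoParKC (fun x => -F x) w a)) : IsBall F := by
  have hw : F w ≠ 0 := by
    rcases h with h | h
    · exact h.1.ne'
    · exact h.1.ne
  obtain ⟨G, hG, hGb1, hGb2, hGim, hGz, hGw, hGs⟩ := conf_exists_sign hF hb hw
  have ha0 : a ≠ 0 := by
    intro h0
    rw [h0, norm_zero] at ha
    exact zero_ne_one ha
  have hGreg : ∀ y, G y = 0 → gradient G y ≠ 0 := by
    intro y hy
    obtain ⟨h1, h2, h3⟩ := hGz y hy
    rw [conf_gradient hF hG h1 h3]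
    exact invD_ne (sub_ne_zero.2 h1) (hreg _ h2)
  have hinv : ∀ x, F x = 0 → ContinuousWithinAt (inv1 w) {x | F x = 0} x := by
    intro x hx
    refine (inv1_contDiffAt ?_).continuousAt.continuousWithinAt
    rintro rfl
    exact hw hx
  have hinvG : ∀ y, G y = 0 → ContinuousWithinAt (inv1 w) {y | G y = 0} y := fun y hy =>
    (inv1_contDiffAt (hGz y hy).1).continuousAt.continuousWithinAt
  have hGc : IsConnected {y | G y = 0} := by
    rw [hGim]
    exact hMc.image _ fun x hx => hinv x hx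
  have hGl : LiftS {y | G y = 0} := by
    intro u hu hu1
    have hmaps : ∀ x ∈ {x | F x = 0}, inv1 w x ∈ {y | G y = 0} := fun x hx => by
      rw [hGim]
      exact mem_image_of_mem _ hx
    obtain ⟨v, hv, hv1⟩ := hMl (fun x => u (inv1 w x))
      (hu.comp (fun x hx => hinv x hx) hmaps) (fun x hx => hu1 _ (hmaps x hx))
    refine ⟨fun y => v (inv1 w y), hv.comp (fun y hy => hinvG y hy)
      (fun y hy => (hGz y hy).2.1), fun y hy => ?_⟩
    have := hv1 _ (hGz y hy).2.1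
    rwa [inv1_inv1] at this
  have hset : {x | -G x = 0} = {x | G x = 0} := by
    ext x
    exact neg_eq_zero (a := G x)
  have hRd : Carries {y | G y = 0} (Metric.sphere (0 : V) 1) := by
    rcases h with ⟨hpos, h⟩ | ⟨hneg, h⟩
    · exact planar G a hG (hGb1 hpos) hGreg hGc hGl ha
        (noParK_of_conf (by omega) hF hG hGz hGw (fun y hy => (hGs y hy).1) ha h)
    · have h1 : NoParK (fun x => -G x) a := by
        refine noParK_of_conf (by omega) hF.neg hG.neg (fun y hy => ?_) (neg_ne_zero.2 hGw)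
          (fun y hy => (hGs y hy).2) ha h
        obtain ⟨e1, e2, e3⟩ := hGz y (neg_eq_zero.1 hy)
        refine ⟨e1, neg_eq_zero.2 e2, ?_⟩
        filter_upwards [e3] with z hz
        rw [hz]
      have h2 := planar (fun x => -G x) a hG.neg (hGb2 hneg) (fun x hx h0 => by
        refine hGreg x (neg_eq_zero.1 hx) ?_
        rw [gradient_neg_fun, neg_eq_zero] at h0
        exact h0) (by rw [hset]; exact hGc) (by rw [hset]; exact hGl) ha h1
      rwa [hset] at h2
  rw [hGim] at hRd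
  exact isBall_of_inv1 hF hb hreg ⟨a, ha0⟩ hw hRd

/-- **Parallel pairs with connectivity, conformal form.** -/
theorem pp_confK_isBall (hV : Module.finrank ℝ V = 4) (F : V → ℝ) (hF : ContDiff ℝ ∞ F)
    (hb : Bornology.IsBounded {x | F x ≤ 0}) (hreg : ∀ x, F x = 0 → gradient F x ≠ 0)
    (hMc : IsConnected {x | F x = 0}) (hMl : LiftS {x | F x = 0}) (w a : V) (ha : ‖a‖ = 1)
    (h : (0 < F w ∧ NoParKC F w a) ∨ (F w < 0 ∧ NoParKC (fun x => -F x) w a)) : IsBall F :=
  pp_confK_of hV (fun G e h1 h2 h3 h4 h5 h6 h7 => ppK_carries hV G h1 h2 h3 h4 h5 e h6 h7)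
    F hF hb hreg hMc hMl w a ha h

/-- **Parallel pairs with connectivity, conformal form.** -/
theorem pp_confK_carries (hV : Module.finrank ℝ V = 4) (F : V → ℝ) (hF : ContDiff ℝ ∞ F)
    (hb : Bornology.IsBounded {x | F x ≤ 0}) (hreg : ∀ x, F x = 0 → gradient F x ≠ 0)
    (hMc : IsConnected {x | F x = 0}) (hMl : LiftS {x | F x = 0}) (w a : V) (ha : ‖a‖ = 1)
    (h : (0 < F w ∧ NoParKC F w a) ∨ (F w < 0 ∧ NoParKC (fun x => -F x) w a)) :
    Carries {x : V | F x = 0} (Metric.sphere (0 : V) 1) :=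
  carries_of_isBall F hF (pp_confK_isBall hV F hF hb hreg hMc hMl w a ha h)

end Pool.Schoen
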