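import Pool.Agent.H.MP_6c077c_gt.PP.Defs

/-! Parallel pairs with connectivity: definition. -/

set_option autoImplicit false

namespace Pool.Schoen

open Filter Set
open scoped Topology RealInnerProductSpace ContDiff

variable {V : Type*} [NormedAddCommGroup V] [InnerProductSpace ℝ V] [FiniteDimensional ℝ V]

/-- There is no reversed parallel pair in the direction `e` which is connected inside the body above
its lower point: a limit point `x` of the set of points with exactly one negative (and two positive)
principal curvatures and a limit point `y` of the set of points with at least two negative principal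
curvatures, both with outer normal `e` and `y` not higher than `x` in the direction `e`, are never
in one connected subset of the part of the body which is not below `y`. -/
def NoParK (F : V → ℝ) (e : V) : Prop :=
  ∀ x ∈ closure (M21 fun z => -F z), ∀ y ∈ closure (M2 F), nrm F x = e → nrm F y = e →
    ⟪e, y⟫ ≤ ⟪e, x⟫ → ∀ C : Set V, IsPreconnected C → C ⊆ {z | F z ≤ 0 ∧ ⟪e, y⟫ ≤ ⟪e, z⟫} →
      x ∈ C → y ∉ C

theorem NoPar.noParK {F : V → ℝ} {e : V} (h : NoPar F e) : NoParK F e :=
  fun x hx y hy h1 h2 h3 => absurd (h x hx y hy h1 h2) (not_lt.2 h3)

end Pool.Schoen
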