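import Pool.Agent.H.MP_6c077c_gt.PP.Ball
import Pool.Agent.H.MP_6c077c_gt.F2.Face21

/-! Parallel pairs: the direction. -/

set_option autoImplicit false

namespace Pool.Schoen

open Filter Set Metric
open scoped Topology RealInnerProductSpace ContDiff

variable {V : Type*} [NormedAddCommGroup V] [InnerProductSpace ℝ V] [FiniteDimensional ℝ V]

/-- At least one negative principal curvature: there is a tangent vector on which the second
derivative is negative. -/
def OneNeg (F : V → ℝ) (x : V) : Prop :=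
  ∃ u : V, u ≠ 0 ∧ fderiv ℝ F x u = 0 ∧ fderiv ℝ (fderiv ℝ F) x u u < 0

/-- At least two positive principal curvatures: there is a two-dimensional space of tangent vectors
on which the second derivative is positive definite. -/
def TwoPos (F : V → ℝ) (x : V) : Prop :=
  ∃ U : Submodule ℝ V, Module.finrank ℝ U = 2 ∧
    ∀ u ∈ U, u ≠ 0 → fderiv ℝ F x u = 0 ∧ 0 < fderiv ℝ (fderiv ℝ F) x u u

/-- A space of dimension at least two contains one of dimension two. -/
theorem exists_sub_two {N : Submodule ℝ V} (h : 2 ≤ Module.finrank ℝ N) :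
    ∃ U : Submodule ℝ V, U ≤ N ∧ Module.finrank ℝ U = 2 := by
  obtain ⟨s, hs, hsi⟩ := exists_finset_linearIndependent_of_le_finrank (R := ℝ) (M := N) h
  refine ⟨(Submodule.span ℝ (s : Set N)).map N.subtype, Submodule.map_subtype_le _ _, ?_⟩
  rw [Submodule.finrank_map_subtype_eq, finrank_span_finset_eq_card hsi, hs]

/-- In dimension at most four there are no points with two negative and two positive principal
curvatures. -/
theorem not_twoNeg_twoPos (hn : Module.finrank ℝ V ≤ 4) {F : V → ℝ} {x : V}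
    (hx : gradient F x ≠ 0) (h1 : TwoNeg F x) (h2 : TwoPos F x) : False := by
  obtain ⟨N, hN, hN'⟩ := h1
  obtain ⟨P, hP, hP'⟩ := h2
  have hinf : N ⊓ P = ⊥ := by
    rw [Submodule.eq_bot_iff]
    intro w hw
    by_contra h0
    have h3 := (hN' w (Submodule.mem_inf.1 hw).1 h0).2
    have h4 := (hP' w (Submodule.mem_inf.1 hw).2 h0).2
    exact lt_asymm h3 h4
  have hker : N ⊔ P ≤ LinearMap.ker (fderiv ℝ F x : V →ₗ[ℝ] ℝ) := by
    refine sup_le (fun w hw => ?_) (fun w hw => ?_)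
    · rcases eq_or_ne w 0 with rfl | h0
      · simp
      · exact (hN' w hw h0).1
    · rcases eq_or_ne w 0 with rfl | h0
      · simp
      · exact (hP' w hw h0).1
  have hlt : LinearMap.ker (fderiv ℝ F x : V →ₗ[ℝ] ℝ) < ⊤ := by
    rw [lt_top_iff_ne_top]
    intro htop
    refine hx ?_
    have h3 : fderiv ℝ F x = 0 := by
      ext w
      have : w ∈ LinearMap.ker (fderiv ℝ F x : V →ₗ[ℝ] ℝ) := by rw [htop]; trivial
      simpa using this
    rw [gradient, h3, map_zero]
  have h5 := Submodule.finrank_sup_add_finrank_inf_eq N P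
  rw [hinf, finrank_bot, hN, hP] at h5
  have h6 := Submodule.finrank_mono hker
  have h7 := Submodule.finrank_lt hlt.ne
  omega

/-- The directions of PP. If the hypersurface has no points with normal in the open set `U` with two
negative and two positive curvatures, and there are no two points `x`, `y` with the same normal `ν`
in `U`, the first with one negative and two positive curvatures and the second with two negative
curvatures, such that `⟪ν, x⟫ ≥ ⟪ν, y⟫`, then there is a direction `e` with a level as in `pp_ball`. -/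
theorem pp_direction (n : ℕ) (hn3 : 3 ≤ n) (hn : Module.finrank ℝ V = n + 1) {F : V → ℝ}
    (hF : ContDiff ℝ ∞ F) (hb : Bornology.IsBounded {x | F x = 0})
    (hreg : ∀ x, F x = 0 → gradient F x ≠ 0) {U : Set V} (hU : IsOpen U) {u : V} (huU : u ∈ U)
    (hu : ‖u‖ = 1) (hmid : ∀ x, F x = 0 → nrm F x ∈ U → TwoNeg F x → TwoPos F x → False)
    (h : ∀ x y, F x = 0 → F y = 0 → nrm F x ∈ U → nrm F y = nrm F x → OneNeg F x → TwoPos F x →
      TwoNeg F y → ⟪nrm F x, x⟫ < ⟪nrm F x, y⟫) :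
    ∃ (e : V) (c : ℝ), ‖e‖ = 1 ∧ -e ∈ U ∧ (∀ x, Inward F e x → ⟪e, x⟫ ≠ c) ∧
      (∀ x, Inward F e x → c < ⟪e, x⟫ → ∃ k ≤ 1, Idx F e x k) ∧
      (∀ x, Inward F e x → ⟪e, x⟫ < c → ∃ k, Idx F e x k ∧ (k = 0 ∨ n - 1 ≤ k)) := by
  haveI : ProperSpace V := FiniteDimensional.proper ℝ V
  have hFz : IsCompact {x | F x = 0} :=
    isCompact_of_isClosed_isBounded (isClosed_eq hF.continuous continuous_const) hb
  obtain ⟨δ, hδ, hδU⟩ := Metric.isOpen_iff.1 hU u huU
  obtain ⟨e, he, hee, hK⟩ := exists_regular_both n hn F hF hreg hFz (-u) (by rwa [norm_neg]) δ hδ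
  have heU : -e ∈ U := by
    refine hδU ?_
    rw [mem_ball, dist_eq_norm, show -e - u = -(e - -u) by abel, norm_neg]
    exact hee
  have hnrm : ∀ x, Inward F e x → nrm F x = -e := fun x hx => plane_nrm_of_inward he hx
  have hnd : ∀ x, Inward F e x → ∃ k, Idx F e x k := fun x hx =>
    ⟨_, idx_of_gaussK n hn F hF e he x hx (hK x hx.1 (Or.inr (hnrm x hx)))⟩
  have hfin : {x | Inward F e x}.Finite := inward_finite hF hb hreg he hnd
  have htan : ∀ x, Inward F e x → ∀ w, ⟪w, e⟫ = 0 → fderiv ℝ F x w = 0 := fun x hx =>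
    ((crit_iff he hreg x).2 (Or.inl hx)).2
  have hneg : ∀ x k, Inward F e x → Idx F e x k → 2 ≤ k → TwoNeg F x := by
    rintro x k hx ⟨N, P, hS, hk⟩ h2
    obtain ⟨W, hWN, hW⟩ := exists_sub_two (hk.symm ▸ h2 : 2 ≤ Module.finrank ℝ N)
    exact ⟨W, hW, fun w hw hw0 => ⟨htan x hx w (hS.hN w (hWN hw)), hS.neg w (hWN hw) hw0⟩⟩
  have hpos : ∀ x k, Inward F e x → Idx F e x k → k + 2 ≤ n → TwoPos F x := by
    rintro x k hx ⟨N, P, hS, hk⟩ h2
    have h3 := hS.finrank he
    obtain ⟨W, hWP, hW⟩ := exists_sub_two (N := P) (by omega)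
    exact ⟨W, hW, fun w hw hw0 => ⟨htan x hx w (hS.hP w (hWP hw)), hS.pos w (hWP hw) hw0⟩⟩
  have hone : ∀ x k, Inward F e x → Idx F e x k → k ≠ 0 → OneNeg F x := by
    rintro x k hx ⟨N, P, hS, hk⟩ h0
    have hne : N ≠ ⊥ := by
      rintro rfl
      rw [finrank_bot] at hk
      exact h0 hk.symm
    obtain ⟨b, hb', hb0⟩ := N.exists_mem_ne_zero_of_ne_bot hne
    exact ⟨b, hb0, htan x hx b (hS.hN b hb'), hS.neg b hb' hb0⟩
  set hgt : V → ℝ := fun x => ⟪e, x⟫ with hhgt
  obtain ⟨a, b, c, h1, h2, hAa, hBb, hSab⟩ := facing_level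
    (A := hgt '' {x | Inward F e x ∧ ∃ k, 2 ≤ k ∧ Idx F e x k})
    (B := hgt '' {x | Inward F e x ∧ Idx F e x 1})
    (S := hgt '' {x | Inward F e x})
    ((hfin.subset fun x hx => hx.1).image _) ((hfin.subset fun x hx => hx.1).image _)
    (hfin.image _) (by
      rintro _ ⟨y, ⟨hy, k, hk2, hk⟩, rfl⟩ _ ⟨x, ⟨hx, hx1⟩, rfl⟩
      have h3 := h x y hx.1 hy.1 (by rw [hnrm x hx]; exact heU) (by rw [hnrm x hx, hnrm y hy])
        (hone x 1 hx hx1 one_ne_zero) (hpos x 1 hx hx1 (by omega)) (hneg y k hy hk hk2)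
      rw [hnrm x hx, inner_neg_left, inner_neg_left] at h3
      simp only [hhgt]
      linarith)
  refine ⟨e, c, he, heU, fun x hx hxc => ?_, fun x hx hxc => ?_, fun x hx hxc => ?_⟩
  · refine hSab (hgt x) ⟨x, hx, rfl⟩ ?_
    simp only [hhgt]
    rw [hxc]
    exact ⟨h1.le, h2.le⟩
  · obtain ⟨k, hk⟩ := hnd x hx
    refine ⟨k, ?_, hk⟩
    by_contra hcon
    have h3 := hAa (hgt x) ⟨x, ⟨hx, k, by omega, hk⟩, rfl⟩
    simp only [hhgt] at h3
    linarith
  · obtain ⟨k, hk⟩ := hnd x hx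
    refine ⟨k, hk, ?_⟩
    rcases Nat.eq_zero_or_pos k with h0 | h0
    · exact Or.inl h0
    · right
      rcases Nat.lt_or_ge 1 k with h3 | h3
      · by_contra hcon
        exact hmid x hx.1 (by rw [hnrm x hx]; exact heU) (hneg x k hx hk h3)
          (hpos x k hx hk (by omega))
      · obtain rfl : k = 1 := by omega
        have h4 := hBb (hgt x) ⟨x, ⟨hx, hk⟩, rfl⟩
        simp only [hhgt] at h4
        linarith

/-- **Parallel pairs, open-set form.** -/
theorem pp_isBallN (n : ℕ) (hn3 : 3 ≤ n) (hn : Module.finrank ℝ V = n + 1) {F : V → ℝ}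
    (hF : ContDiff ℝ ∞ F) (hb : Bornology.IsBounded {x | F x ≤ 0})
    (hreg : ∀ x, F x = 0 → gradient F x ≠ 0) (hMc : IsConnected {x | F x = 0})
    (hMl : LiftS {x | F x = 0}) {U : Set V} (hU : IsOpen U) {u : V} (huU : u ∈ U)
    (hu : ‖u‖ = 1) (hmid : ∀ x, F x = 0 → nrm F x ∈ U → TwoNeg F x → TwoPos F x → False)
    (h : ∀ x y, F x = 0 → F y = 0 → nrm F x ∈ U → nrm F y = nrm F x → OneNeg F x → TwoPos F x →
      TwoNeg F y → ⟪nrm F x, x⟫ < ⟪nrm F x, y⟫) : IsBall F := by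
  obtain ⟨e, c, he, -, h1, h2, h3⟩ := pp_direction n hn3 hn hF
    (hb.subset fun x hx => le_of_eq hx) hreg hU huU hu hmid h
  exact pp_ball n hn3 hn hF hb hreg hMc hMl he h1 h2 h3

/-- **Parallel pairs in dimension four.** -/
theorem pp_isBallU (hn : Module.finrank ℝ V = 4) {F : V → ℝ}
    (hF : ContDiff ℝ ∞ F) (hb : Bornology.IsBounded {x | F x ≤ 0})
    (hreg : ∀ x, F x = 0 → gradient F x ≠ 0) (hMc : IsConnected {x | F x = 0})
    (hMl : LiftS {x | F x = 0}) {U : Set V} (hU : IsOpen U) {u : V} (huU : u ∈ U)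
    (hu : ‖u‖ = 1)
    (h : ∀ x y, F x = 0 → F y = 0 → nrm F x ∈ U → nrm F y = nrm F x → OneNeg F x → TwoPos F x →
      TwoNeg F y → ⟪nrm F x, x⟫ < ⟪nrm F x, y⟫) : IsBall F :=
  pp_isBallN 3 le_rfl (by omega) hF hb hreg hMc hMl hU huU hu
    (fun x hx _ h1 h2 => not_twoNeg_twoPos hn.le (hreg x hx) h1 h2) h

end Pool.Schoen
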