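import Pool.Agent.H.MP_6c077c_gt.PP.Open
import Pool.Agent.H.MP_6c077c_gt.F2.FinalC

/-! Parallel pairs: the theorem. -/

set_option autoImplicit false

namespace Pool.Schoen

open Filter Set
open scoped Topology RealInnerProductSpace ContDiff

variable {V : Type*} [NormedAddCommGroup V] [InnerProductSpace ℝ V] [FiniteDimensional ℝ V]

/-- Parallel pairs: the body is a ball. -/
theorem pp_isBall (hV : Module.finrank ℝ V = 4) {F : V → ℝ} (hF : ContDiff ℝ ∞ F)
    (hb : Bornology.IsBounded {x | F x ≤ 0}) (hreg : ∀ x, F x = 0 → gradient F x ≠ 0)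
    (hMc : IsConnected {x | F x = 0}) (hMl : LiftS {x | F x = 0}) {e : V} (he : ‖e‖ = 1)
    (h : NoPar F e) : IsBall F := by
  have hbz : Bornology.IsBounded {x | F x = 0} := hb.subset fun x hx => le_of_eq hx
  obtain ⟨η, hη, hη'⟩ := noPar_near F hF hbz hreg h
  have : ProperSpace V := FiniteDimensional.proper ℝ V
  have hK : IsCompact {x | F x = 0} :=
    Metric.isCompact_of_isClosed_isBounded (isClosed_eq hF.continuous continuous_const) hbz
  obtain ⟨v, hv, hve, hvK⟩ := exists_regular_near 3 hV F hF hreg hK e he η hη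
  have hne : ‖-v‖ = 1 := by rwa [norm_neg]
  have hnv : ∀ x, Inward F (-v) x → nrm F x = v := by
    intro x hx
    rw [plane_nrm_of_inward hne hx, neg_neg]
  refine pp_dir hV hF hb hreg hMc hMl hne (fun x hx => ?_) (fun x y hx hy hx1 k hk hyk => ?_)
  · exact ⟨_, idx_of_gaussK 3 hV F hF (-v) hne x hx (hvK x hx.1 (hnv x hx))⟩
  · have hcr := crit_iff hne hreg
    have h1 := hη' v hve x (m21_neg_of_idx hV hne ((hcr x).2 (Or.inl hx)) hx1) y
      (m2_of_idx ((hcr y).2 (Or.inl hy)) hk hyk) (hnv x hx) (hnv y hy)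
    rw [inner_neg_left, inner_neg_left]
    linarith

/-- **Parallel pairs.** -/
theorem pp_carries (hV : Module.finrank ℝ V = 4) (F : V → ℝ) (hF : ContDiff ℝ ∞ F)
    (hb : Bornology.IsBounded {x | F x ≤ 0}) (hreg : ∀ x, F x = 0 → gradient F x ≠ 0)
    (hMc : IsConnected {x | F x = 0}) (hMl : LiftS {x | F x = 0}) (e : V) (he : ‖e‖ = 1)
    (h : NoPar F e) : Carries {x : V | F x = 0} (Metric.sphere (0 : V) 1) := by
  have hnt : Nontrivial V := Module.nontrivial_of_finrank_pos (R := ℝ) (by omega)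
  exact carries_of_isBall F hF (pp_isBall hV hF hb hreg hMc hMl he h)

/-- All four reversed orders of the critical points of index one and two. -/
theorem four_orders (hV : Module.finrank ℝ V = 4) (F : V → ℝ) (hF : ContDiff ℝ ∞ F)
    (hb : Bornology.IsBounded {x | F x ≤ 0}) (hreg : ∀ x, F x = 0 → gradient F x ≠ 0)
    (hMc : IsConnected {x | F x = 0}) (hMl : LiftS {x | F x = 0}) (e : V) (he : ‖e‖ = 1)
    (h : NoFace21 F e ∨ NoFace21 (fun x => -F x) e ∨ NoPar F e ∨ NoPar F (-e)) :
    Carries {x : V | F x = 0} (Metric.sphere (0 : V) 1) := by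
  rcases h with h | h | h | h
  · exact f2_carries hV F hF hb hreg hMc hMl e he (Or.inl h)
  · exact f2_carries hV F hF hb hreg hMc hMl e he (Or.inr h)
  · exact pp_carries hV F hF hb hreg hMc hMl e he h
  · exact pp_carries hV F hF hb hreg hMc hMl (-e) (by rwa [norm_neg]) h

end Pool.Schoen
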