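import Pool.Agent.H.MP_6c077c_gt.Gd.RCut
import Pool.Agent.H.MP_6c077c_gt.Al.HomTop
import Pool.Agent.H.MP_6c077c_gt.Al.Unico
import Pool.Agent.H.MP_6c077c_gt.CG.Conn
import Pool.Agent.H.MP_6c077c_gt.IxB.LiftBall

/-! Parallel pairs: the outer sides of the pieces of the cut. -/

set_option autoImplicit false

namespace Pool.Schoen

open Filter Set
open scoped Topology RealInnerProductSpace ContDiff

variable {V : Type*} [NormedAddCommGroup V] [InnerProductSpace ℝ V] [FiniteDimensional ℝ V]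

omit [FiniteDimensional ℝ V] in
/-- The outer side of a piece: topology. -/
theorem out_piece {K O A C S W W' : Set V} (hO : IsClosed O) (hKO : K ∪ O = univ)
    (hA : IsClosed A) (hC : IsClosed C) (hS : IsClosed S) (hd : Disjoint A C)
    (hU : (A ∪ C) ∪ S = K) (hW : A ∩ S = W) (hW' : C ∩ S = W') (hWl : LiftS W)
    (hW'0 : W'.Nonempty) (hKc : IsPreconnected K) (hOc : IsConnected O) (hKl : LiftS K)
    (hOl : LiftS O) (hSc : IsPreconnected S) (hCc : IsPreconnected C)
    (hrim : IsPreconnected (O ∩ W)) (hrim0 : (O ∩ W).Nonempty) :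
    IsConnected (O ∪ (S ∪ C)) ∧ LiftS (O ∪ (S ∪ C)) := by
  have hK : IsClosed K := hU ▸ (hA.union hC).union hS
  have hX : IsClosed (S ∪ C) := hS.union hC
  have hXK : S ∪ C ⊆ K := by
    rw [← hU]
    rintro x (h | h)
    · exact Or.inr h
    · exact Or.inl (Or.inr h)
  have hWX : W ⊆ S ∪ C := by
    rw [← hW]
    exact fun x hx => Or.inl hx.2
  have hM : IsPreconnected (K ∩ O) := alu_unicoherent (liftS_univ V) hK hO hKc hOc.isPreconnected
    hKO
  have hXA : (S ∪ C) ∩ A = W := by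
    rw [← hW]
    ext x
    constructor
    · rintro ⟨h | h, hxA⟩
      · exact ⟨hxA, h⟩
      · exact (Set.disjoint_left.1 hd hxA h).elim
    · rintro ⟨h1, h2⟩
      exact ⟨Or.inl h2, h1⟩
  have hOX : IsPreconnected (O ∩ (S ∪ C)) := by
    refine cgConn_aux (B := K ∩ O) (M := O ∩ W) (C := A) hM
      (fun x hx => ⟨hXK hx.2, hx.1⟩) (hO.inter hX) (fun x hx => ⟨hx.1, hWX hx.2⟩) hrim hA ?_ ?_
    · rintro x ⟨h1, h2⟩ h3
      rw [← hU] at h1
      rcases h1 with (h1 | h1) | h1
      · exact h1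
      · exact (h3 ⟨h2, Or.inr h1⟩).elim
      · exact (h3 ⟨h2, Or.inl h1⟩).elim
    · rintro x hx ⟨h1, h2⟩
      exact ⟨h1, hXA ▸ ⟨h2, hx⟩⟩
  have hXl : LiftS (S ∪ C) := by
    refine LiftS.of_union hX hA ?_ ?_
    · have h1 : (S ∪ C) ∪ A = K := by
        rw [← hU]
        ext x
        simp only [mem_union]
        tauto
      rw [h1]
      exact hKl
    · rw [hXA]
      exact hWl
  have hXc : IsPreconnected (S ∪ C) := by
    obtain ⟨w, hw⟩ := hW'0
    rw [← hW'] at hw
    exact IsPreconnected.union w hw.2 hw.1 hSc hCc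
  obtain ⟨w, hw1, hw2⟩ := hrim0
  exact ⟨⟨⟨w, Or.inl hw1⟩, IsPreconnected.union w hw1 (hWX hw2) hOc.isPreconnected hXc⟩,
    LiftS.union hO hX hOl hXl hOX⟩

/-- A unit vector orthogonal to two vectors. -/
theorem exists_orth_two (hdim : 3 ≤ Module.finrank ℝ V) (e u : V) :
    ∃ w : V, w ≠ 0 ∧ ⟪e, w⟫ = 0 ∧ ⟪u, w⟫ = 0 := by
  classical
  have h1 : Module.finrank ℝ (Submodule.span ℝ ({e, u} : Set V)) ≤ 2 := by
    have h2 := finrank_span_finset_le_card (R := ℝ) ({e, u} : Finset V)
    rw [Finset.coe_insert, Finset.coe_singleton] at h2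
    exact h2.trans Finset.card_le_two
  have h3 := Submodule.finrank_add_finrank_orthogonal (Submodule.span ℝ ({e, u} : Set V))
  have h4 : 0 < Module.finrank ℝ (Submodule.span ℝ ({e, u} : Set V))ᗮ := by omega
  have h5 : (Submodule.span ℝ ({e, u} : Set V))ᗮ ≠ ⊥ := by
    intro h
    rw [h, finrank_bot] at h4
    exact lt_irrefl _ h4
  obtain ⟨w, hw, hw0⟩ := Submodule.exists_mem_ne_zero_of_ne_bot h5
  rw [Submodule.mem_orthogonal] at hw
  exact ⟨w, hw0, hw e (Submodule.subset_span (by simp)), hw u (Submodule.subset_span (by simp))⟩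

variable {f : V → ℝ} {k : ℝ} {P : Finset V} {e u p : V} {B : V →L[ℝ] V →L[ℝ] ℝ} {μ a r η ε : ℝ}

/-- The rim of a wall is connected. -/
theorem RSlab.rim (h : RSlab f k P e u p B μ a r η ε) (hdim : 3 ≤ Module.finrank ℝ V) {c : ℝ}
    (hc : |c| = η) : IsConnected ({x | 0 ≤ fs f e p ε x} ∩ wallS f e u p η ε r c) := by
  have he := h.mod.he
  have hu := h.mod.hu
  have heu := h.mod.heu
  have hμ := h.mod.hμ
  have ha := h.mod.ha
  have hε := h.hε
  have hr := h.mod.hr
  obtain ⟨K, hK⟩ : ∃ K : ℝ, K = 2 * μ * ε + a * c ^ 2 := ⟨_, rfl⟩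
  have hK0 : 0 < K := by
    rw [hK]
    have : 0 ≤ a * c ^ 2 := by positivity
    have : 0 < 2 * μ * ε := by positivity
    linarith
  let D : Set V := {w | ⟪e, w⟫ = 0 ∧ ⟪u, w⟫ = 0 ∧ B w w ≤ K}
  let φ : V → ℝ := fun w => (B w w - a * c ^ 2) / (2 * μ)
  have hφc : Continuous φ := by
    have h1 : Continuous fun w : V => B w w := B.continuous.clm_apply continuous_id
    exact (h1.sub continuous_const).div_const _
  have hnn : ∀ w : V, ⟪e, w⟫ = 0 → ⟪u, w⟫ = 0 → 0 ≤ B w w := by
    intro w h1 h2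
    by_cases h3 : w = 0
    · rw [h3]
      simp
    · exact (h.mod.hB w h1 h2 h3).le
  have hsm : ∀ (t : ℝ) (w : V), B (t • w) (t • w) = t * (t * B w w) := by
    intro t w
    simp only [map_smul, _root_.smul_apply, smul_eq_mul]
  have hD0 : (0 : V) ∈ D := ⟨inner_zero_right _, inner_zero_right _, by
    rw [map_zero]
    exact hK0.le⟩
  have hDc : IsPreconnected D := by
    have h1 : StarConvex ℝ (0 : V) D := by
      rw [starConvex_zero_iff]
      rintro w ⟨h1, h2, h3⟩ t ht0 ht1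
      refine ⟨by rw [inner_smul_right, h1, mul_zero], by rw [inner_smul_right, h2, mul_zero], ?_⟩
      rw [hsm]
      have h4 := hnn w h1 h2
      have h5 : t * B w w ≤ B w w := mul_le_of_le_one_left h4 ht1
      have h6 : t * (t * B w w) ≤ t * B w w := mul_le_of_le_one_left (mul_nonneg ht0 h4) ht1
      linarith
    exact (h1.isPathConnected hD0).isConnected.isPreconnected
  let m1 : V → V := fun w => φ w • e + c • u + w + p
  let m2 : V → V := fun w => ε • e + c • u + w + p
  have hm1 : Continuous m1 := by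
    have := hφc
    fun_prop
  have hm2 : Continuous m2 := by fun_prop
  obtain ⟨w₁, hw₁, hew, huw⟩ := exists_orth_two hdim e u
  have hB₁ := h.mod.hB w₁ hew huw hw₁
  obtain ⟨w₀, hw₀D, hw₀⟩ : ∃ w₀ ∈ D, φ w₀ = ε := by
    obtain ⟨t, ht, ht2⟩ : ∃ t : ℝ, 0 ≤ t ∧ t ^ 2 * B w₁ w₁ = K := by
      refine ⟨Real.sqrt (K / B w₁ w₁), Real.sqrt_nonneg _, ?_⟩
      rw [Real.sq_sqrt (by positivity)]
      field_simp
    have h1 : B (t • w₁) (t • w₁) = K := by
      rw [hsm, ← ht2]
      ring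
    refine ⟨t • w₁, ⟨by rw [inner_smul_right, hew, mul_zero],
      by rw [inner_smul_right, huw, mul_zero], h1.le⟩, ?_⟩
    show (B (t • w₁) (t • w₁) - a * c ^ 2) / (2 * μ) = ε
    rw [h1, hK]
    field_simp
    ring
  have hcomp : ∀ (z : ℝ) (w : V), ⟪e, w⟫ = 0 → ⟪u, w⟫ = 0 →
      ⟪e, (z • e + c • u + w + p) - p⟫ = z ∧ ⟪u, (z • e + c • u + w + p) - p⟫ = c ∧
        wc e u ((z • e + c • u + w + p) - p) = w := by
    intro z w h1 h2
    rw [add_sub_cancel_right]
    exact comp_of he hu heu h1 h2 z c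
  have hset : {x | 0 ≤ fs f e p ε x} ∩ wallS f e u p η ε r c = m1 '' D ∪ m2 '' D := by
    ext x
    constructor
    · rintro ⟨h1, h2⟩
      have h1' : 0 ≤ fs f e p ε x := h1
      obtain ⟨h3, h4, h5⟩ := (h.mem_wall hc x).1 h2
      have h6 : ‖x - p‖ < r / 2 := h.small x h3 h4 (by rw [h5, hc]; linarith [h.hη])
      have h7 : f x = mdl1 B μ a e u p x := h.mod.hf x (by linarith)
      have h8 : fs f e p ε x = max (mdl1 B μ a e u p x) (⟪e, x - p⟫ - ε) := by
        rw [fs_eq, h7]
      obtain ⟨h9, h10⟩ := inner_wc he hu heu (x - p)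
      have h11 : x = ⟪e, x - p⟫ • e + c • u + wc e u (x - p) + p := by
        rw [← h5]
        unfold wc
        abel
      have h12 : mdl1 B μ a e u p x = -(μ * ⟪e, x - p⟫) - a * c ^ 2 / 2 +
          B (wc e u (x - p)) (wc e u (x - p)) / 2 := by
        unfold mdl1
        rw [h5]
      have hz : ⟪e, x - p⟫ ≤ ε := h4
      have hD : wc e u (x - p) ∈ D := by
        refine ⟨h9, h10, ?_⟩
        rw [h12] at h3
        have h13 : μ * ⟪e, x - p⟫ ≤ μ * ε := mul_le_mul_of_nonneg_left hz hμ.le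
        rw [hK]
        linarith
      rw [h8] at h1'
      rcases le_max_iff.1 h1' with h13 | h13
      · refine Or.inl ⟨wc e u (x - p), hD, ?_⟩
        have h14 : mdl1 B μ a e u p x = 0 := le_antisymm h3 h13
        have h15 : φ (wc e u (x - p)) = ⟪e, x - p⟫ := by
          show (B (wc e u (x - p)) (wc e u (x - p)) - a * c ^ 2) / (2 * μ) = ⟪e, x - p⟫
          rw [div_eq_iff (by positivity)]
          rw [h12] at h14
          linarith
        show φ (wc e u (x - p)) • e + c • u + wc e u (x - p) + p = x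
        rw [h15]
        exact h11.symm
      · refine Or.inr ⟨wc e u (x - p), hD, ?_⟩
        have h15 : ε = ⟪e, x - p⟫ := by linarith
        show ε • e + c • u + wc e u (x - p) + p = x
        rw [h15]
        exact h11.symm
    · have key : ∀ (z : ℝ) (w : V), w ∈ D → z ≤ ε → φ w ≤ z → (z = φ w ∨ z = ε) →
          z • e + c • u + w + p ∈ {x | 0 ≤ fs f e p ε x} ∩ wallS f e u p η ε r c := by
        rintro z w ⟨h1, h2, h3⟩ hz hz' hor
        obtain ⟨c1, c2, c3⟩ := hcomp z w h1 h2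
        have h4 : mdl1 B μ a e u p (z • e + c • u + w + p) =
            -(μ * z) - a * c ^ 2 / 2 + B w w / 2 := by
          unfold mdl1
          rw [c1, c2, c3]
        have h5 : B w w - a * c ^ 2 ≤ z * (2 * μ) := (div_le_iff₀ (by positivity)).1 hz'
        have h6 : mdl1 B μ a e u p (z • e + c • u + w + p) ≤ 0 := by
          rw [h4]
          linarith
        have hw := (h.mem_wall hc (z • e + c • u + w + p)).2 ⟨h6, by rw [c1]; exact hz, c2⟩
        refine ⟨?_, hw⟩
        have h7 : ‖(z • e + c • u + w + p) - p‖ < r / 2 :=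
          h.small _ h6 (by rw [c1]; exact hz) (by rw [c2, hc]; linarith [h.hη])
        show 0 ≤ fs f e p ε _
        rw [fs_eq, h.mod.hf _ (by linarith), c1, le_max_iff]
        rcases hor with h8 | h8
        · left
          rw [h4]
          have h9 : z * (2 * μ) = B w w - a * c ^ 2 := by
            rw [h8]
            show (B w w - a * c ^ 2) / (2 * μ) * (2 * μ) = B w w - a * c ^ 2
            field_simp
          linarith
        · right
          rw [h8, sub_self]
      rintro (⟨w, hw, rfl⟩ | ⟨w, hw, rfl⟩)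
      · refine key (φ w) w hw ?_ le_rfl (Or.inl rfl)
        show (B w w - a * c ^ 2) / (2 * μ) ≤ ε
        rw [div_le_iff₀ (by positivity)]
        have := hw.2.2
        rw [hK] at this
        linarith
      · refine key ε w hw le_rfl ?_ (Or.inr rfl)
        show (B w w - a * c ^ 2) / (2 * μ) ≤ ε
        rw [div_le_iff₀ (by positivity)]
        have := hw.2.2
        rw [hK] at this
        linarith
  have hcom : m1 w₀ = m2 w₀ := by
    show φ w₀ • e + c • u + w₀ + p = ε • e + c • u + w₀ + p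
    rw [hw₀]
  rw [hset]
  exact ⟨⟨m1 0, Or.inl ⟨0, hD0, rfl⟩⟩, IsPreconnected.union (m1 w₀) ⟨w₀, hw₀D, rfl⟩
    ⟨w₀, hw₀D, hcom.symm⟩ (hDc.image m1 hm1.continuousOn) (hDc.image m2 hm2.continuousOn)⟩


omit [FiniteDimensional ℝ V] in
/-- The outer side of a part. -/
theorem OutCut_side {f : V → ℝ} {e u p : V} {η ε r : ℝ} {A C : Set V} (hA : IsClosed A)
    (hC : IsClosed C) (hd : Disjoint A C) (hA0 : A.Nonempty) (hC0 : C.Nonempty)
    (hAC : A ∪ C = {x | fcut f e u p η ε r x ≤ 0})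
    (hU : (A ∪ C) ∪ slabS f e u p η ε r = {x | fs f e p ε x ≤ 0}) :
    {x | 0 ≤ partF (fcut f e u p η ε r) A C x} =
      {x | 0 ≤ fs f e p ε x} ∪ (slabS f e u p η ε r ∪ C) := by
  ext x
  constructor
  · intro h1
    have h1' : 0 ≤ partF (fcut f e u p η ε r) A C x := h1
    by_cases hx : x ∈ A
    · have h2 : fcut f e u p η ε r x ≤ 0 := by
        have : x ∈ {x | fcut f e u p η ε r x ≤ 0} := hAC ▸ Or.inl hx
        exact this
      have h4 : 0 < Metric.infDist x C :=
        (hC.notMem_iff_infDist_pos hC0).1 (Set.disjoint_left.1 hd hx)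
      have h5 : Metric.infDist x A = 0 := Metric.infDist_zero_of_mem hx
      have h6 : 0 ≤ fcut f e u p η ε r x := by
        unfold partF at h1'
        rcases le_max_iff.1 h1' with h7 | h7
        · exact h7
        · rw [h5] at h7
          linarith
      have h7 : max (fs f e p ε x) (lam u p η r x) = 0 := le_antisymm h2 h6
      have h8 : fs f e p ε x ≤ 0 := h7 ▸ le_max_left _ _
      rcases max_choice (fs f e p ε x) (lam u p η r x) with h9 | h9
      · left
        show 0 ≤ fs f e p ε x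
        rw [← h9, h7]
      · exact Or.inr (Or.inl ⟨h8, by rw [← h9, h7]⟩)
    · rcases le_total 0 (fs f e p ε x) with h2 | h2
      · exact Or.inl h2
      · have h3 : x ∈ (A ∪ C) ∪ slabS f e u p η ε r := hU ▸ h2
        rcases h3 with (h3 | h3) | h3
        · exact (hx h3).elim
        · exact Or.inr (Or.inr h3)
        · exact Or.inr (Or.inl h3)
  · rintro (h1 | h1 | h1)
    · have h2 : 0 ≤ fs f e p ε x := h1
      have h3 : 0 ≤ fcut f e u p η ε r x := h2.trans (le_max_left _ _)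
      exact h3.trans (le_max_left _ _)
    · have h2 : 0 ≤ lam u p η r x := h1.2
      have h3 : 0 ≤ fcut f e u p η ε r x := h2.trans (le_max_right _ _)
      exact h3.trans (le_max_left _ _)
    · by_contra h2
      have h3 : x ∈ A := (partF_le hA hC hd hA0 hC0 hAC x).1 (not_le.1 h2).le
      exact Set.disjoint_left.1 hd h3 h1

/-- The cut with the outer sides of the pieces. -/
theorem rcut_out (hdim : 3 ≤ Module.finrank ℝ V) {f : V → ℝ} {P : Finset V} {e u p : V} {c : ℝ} {B : V →L[ℝ] V →L[ℝ] ℝ} {μ a r : ℝ}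
    (hf : RClass f e c P) (hp : p ∈ P) (htop : ∀ p' ∈ P, ⟪e, p'⟫ ≤ ⟪e, p⟫)
    (hm : Mod1 f e u p B μ a r) (hconn : IsConnected {x | f x ≤ 0}) (hlift : LiftS {x | f x ≤ 0})
    (hout : IsConnected {x | 0 ≤ f x}) (hol : LiftS {x | 0 ≤ f x}) :
    ∃ (A C : V → ℝ) (PA PC : Finset V) (q : V) (ℓ : ℝ), RClass A e c PA ∧ RClass C e c PC ∧
      PA.card < P.card ∧ PC.card < P.card ∧
      IsConnected {x | A x ≤ 0} ∧ LiftS {x | A x ≤ 0} ∧
      IsConnected {x | C x ≤ 0} ∧ LiftS {x | C x ≤ 0} ∧ (∀ x, A x ≤ 0 → 0 < C x) ∧ 0 < ℓ ∧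
      (∀ᶠ x in 𝓝 q, A x = ⟪u, x - q⟫) ∧
      (∀ᶠ x in 𝓝 (q + ℓ • u), C x = -⟪u, x - (q + ℓ • u)⟫) ∧
      (∀ s ∈ Ioo (0 : ℝ) ℓ, 0 < A (q + s • u) ∧ 0 < C (q + s • u)) ∧
      (∀ᶠ ρ in 𝓝[>] (0 : ℝ), Hom f (fun x => min (min (A x) (C x)) (tau q u ℓ ρ x))) ∧
      PartLow A f e c ∧ PartLow C f e c ∧ IsConnected {x | 0 ≤ A x} ∧ LiftS {x | 0 ≤ A x} ∧
      IsConnected {x | 0 ≤ C x} ∧ LiftS {x | 0 ≤ C x} := by
  classical
  obtain ⟨r, η, ε, h⟩ := rslab_exists hf hp htop hm
  have he := h.mod.he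
  have hu := h.mod.hu
  have heu := h.mod.heu
  have hη := h.hη
  have hε := h.hε
  have hs : ∀ p' ∈ P, ⟪e, p'⟫ < ⟪e, p⟫ + ε := fun p' hp' => by linarith [htop p' hp']
  have hks : c < ⟪e, p⟫ + ε := by linarith [hf.high p hp]
  have hT : Hom f (fs f e p ε) := rtrunc_hom he hf hks hs
  have hconn' : IsConnected {x | fs f e p ε x ≤ 0} := hT.isConnected hf.bdd hconn
  have hlift' : LiftS {x | fs f e p ε x ≤ 0} := hT.liftS hf.bdd hlift
  have hout' : IsConnected {x | 0 ≤ fs f e p ε x} := hT.nonneg_conn (by omega) hout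
  have hol' : LiftS {x | 0 ≤ fs f e p ε x} := hT.nonneg_lift hdim hol
  have hcut : RClass (fcut f e u p η ε r) e c (P.erase p) := h.cut_class
  have hcont : Continuous (fcut f e u p η ε r) := hcut.good.cont
  have hfsc : Continuous (fs f e p ε) := h.fs_class.good.cont
  have hlc : Continuous (lam u p η r) := lam_continuous u p η r
  have hDc : IsClosed {x | fcut f e u p η ε r x ≤ 0} := isClosed_le hcont continuous_const
  have hS : IsClosed (slabS f e u p η ε r) :=
    (isClosed_le hfsc continuous_const).inter (isClosed_le continuous_const hlc)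
  have hW := h.inter_slab
  have hU := h.union_slab
  have hm1 : |(-η)| = η := by rw [abs_neg, abs_of_pos hη]
  have hp1 : |η| = η := abs_of_pos hη
  have hwmc : IsConnected (wallS f e u p η ε r (-η)) :=
    ⟨h.wall_nonempty hm1, (h.wall_convex hm1).isPreconnected⟩
  have hwpc : IsConnected (wallS f e u p η ε r η) :=
    ⟨h.wall_nonempty hp1, (h.wall_convex hp1).isPreconnected⟩
  obtain ⟨A, C, hA, hC, hd, hAC, hmA, hpC, hAc, hCc⟩ :=
    cut_parts hDc hS hW (y := fun x => ⟪u, x - p⟫) (by fun_prop) hη (fun x hx => hx.2.2)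
      (fun x hx => hx.2.2) hwmc hwpc h.slab_preconnected (by rw [hU]; exact hconn')
      (by rw [hU]; exact hlift')
  have hlA : LiftS A := cut_lift hS hW
    (liftS_convex_compact (h.wall_compact hm1) (h.wall_convex hm1)) (by rw [hU]; exact hlift')
    hA hC hd hAC hmA hpC
  have hlC : LiftS C := cut_lift hS (hW.trans (Set.union_comm _ _))
    (liftS_convex_compact (h.wall_compact hp1) (h.wall_convex hp1)) (by rw [hU]; exact hlift')
    hC hA hd.symm ((Set.union_comm _ _).trans hAC) hpC hmA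
  have hA0 := hAc.nonempty
  have hC0 := hCc.nonempty
  have hCA : C ∪ A = {x | fcut f e u p η ε r x ≤ 0} := (Set.union_comm _ _).trans hAC
  obtain ⟨PA, hPA, hcA⟩ := rpart_class hcut hA hC hd hA0 hC0 hAC
  obtain ⟨PC, hPC, hcC⟩ := rpart_class hcut hC hA hd.symm hC0 hA0 hCA
  have hcard : (P.erase p).card < P.card := Finset.card_erase_lt_of_mem hp
  have hsA : {x | partF (fcut f e u p η ε r) A C x ≤ 0} = A := by
    ext x
    exact partF_le hA hC hd hA0 hC0 hAC x
  have hsC : {x | partF (fcut f e u p η ε r) C A x ≤ 0} = C := by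
    ext x
    exact partF_le hC hA hd.symm hC0 hA0 hCA x
  have hU' : (A ∪ C) ∪ slabS f e u p η ε r = {x | fs f e p ε x ≤ 0} := by
    rw [hAC]
    exact hU
  have hU'' : (C ∪ A) ∪ slabS f e u p η ε r = {x | fs f e p ε x ≤ 0} := by
    rw [hCA]
    exact hU
  have hO : IsClosed {x | 0 ≤ fs f e p ε x} := isClosed_le continuous_const hfsc
  have hKO : {x | fs f e p ε x ≤ 0} ∪ {x | 0 ≤ fs f e p ε x} = univ := by
    rw [Set.eq_univ_iff_forall]
    exact fun x => le_total (fs f e p ε x) 0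
  have hAS : A ∩ slabS f e u p η ε r = wallS f e u p η ε r (-η) := by
    ext x
    constructor
    · rintro ⟨h1, h2⟩
      have h3 : x ∈ wallS f e u p η ε r (-η) ∪ wallS f e u p η ε r η :=
        hW ▸ ⟨hAC ▸ Or.inl h1, h2⟩
      rcases h3 with h3 | h3
      · exact h3
      · exact (Set.disjoint_left.1 hd h1 (hpC h3)).elim
    · intro h1
      exact ⟨hmA h1, h1.1, h1.2.1.ge⟩
  have hCS : C ∩ slabS f e u p η ε r = wallS f e u p η ε r η := by
    ext x
    constructor
    · rintro ⟨h1, h2⟩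
      have h3 : x ∈ wallS f e u p η ε r (-η) ∪ wallS f e u p η ε r η :=
        hW ▸ ⟨hAC ▸ Or.inr h1, h2⟩
      rcases h3 with h3 | h3
      · exact (Set.disjoint_left.1 hd (hmA h3) h1).elim
      · exact h3
    · intro h1
      exact ⟨hpC h1, h1.1, h1.2.1.ge⟩
  have houtA := out_piece hO hKO hA hC hS hd hU' hAS hCS
    (liftS_convex_compact (h.wall_compact hm1) (h.wall_convex hm1)) hwpc.nonempty
    hconn'.isPreconnected hout' hlift' hol' h.slab_preconnected hCc.isPreconnected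
    (h.rim hdim hm1).isPreconnected (h.rim hdim hm1).nonempty
  have houtC := out_piece hO hKO hC hA hS hd.symm hU'' hCS hAS
    (liftS_convex_compact (h.wall_compact hp1) (h.wall_convex hp1)) hwmc.nonempty
    hconn'.isPreconnected hout' hlift' hol' h.slab_preconnected hAc.isPreconnected
    (h.rim hdim hp1).isPreconnected (h.rim hdim hp1).nonempty
  have hoA : {x | 0 ≤ partF (fcut f e u p η ε r) A C x} =
      {x | 0 ≤ fs f e p ε x} ∪ (slabS f e u p η ε r ∪ C) :=
    OutCut_side hA hC hd hA0 hC0 hAC hU'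
  have hoC : {x | 0 ≤ partF (fcut f e u p η ε r) C A x} =
      {x | 0 ≤ fs f e p ε x} ∪ (slabS f e u p η ε r ∪ A) :=
    OutCut_side hC hA hd.symm hC0 hA0 hCA hU''
  have hends : ∀ s : ℝ, s = 0 ∨ s = 2 * η → lam u p η r (qn e u p η ε + s • u) = 0 := by
    intro s hs
    rcases hs with rfl | rfl
    · rw [RCutFin_lam h ⟨le_rfl, by linarith⟩, zero_sub, abs_neg, abs_of_pos hη, sub_self]
    · rw [RCutFin_lam h ⟨by linarith, le_rfl⟩, show 2 * η - η = η by ring, abs_of_pos hη, sub_self]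
  have hq1 : qn e u p η ε + (0 : ℝ) • u ∈ A := by
    apply hmA
    obtain ⟨k1, k2, k3⟩ := RCutFin_pt h (s := 0) ⟨le_rfl, by linarith⟩
    exact ⟨k3.le, hends 0 (Or.inl rfl), by rw [k2]; ring⟩
  have hq2 : qn e u p η ε + (2 * η) • u ∈ C := by
    apply hpC
    obtain ⟨k1, k2, k3⟩ := RCutFin_pt h (s := 2 * η) ⟨by linarith, le_rfl⟩
    exact ⟨k3.le, hends _ (Or.inr rfl), by rw [k2]; ring⟩
  refine ⟨partF (fcut f e u p η ε r) A C, partF (fcut f e u p η ε r) C A, PA, PC,
    qn e u p η ε, 2 * η, hcA, hcC, (Finset.card_le_card hPA).trans_lt hcard,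
    (Finset.card_le_card hPC).trans_lt hcard, by rw [hsA]; exact hAc, by rw [hsA]; exact hlA,
    by rw [hsC]; exact hCc, by rw [hsC]; exact hlC, ?_, by linarith, ?_, ?_, ?_, ?_,
    RCutFin_low h hcont hA hC hd hA0 hC0 hAC, RCutFin_low h hcont hC hA hd.symm hC0 hA0 hCA,
    by rw [hoA]; exact houtA.1, by rw [hoA]; exact houtA.2, by rw [hoC]; exact houtC.1,
    by rw [hoC]; exact houtC.2⟩
  · intro x hx
    have hxA : x ∈ A := (partF_le hA hC hd hA0 hC0 hAC x).1 hx
    exact partF_pos hC hd hC0 hxA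
  · have h1 := RCutFin_flat h hcont hC hd hC0 (Or.inl rfl) hq1
    rw [zero_smul, add_zero] at h1
    have h2 : ∀ᶠ x in 𝓝 (qn e u p η ε), ⟪u, x - p⟫ < 0 := by
      have h3 : Continuous fun x : V => ⟪u, x - p⟫ := by fun_prop
      refine h3.continuousAt.eventually_lt_const ?_
      have h4 := (RCutFin_pt h (s := 0) ⟨le_rfl, by linarith⟩).2.1
      rw [zero_smul, add_zero] at h4
      change ⟪u, qn e u p η ε - p⟫ < 0
      rw [h4]
      linarith
    filter_upwards [h1, h2] with x h3 h4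
    rw [h3, abs_of_neg h4, Neck_inner hu heu]
    ring
  · have h1 := RCutFin_flat h hcont hA hd.symm hA0 (Or.inr rfl) hq2
    have h2 : ∀ᶠ x in 𝓝 (qn e u p η ε + (2 * η) • u), 0 < ⟪u, x - p⟫ := by
      have h3 : Continuous fun x : V => ⟪u, x - p⟫ := by fun_prop
      refine h3.continuousAt.eventually_const_lt ?_
      change 0 < ⟪u, qn e u p η ε + (2 * η) • u - p⟫
      rw [(RCutFin_pt h (s := 2 * η) ⟨by linarith, le_rfl⟩).2.1]
      linarith
    filter_upwards [h1, h2] with x h3 h4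
    have h5 : ⟪u, x - (qn e u p η ε + (2 * η) • u)⟫ = ⟪u, x - p⟫ - η := by
      rw [← sub_sub, inner_sub_right, Neck_inner hu heu, inner_smul_right,
        real_inner_self_eq_norm_sq, hu]
      ring
    rw [h3, abs_of_pos h4, h5]
    ring
  · intro s hs
    have h1 := RCutFin_lam h (s := s) ⟨hs.1.le, hs.2.le⟩
    have h2 : 0 < lam u p η r (qn e u p η ε + s • u) := by
      rw [h1]
      have h3 : |s - η| < η := by
        rw [abs_lt]
        exact ⟨by linarith [hs.1], by linarith [hs.2]⟩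
      linarith
    have h3 : 0 < fcut f e u p η ε r (qn e u p η ε + s • u) := lt_max_of_lt_right h2
    exact ⟨lt_max_of_lt_left h3, lt_max_of_lt_left h3⟩
  · filter_upwards [h.neck_tube, self_mem_nhdsWithin] with ρ h1 hρ
    have hρ' : 0 < ρ := hρ
    have h2 := ((hT.trans (h.neck_start hρ')).trans (h.neck_shrink hρ')).trans
      (h.neck_end hρ' h1)
    exact h2.trans (part_hom hcont (tau_continuous (qn e u p η ε) u (2 * η) ρ) h2.good_right
      hA hC hd hA0 hC0 hAC)

end Pool.Schoen
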